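import Pool.Agent.ADH.A2

/-!
# Uniruled threefolds from Artin-Schreier covers of hypersurfaces: homogenized equations
-/

set_option autoImplicit false

namespace Pool.Agent.ADH

open Polynomial Pool.Agent.UQ Pool.Agent.WLD Pool.Agent.ADT

universe u

variable {κ : Type u} [Field κ]

/-- the threefold `g(x) = 0`, `w ^ p - w + a ^ e = f(x) / q(x) ^ (p e)` is uniruled -/
theorem fam_uniH (p : ℕ) [Fact p.Prime] [CharP κ p] (e : ℕ)
    {K₀ L : Type u} [Field K₀] [Field L] [Algebra κ K₀]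
    [Algebra κ L] [Algebra K₀ L] [IsScalarTower κ K₀ L] {r : ℕ} (x : Fin r → K₀)
    (hK₀ : IntermediateField.adjoin κ (Set.range x) = ⊤) (htd : Algebra.trdeg κ K₀ + 1 = r)
    (g₀ : MvPolynomial (Fin r) κ) (hg0 : g₀ ≠ 0) (hg₀ : MvPolynomial.aeval x g₀ = 0)
    (f q : MvPolynomial (Fin r) κ) (hq : MvPolynomial.aeval x q ≠ 0) (a w : L)
    (ha : Transcendental K₀ a)
    (hw : (w ^ p - w + a ^ e) * algebraMap K₀ L (MvPolynomial.aeval x q) ^ (p * e) =
      algebraMap K₀ L (MvPolynomial.aeval x f))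
    (hgen : IntermediateField.adjoin K₀ {a, w} = ⊤) (ω : Fin r → ℕ) (α γ τ d D : ℕ)
    (h0 : MvPolynomial.weightedTotalDegree ω g₀ ≤ d)
    (h1 : MvPolynomial.weightedTotalDegree ω f ≤ D)
    (hτ : MvPolynomial.weightedTotalDegree ω q ≤ τ) (h2 : e * α ≤ D)
    (h3 : p * γ ≤ D) (h4 : e * (p - 1) * τ + γ ≤ D) (h5 : p * e * τ + 1 ≤ D)
    (h6 : d + D ≤ ∑ i, ω i + α + γ) : Uniruled κ L := by
  classical
  have hp : 2 ≤ p := (Fact.out : p.Prime).two_le
  obtain ⟨Q, hQ⟩ : ∃ Q, Q = algebraMap K₀ L (MvPolynomial.aeval x q) := ⟨_, rfl⟩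
  have hQ0 : Q ≠ 0 := by
    rw [hQ]
    exact (_root_.map_ne_zero _).2 hq
  rw [← hQ] at hw
  let g : Fin r → Fin (r + 1 + 1) := fun i => i.castSucc.castSucc
  have hg : Function.Injective g := fun i j h =>
    Fin.castSucc_injective _ (Fin.castSucc_injective _ h)
  let i₀ : Fin (r + 1 + 1) := Fin.last (r + 1)
  let i₁ : Fin (r + 1 + 1) := (Fin.last r).castSucc
  let ξ : Fin (r + 1 + 1) → L :=
    Fin.snoc (Fin.snoc (fun i => algebraMap K₀ L (x i)) (Q ^ p * a)) (Q ^ e * w)
  let Ω : Fin (r + 1 + 1) → ℕ := Fin.snoc (Fin.snoc ω α) γ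
  have ξg : ∀ i, ξ (g i) = algebraMap K₀ L (x i) := fun i => by
    simp only [ξ, g, Fin.snoc_castSucc]
  have ξ0 : ξ i₀ = Q ^ e * w := by simp only [ξ, i₀, Fin.snoc_last]
  have ξ1 : ξ i₁ = Q ^ p * a := by simp only [ξ, i₁, Fin.snoc_castSucc, Fin.snoc_last]
  have Ωg : (fun i => Ω (g i)) = ω := by
    funext i
    simp only [Ω, g, Fin.snoc_castSucc]
  have Ω0 : Ω i₀ = γ := by simp only [Ω, i₀, Fin.snoc_last]
  have Ω1 : Ω i₁ = α := by simp only [Ω, i₁, Fin.snoc_castSucc, Fin.snoc_last]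
  have hsum : ∑ i, Ω i = ∑ i, ω i + α + γ := by
    rw [Fin.sum_univ_castSucc, Fin.sum_univ_castSucc]
    simp only [Ω, Fin.snoc_castSucc, Fin.snoc_last]
  have hr : ∀ P : MvPolynomial (Fin r) κ, MvPolynomial.aeval ξ (MvPolynomial.rename g P) =
        algebraMap K₀ L (MvPolynomial.aeval x P) := by
    intro P
    rw [MvPolynomial.aeval_rename, ← MvPolynomial.aeval_algebraMap_apply (A := K₀) (B := L) x P]
    congr 2
    ext i
    exact ξg i
  have hgi : ∀ i, g i ≠ i₀ := fun i h => Fin.castSucc_ne_last _ h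
  have hv : ∀ P : MvPolynomial (Fin r) κ, i₀ ∉ (MvPolynomial.rename g P).vars := by
    intro P hr
    have := MvPolynomial.vars_rename g P hr
    rw [Finset.mem_image] at this
    obtain ⟨j, -, hj⟩ := this
    exact hgi j hj
  have hi : i₁ ≠ i₀ := fun h => Fin.castSucc_ne_last _ h
  -- generators
  have hgen' : IntermediateField.adjoin κ (Set.range ξ) = ⊤ := by
    set E := IntermediateField.adjoin κ (Set.range ξ) with hE
    have hmem : ∀ i, ξ i ∈ E := fun i => IntermediateField.subset_adjoin κ _ ⟨i, rfl⟩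
    have hK : ∀ b : K₀, algebraMap K₀ L b ∈ E := by
      intro b
      have h1 : (⊤ : IntermediateField κ K₀) ≤ E.comap (IsScalarTower.toAlgHom κ K₀ L) := by
        rw [← hK₀, IntermediateField.adjoin_le_iff]
        rintro _ ⟨i, rfl⟩
        show algebraMap K₀ L (x i) ∈ E
        rw [← ξg]
        exact hmem _
      exact h1 (IntermediateField.mem_top (x := b))
    have hQE : Q ∈ E := by
      rw [hQ]
      exact hK _
    have hw' : w ∈ E := by
      have h1 : Q ^ e * w ∈ E := by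
        rw [← ξ0]
        exact hmem _
      have h3 := div_mem h1 (pow_mem hQE e)
      rwa [mul_div_cancel_left₀ _ (pow_ne_zero _ hQ0)] at h3
    have ha' : a ∈ E := by
      have h1 : Q ^ p * a ∈ E := by
        rw [← ξ1]
        exact hmem _
      have h3 := div_mem h1 (pow_mem hQE p)
      rwa [mul_div_cancel_left₀ _ (pow_ne_zero _ hQ0)] at h3
    let E' : IntermediateField K₀ L :=
      { E.toSubfield with
        algebraMap_mem' := hK }
    have h1 : (⊤ : IntermediateField K₀ L) ≤ E' := by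
      rw [← hgen, IntermediateField.adjoin_le_iff]
      rintro c (rfl | rfl)
      · exact ha'
      · exact hw'
    rw [eq_top_iff]
    intro b _
    exact h1 (IntermediateField.mem_top (x := b))
  -- the transcendence degree
  have hEss : Algebra.EssFiniteType K₀ L := by
    rw [← IntermediateField.fg_top_iff, ← hgen]
    exact IntermediateField.fg_adjoin_of_finite (Set.toFinite _)
  have hfin : Algebra.trdeg K₀ L < Cardinal.aleph0 := trdeg_lt_aleph0 K₀ L
  have hadd' := trdeg_add_eq κ K₀ (A := L)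
  have hfin₀ : Algebra.trdeg κ K₀ < Cardinal.aleph0 := by
    refine lt_of_le_of_lt (self_le_add_right _ 1) ?_
    rw [htd]
    exact Cardinal.natCast_lt_aleph0
  have hfin' : Algebra.trdeg κ L < Cardinal.aleph0 := by
    rw [← hadd']
    exact Cardinal.add_lt_aleph0 hfin₀ hfin
  have h1' : (1 : Cardinal) ≤ Algebra.trdeg K₀ L := by
    rw [Cardinal.one_le_iff_ne_zero, trdeg_ne_zero_iff]
    exact ⟨a, ha⟩
  -- the weight of `q ^ e`
  have hG : MvPolynomial.weightedTotalDegree Ω ((MvPolynomial.rename g q) ^ e) ≤ e * τ :=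
    (wle_pow Ω _ e).trans (Nat.mul_le_mul_left e (wle_rename Ω g hg q _ (by rw [Ωg]; exact hτ)))
  refine uniruled_hom p ξ hgen' hfin' ?_ i₀ (MvPolynomial.rename g g₀) ?_ (hv g₀) ?_
    ((MvPolynomial.rename g q) ^ e) (MvPolynomial.rename g f - MvPolynomial.X i₁ ^ e)
    (fun h => hv q (MvPolynomial.vars_pow _ e h)) ?_ ?_ ?_ Ω d D ?_ ?_ ?_ ?_ ?_ ?_
  · rw [← hadd']
    push_cast
    rw [← htd, add_assoc, add_assoc, add_assoc]
    gcongr
    norm_num
  · intro h
    exact hg0 (MvPolynomial.rename_injective g hg (by rw [h, map_zero]))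
  · rw [hr, hg₀, map_zero]
  · intro h
    rcases Finset.mem_union.1 (MvPolynomial.vars_sub_subset _ h) with h | h
    · exact hv _ h
    · have := MvPolynomial.vars_pow _ e h
      rw [MvPolynomial.vars_X, Finset.mem_singleton] at this
      exact hi this.symm
  · rw [map_pow, hr, ← hQ]
    exact pow_ne_zero _ hQ0
  · rw [map_pow, map_sub, map_pow, hr, hr, MvPolynomial.aeval_X, ← hQ, ← hw, ξ0, ξ1]
    have h7 : (Q ^ e) ^ (p - 1) * (Q ^ e * w) = (Q ^ e) ^ p * w := by
      rw [← mul_assoc, ← pow_succ]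
      congr 2
      omega
    have h8 : (Q ^ e) ^ p = Q ^ (p * e) := by rw [← pow_mul, mul_comm]
    have h9 : (Q ^ p) ^ e = Q ^ (p * e) := by rw [← pow_mul]
    rw [h7, mul_pow, mul_pow, h8, h9]
    ring
  · exact wle_rename _ g hg _ _ (by rw [Ωg]; exact h0)
  · refine wle_sub _ _ _ _ (wle_rename _ g hg _ _ (by rw [Ωg]; exact h1))
      ((wle_X_pow Ω i₁ e).trans ?_)
    rw [Ω1]
    exact h2
  · rw [Ω0]
    exact h3
  · rw [Ω0]
    refine le_trans (Nat.add_le_add_right (Nat.mul_le_mul_left _ hG) _) ?_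
    refine le_trans (le_of_eq ?_) h4
    ring
  · refine le_trans (Nat.add_le_add_right (Nat.mul_le_mul_left _ hG) _) ?_
    refine le_trans (le_of_eq ?_) h5
    ring
  · rw [hsum]
    exact h6

end Pool.Agent.ADH
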