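import Pool.Agent.ADH.X2

/-!
# Uniruled threefolds from Artin-Schreier covers of hypersurfaces: general denominators
-/

set_option autoImplicit false

namespace Pool.Agent.ADH

open Polynomial Pool.Agent.UQ Pool.Agent.WLD Pool.Agent.ADT

universe u

variable {κ : Type u} [Field κ]

/-- the threefold `g(x) = 0`, `w ^ p - w + a ^ e = f(x) / G(x)`, `G = G₁ Q₁ ^ p = G₂ Q₂ ^ e`, is
uniruled -/
theorem fam_uniX (p : ℕ) [Fact p.Prime] [CharP κ p] (e : ℕ) (he : 2 ≤ e)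
    {K₀ L : Type u} [Field K₀] [Field L] [Algebra κ K₀]
    [Algebra κ L] [Algebra K₀ L] [IsScalarTower κ K₀ L] {r : ℕ} (x : Fin r → K₀)
    (hK₀ : IntermediateField.adjoin κ (Set.range x) = ⊤) (htd : Algebra.trdeg κ K₀ + 1 = r)
    (g₀ : MvPolynomial (Fin r) κ) (hg0 : g₀ ≠ 0) (hg₀ : MvPolynomial.aeval x g₀ = 0)
    (f G₁ Q₁ G₂ Q₂ : MvPolynomial (Fin r) κ) (hG : G₁ * Q₁ ^ p = G₂ * Q₂ ^ e)
    (hq : MvPolynomial.aeval x (G₁ * Q₁ ^ p) ≠ 0) (a w : L)
    (ha : Transcendental K₀ a)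
    (hw : (w ^ p - w + a ^ e) * algebraMap K₀ L (MvPolynomial.aeval x (G₁ * Q₁ ^ p)) =
      algebraMap K₀ L (MvPolynomial.aeval x f))
    (hgen : IntermediateField.adjoin K₀ {a, w} = ⊤) (ω : Fin r → ℕ) (α γ τ₁ κ₁ τ₂ d D : ℕ)
    (h0 : MvPolynomial.weightedTotalDegree ω g₀ ≤ d)
    (h1 : MvPolynomial.weightedTotalDegree ω f ≤ D)
    (t1 : MvPolynomial.weightedTotalDegree ω G₁ ≤ τ₁)
    (t2 : MvPolynomial.weightedTotalDegree ω Q₁ ≤ κ₁)
    (t3 : MvPolynomial.weightedTotalDegree ω G₂ ≤ τ₂) (h2 : τ₂ + e * α ≤ D)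
    (h3 : τ₁ + p * γ ≤ D) (h4 : τ₁ + (p - 1) * κ₁ + γ ≤ D) (h5 : τ₁ + p * κ₁ + 1 ≤ D)
    (h6 : d + D ≤ ∑ i, ω i + α + γ) : Uniruled κ L := by
  classical
  have hp : 2 ≤ p := (Fact.out : p.Prime).two_le
  obtain ⟨A₁, hA₁⟩ : ∃ A₁, A₁ = algebraMap K₀ L (MvPolynomial.aeval x G₁) := ⟨_, rfl⟩
  obtain ⟨B₁, hB₁⟩ : ∃ B₁, B₁ = algebraMap K₀ L (MvPolynomial.aeval x Q₁) := ⟨_, rfl⟩
  obtain ⟨A₂, hA₂⟩ : ∃ A₂, A₂ = algebraMap K₀ L (MvPolynomial.aeval x G₂) := ⟨_, rfl⟩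
  obtain ⟨B₂, hB₂⟩ : ∃ B₂, B₂ = algebraMap K₀ L (MvPolynomial.aeval x Q₂) := ⟨_, rfl⟩
  have hE1 : algebraMap K₀ L (MvPolynomial.aeval x (G₁ * Q₁ ^ p)) = A₁ * B₁ ^ p := by
    rw [map_mul, map_pow, map_mul, map_pow, hA₁, hB₁]
  have hE2 : algebraMap K₀ L (MvPolynomial.aeval x (G₁ * Q₁ ^ p)) = A₂ * B₂ ^ e := by
    rw [hG, map_mul, map_pow, map_mul, map_pow, hA₂, hB₂]
  have hne : algebraMap K₀ L (MvPolynomial.aeval x (G₁ * Q₁ ^ p)) ≠ 0 :=
    (_root_.map_ne_zero _).2 hq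
  have hA₁0 : A₁ ≠ 0 := fun h => hne (by rw [hE1, h, zero_mul])
  have hB₁0 : B₁ ≠ 0 := fun h => hne (by rw [hE1, h, zero_pow (by omega), mul_zero])
  have hB₂0 : B₂ ≠ 0 := fun h => hne (by rw [hE2, h, zero_pow (by omega), mul_zero])
  let g : Fin r → Fin (r + 1 + 1) := fun i => i.castSucc.castSucc
  have hg : Function.Injective g := fun i j h =>
    Fin.castSucc_injective _ (Fin.castSucc_injective _ h)
  let i₀ : Fin (r + 1 + 1) := Fin.last (r + 1)
  let i₁ : Fin (r + 1 + 1) := (Fin.last r).castSucc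
  let ξ : Fin (r + 1 + 1) → L :=
    Fin.snoc (Fin.snoc (fun i => algebraMap K₀ L (x i)) (B₂ * a)) (B₁ * w)
  let Ω : Fin (r + 1 + 1) → ℕ := Fin.snoc (Fin.snoc ω α) γ
  have ξg : ∀ i, ξ (g i) = algebraMap K₀ L (x i) := fun i => by
    simp only [ξ, g, Fin.snoc_castSucc]
  have ξ0 : ξ i₀ = B₁ * w := by simp only [ξ, i₀, Fin.snoc_last]
  have ξ1 : ξ i₁ = B₂ * a := by simp only [ξ, i₁, Fin.snoc_castSucc, Fin.snoc_last]
  have Ωg : (fun i => Ω (g i)) = ω := by
    funext i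
    simp only [Ω, g, Fin.snoc_castSucc]
  have Ω0 : Ω i₀ = γ := by simp only [Ω, i₀, Fin.snoc_last]
  have Ω1 : Ω i₁ = α := by simp only [Ω, i₁, Fin.snoc_castSucc, Fin.snoc_last]
  have hsum : ∑ i, Ω i = ∑ i, ω i + α + γ := by
    rw [Fin.sum_univ_castSucc, Fin.sum_univ_castSucc]
    simp only [Ω, Fin.snoc_castSucc, Fin.snoc_last]
  have hr : ∀ P : MvPolynomial (Fin r) κ, MvPolynomial.aeval ξ (MvPolynomial.rename g P) =
        algebraMap K₀ L (MvPolynomial.aeval x P) := by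
    intro P
    rw [MvPolynomial.aeval_rename, ← MvPolynomial.aeval_algebraMap_apply (A := K₀) (B := L) x P]
    congr 2
    ext i
    exact ξg i
  have hgi : ∀ i, g i ≠ i₀ := fun i h => Fin.castSucc_ne_last _ h
  have hv : ∀ P : MvPolynomial (Fin r) κ, i₀ ∉ (MvPolynomial.rename g P).vars := by
    intro P hr
    have := MvPolynomial.vars_rename g P hr
    rw [Finset.mem_image] at this
    obtain ⟨j, -, hj⟩ := this
    exact hgi j hj
  have hi : i₁ ≠ i₀ := fun h => Fin.castSucc_ne_last _ h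
  -- generators
  have hgen' : IntermediateField.adjoin κ (Set.range ξ) = ⊤ := by
    set E := IntermediateField.adjoin κ (Set.range ξ) with hE
    have hmem : ∀ i, ξ i ∈ E := fun i => IntermediateField.subset_adjoin κ _ ⟨i, rfl⟩
    have hK : ∀ b : K₀, algebraMap K₀ L b ∈ E := by
      intro b
      have h1 : (⊤ : IntermediateField κ K₀) ≤ E.comap (IsScalarTower.toAlgHom κ K₀ L) := by
        rw [← hK₀, IntermediateField.adjoin_le_iff]
        rintro _ ⟨i, rfl⟩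
        show algebraMap K₀ L (x i) ∈ E
        rw [← ξg]
        exact hmem _
      exact h1 (IntermediateField.mem_top (x := b))
    have hw' : w ∈ E := by
      have h1 : B₁ * w ∈ E := by
        rw [← ξ0]
        exact hmem _
      have h2 : B₁ ∈ E := by
        rw [hB₁]
        exact hK _
      have h3 := div_mem h1 h2
      rwa [mul_div_cancel_left₀ _ hB₁0] at h3
    have ha' : a ∈ E := by
      have h1 : B₂ * a ∈ E := by
        rw [← ξ1]
        exact hmem _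
      have h2 : B₂ ∈ E := by
        rw [hB₂]
        exact hK _
      have h3 := div_mem h1 h2
      rwa [mul_div_cancel_left₀ _ hB₂0] at h3
    let E' : IntermediateField K₀ L :=
      { E.toSubfield with
        algebraMap_mem' := hK }
    have h1 : (⊤ : IntermediateField K₀ L) ≤ E' := by
      rw [← hgen, IntermediateField.adjoin_le_iff]
      rintro c (rfl | rfl)
      · exact ha'
      · exact hw'
    rw [eq_top_iff]
    intro b _
    exact h1 (IntermediateField.mem_top (x := b))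
  -- the transcendence degree
  have hEss : Algebra.EssFiniteType K₀ L := by
    rw [← IntermediateField.fg_top_iff, ← hgen]
    exact IntermediateField.fg_adjoin_of_finite (Set.toFinite _)
  have hfin : Algebra.trdeg K₀ L < Cardinal.aleph0 := trdeg_lt_aleph0 K₀ L
  have hadd' := trdeg_add_eq κ K₀ (A := L)
  have hfin₀ : Algebra.trdeg κ K₀ < Cardinal.aleph0 := by
    refine lt_of_le_of_lt (self_le_add_right _ 1) ?_
    rw [htd]
    exact Cardinal.natCast_lt_aleph0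
  have hfin' : Algebra.trdeg κ L < Cardinal.aleph0 := by
    rw [← hadd']
    exact Cardinal.add_lt_aleph0 hfin₀ hfin
  have h1' : (1 : Cardinal) ≤ Algebra.trdeg K₀ L := by
    rw [Cardinal.one_le_iff_ne_zero, trdeg_ne_zero_iff]
    exact ⟨a, ha⟩
  have hwr : ∀ (P : MvPolynomial (Fin r) κ) (n : ℕ), MvPolynomial.weightedTotalDegree ω P ≤ n →
      MvPolynomial.weightedTotalDegree Ω (MvPolynomial.rename g P) ≤ n := fun P n h =>
    wle_rename Ω g hg P _ (by rw [Ωg]; exact h)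
  refine uniruled_homX p ξ hgen' hfin' ?_ i₀ (MvPolynomial.rename g g₀) ?_ (hv g₀) ?_
    (MvPolynomial.rename g G₁) (MvPolynomial.rename g Q₁)
    (MvPolynomial.rename g f - MvPolynomial.rename g G₂ * MvPolynomial.X i₁ ^ e)
    (hv G₁) (hv Q₁) ?_ ?_ ?_ ?_ Ω d D τ₁ κ₁ (hwr _ _ h0) ?_ (hwr _ _ t1) (hwr _ _ t2) ?_ ?_ h5 ?_
  · rw [← hadd']
    push_cast
    rw [← htd, add_assoc, add_assoc, add_assoc]
    gcongr
    norm_num
  · intro h
    exact hg0 (MvPolynomial.rename_injective g hg (by rw [h, map_zero]))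
  · rw [hr, hg₀, map_zero]
  · intro h
    rcases Finset.mem_union.1 (MvPolynomial.vars_sub_subset _ h) with h | h
    · exact hv _ h
    · rcases Finset.mem_union.1 (MvPolynomial.vars_mul _ _ h) with h | h
      · exact hv _ h
      · have := MvPolynomial.vars_pow _ e h
        rw [MvPolynomial.vars_X, Finset.mem_singleton] at this
        exact hi this.symm
  · rw [hr, ← hA₁]
    exact hA₁0
  · rw [hr, ← hB₁]
    exact hB₁0
  · rw [map_sub, map_mul, map_pow, hr, hr, hr, hr, MvPolynomial.aeval_X, ← hA₁, ← hB₁, ← hA₂,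
      ← hw, ξ0, ξ1]
    have h7 : B₁ ^ (p - 1) * (B₁ * w) = B₁ ^ p * w := by
      rw [← mul_assoc, ← pow_succ]
      congr 2
      omega
    have h8 : A₂ * (B₂ * a) ^ e = A₁ * B₁ ^ p * a ^ e := by
      rw [mul_pow, ← mul_assoc, ← hE2, hE1]
    rw [h7, h8, hE1, mul_pow]
    ring
  · refine wle_sub _ _ _ _ (hwr _ _ h1) ((wle_mul _ _ _ _ _ (hwr _ _ t3)
      (wle_X_pow Ω i₁ e)).trans ?_)
    rw [Ω1]
    exact h2
  · rw [Ω0]
    exact h3
  · rw [Ω0]
    exact h4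
  · rw [hsum]
    exact h6

end Pool.Agent.ADH
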