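import Pool.Agent.ADT.C2
import Pool.Agent.ADH.X3

/-!
# Towers of Artin-Schreier extensions of a uniruled surface: general denominators
-/

set_option autoImplicit false

namespace Pool.Agent.ADH

open Polynomial Pool.Agent.TBR Pool.Agent.TUQ Pool.Agent.UQ Pool.Agent.WLD Pool.Agent.ADT

universe u

section

variable {k M : Type u} [Field k] [Field M] [Algebra k M]

/-- the families: `K₀ = E(x_1, …, x_r)`, `g(x) = 0`, `E / k` finitely generated of transcendence
degree `3 - r`, `z ^ p - z = f(x) / G(x)`, `G = G₁ Q₁ ^ p = G₂ Q₂ ^ e`, and the equations `g = 0`,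
`G₁ (Y ^ p - Q₁ ^ (p - 1) Y) + G₂ T ^ e = f`, where `Y = Q₁ w`, `T = Q₂ a`, have degrees at most
`d` and `D` for weights `ω` of the `x_i`, `α` of `T` and `γ` of `Y` whose sum is at least `d + D` -/
def FamX (K₀ : IntermediateField k M) (z : M) (p e : ℕ) : Prop :=
  ∃ (r : ℕ) (E : IntermediateField k M) (x : Fin r → M) (g f G₁ Q₁ G₂ Q₂ : MvPolynomial (Fin r) E)
    (ω : Fin r → ℕ) (α γ τ₁ κ₁ τ₂ d D : ℕ),
    E.FG ∧ K₀ = E ⊔ IntermediateField.adjoin k (Set.range x) ∧ Algebra.trdeg k E + r = 3 ∧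
      g ≠ 0 ∧ MvPolynomial.aeval x g = 0 ∧ G₁ * Q₁ ^ p = G₂ * Q₂ ^ e ∧
      MvPolynomial.aeval x (G₁ * Q₁ ^ p) ≠ 0 ∧
      (z ^ p - z) * MvPolynomial.aeval x (G₁ * Q₁ ^ p) = MvPolynomial.aeval x f ∧
      MvPolynomial.weightedTotalDegree ω g ≤ d ∧
      MvPolynomial.weightedTotalDegree ω f ≤ D ∧ MvPolynomial.weightedTotalDegree ω G₁ ≤ τ₁ ∧
      MvPolynomial.weightedTotalDegree ω Q₁ ≤ κ₁ ∧ MvPolynomial.weightedTotalDegree ω G₂ ≤ τ₂ ∧
      τ₂ + e * α ≤ D ∧ τ₁ + p * γ ≤ D ∧ τ₁ + (p - 1) * κ₁ + γ ≤ D ∧ τ₁ + p * κ₁ + 1 ≤ D ∧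
      d + D ≤ ∑ i, ω i + α + γ

/-- the threefolds of the families are uniruled -/
theorem uniruled_famX [IsAlgClosed M] (p : ℕ) [Fact p.Prime] [CharP k p]
    (K₀ : IntermediateField k M)
    (htd : Algebra.trdeg k M = 2) (hal : ∀ x : M, IsAlgebraic K₀ x) (e : ℕ) (he : 2 ≤ e)
    (z : M) (zN : aeval z (X ^ p - X : k[X]) ∈ K₀)
    (L : Type u) [Field L] [Algebra k L] [Algebra K₀ L] [IsScalarTower k K₀ L] (a w : L)
    (ha : Transcendental K₀ a)
    (hw : aeval w (X ^ p - X : k[X]) + a ^ e = algebraMap K₀ L ⟨aeval z (X ^ p - X : k[X]), zN⟩)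
    (hgen : IntermediateField.adjoin K₀ {a, w} = ⊤) (hF : FamX K₀ z p e) : Uniruled k L := by
  obtain ⟨r, E, x, g, f, G₁, Q₁, G₂, Q₂, ω, α, γ, τ₁, κ₁, τ₂, d, D, hEfg, hK₀, htr, hg0, hg, hGG,
    hq, hzf, h0, h1, t1, t2, t3, h2, h3, h4, h5', h6'⟩ := hF
  have haev : ∀ {A : Type u} [CommRing A] [Algebra k A] (b : A),
      aeval b (X ^ p - X : k[X]) = b ^ p - b := fun b => by
    rw [map_sub, map_pow, aeval_X]
  have hEC : CharP E p := charP_of_injective_algebraMap (algebraMap k E).injective p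
  have hle : E ≤ K₀ := by
    rw [hK₀]
    exact le_sup_left
  have hxK : ∀ i, x i ∈ K₀ := fun i => by
    rw [hK₀]
    exact (le_sup_right : IntermediateField.adjoin k (Set.range x) ≤ _)
      (IntermediateField.subset_adjoin _ _ ⟨i, rfl⟩)
  let ι : E →ₐ[k] K₀ := IntermediateField.inclusion hle
  let algE : Algebra E K₀ := ι.toRingHom.toAlgebra
  let algL : Algebra E L := ((algebraMap K₀ L).comp ι.toRingHom).toAlgebra
  have tow1 : IsScalarTower E K₀ L := IsScalarTower.of_algebraMap_eq (fun _ => rfl)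
  have tow2 : IsScalarTower k E K₀ := IsScalarTower.of_algebraMap_eq (fun b => (ι.commutes b).symm)
  have tow3 : IsScalarTower k E L := IsScalarTower.of_algebraMap_eq (fun b => by
    rw [IsScalarTower.algebraMap_apply k K₀ L, ← ι.commutes b]
    rfl)
  have tow4 : IsScalarTower E K₀ M := IsScalarTower.of_algebraMap_eq (fun _ => rfl)
  let ξ : Fin r → K₀ := fun i => ⟨x i, hxK i⟩
  have hval : ∀ P : MvPolynomial (Fin r) E, ((MvPolynomial.aeval ξ P : K₀) : M) =
      MvPolynomial.aeval x P := fun P =>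
    (MvPolynomial.aeval_algebraMap_apply (A := K₀) (B := M) ξ P).symm
  have hgen₀ : IntermediateField.adjoin E (Set.range ξ) = ⊤ := by
    rw [eq_top_iff]
    intro b _
    let N' : IntermediateField k M :=
      ((IntermediateField.adjoin E (Set.range ξ)).restrictScalars k).map K₀.val
    have hE : E ≤ N' := fun c hc => ⟨⟨c, hle hc⟩,
      (IntermediateField.adjoin E (Set.range ξ)).algebraMap_mem ⟨c, hc⟩, rfl⟩
    have hx : IntermediateField.adjoin k (Set.range x) ≤ N' := by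
      rw [IntermediateField.adjoin_le_iff]
      rintro _ ⟨i, rfl⟩
      exact ⟨ξ i, IntermediateField.subset_adjoin E _ ⟨i, rfl⟩, rfl⟩
    have hb : (b : M) ∈ E ⊔ IntermediateField.adjoin k (Set.range x) := by
      rw [← hK₀]
      exact b.2
    obtain ⟨c, hc, hcb⟩ := (sup_le hE hx) hb
    have e : c = b := Subtype.ext hcb
    rw [← e]
    exact hc
  have htd₀ : Algebra.trdeg k K₀ = 2 := by
    have h1 : Algebra.IsAlgebraic K₀ M := ⟨hal⟩
    have h3 := trdeg_add_eq k K₀ (A := M)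
    rwa [trdeg_eq_zero_iff.2 h1, add_zero, htd] at h3
  have hlt : (2 : Cardinal.{u}) < Cardinal.aleph0 := by
    exact_mod_cast Cardinal.natCast_lt_aleph0 (n := 2)
  have h5 := trdeg_add_eq k E (A := K₀)
  rw [htd₀] at h5
  have hE2 : Algebra.trdeg k E ≤ 2 := by
    rw [← h5]
    exact self_le_add_right _ _
  have htdE : Algebra.trdeg E K₀ + 1 = r := by
    have h6 : Algebra.trdeg k E + (Algebra.trdeg E K₀ + 1) = Algebra.trdeg k E + r := by
      rw [htr, ← add_assoc, h5]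
      norm_num
    exact Cardinal.eq_of_add_eq_add_left h6 (hE2.trans_lt hlt)
  have hEfg' : (⊤ : IntermediateField k E).FG := by
    rw [IntermediateField.fg_top_iff]
    exact IntermediateField.essFiniteType_iff.2 hEfg
  have hq' : MvPolynomial.aeval ξ (G₁ * Q₁ ^ p) ≠ 0 := by
    intro h
    apply hq
    rw [← hval, h]
    rfl
  have hg' : MvPolynomial.aeval ξ g = 0 := by
    apply Subtype.ext
    rw [hval, hg]
    rfl
  have hw' : (w ^ p - w + a ^ e) *
      algebraMap K₀ L (MvPolynomial.aeval ξ (G₁ * Q₁ ^ p)) =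
      algebraMap K₀ L (MvPolynomial.aeval ξ f) := by
    rw [← haev w, hw, ← map_mul]
    congr 1
    apply Subtype.ext
    show aeval z (X ^ p - X : k[X]) * ((MvPolynomial.aeval ξ (G₁ * Q₁ ^ p) : K₀) : M) =
      ((MvPolynomial.aeval ξ f : K₀) : M)
    rw [hval, hval, haev, hzf]
  exact Uniruled.tower (E := E) hEfg' (fam_uniX (κ := E) p e he ξ hgen₀ htdE g hg0 hg' f
    G₁ Q₁ G₂ Q₂ hGG hq' a w ha hw' hgen ω α γ τ₁ κ₁ τ₂ d D h0 h1 t1 t2 t3 h2 h3 h4 h5' h6')


theorem FamX.emt [IsAlgClosed M] (p : ℕ) [Fact p.Prime] [CharP k p]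
    (K₀ : IntermediateField k M) (htd : Algebra.trdeg k M = 2)
    (hal : ∀ x : M, IsAlgebraic K₀ x) (e : ℕ) (he : 2 ≤ e) (hek : (e : k) ≠ 0)
    (z : M) (h : FamX K₀ z p e) : Emt K₀ := by
  obtain ⟨r, E, x, g, f, G₁, Q₁, G₂, Q₂, ω, α, γ, τ₁, κ₁, τ₂, d, D, hEfg, hK₀, htr, hg0, hg, -, -,
    -, h0, -, -, -, -, h2, h3, -, h5, h6⟩ := h
  refine emt_hyper htd E hEfg x htr K₀ hK₀ hal g hg0 hg ω (lt_of_le_of_lt h0 ?_)
  refine num_lt (Fact.out : p.Prime).two_le he ?_ ((Nat.le_add_left 1 _).trans h5)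
    ((Nat.le_add_left _ _).trans h2) ((Nat.le_add_left _ _).trans h3) h6
  rintro rfl
  exact hek (CharP.cast_eq_zero k e)

/-- the cyclic case -/
theorem emt_cyclicX [IsAlgClosed M] (p : ℕ) [Fact p.Prime] [CharP k p]
    (K₀ : IntermediateField k M) (hfg : K₀.FG) (htd : Algebra.trdeg k M = 2)
    (hal : ∀ x : M, IsAlgebraic K₀ x) (e : ℕ) (he : 2 ≤ e) (hek : (e : k) ≠ 0)
    (z : M) (zN : aeval z (X ^ p - X : k[X]) ∈ K₀) (h : FamX K₀ z p e) :
    Emt (K₀ ⊔ IntermediateField.adjoin k {z}) := by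
  have had := ad_artin (k := k) p e he hek
  have hsp : Emt K₀ := h.emt p K₀ htd hal e he hek z
  by_cases hz : z ∈ K₀
  · have h1 : K₀ ⊔ IntermediateField.adjoin k {z} = K₀ := by
      refine sup_eq_left.2 ?_
      rw [IntermediateField.adjoin_le_iff]
      rintro y rfl
      exact hz
    rw [h1]
    exact hsp
  obtain ⟨L, i1, i2, i3, i4, a, w, ha, hw, hgen⟩ := fam_exists (X ^ p - X : k[X]) e had
    (⟨aeval z (X ^ p - X : k[X]), zN⟩ : K₀)
  obtain ⟨n, L', h1, h2⟩ := finalW (fun Ω _ _ => blockR k Ω) (fun Ω _ _ => blockGW k Ω)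
    (fun A _ _ => invSt_aux k A) K₀ hfg htd hal (X ^ p - X) e had z zN
    (irr_of_notMem p K₀ z hz zN) L a w ha hw hgen
    (uniruled_famX p K₀ htd hal e he z zN L a w ha hw hgen h)
  refine emt_of_inj (K' := KZ K₀ z) (fun ℓ _ => ⟨MonoidHom.id _, Function.injective_id⟩) L' h2
    fun j => ?_
  rcases (h1 j).1 with h3 | h3
  · exact emt_two h3 (h1 j).2
  · rw [h3]
    exact hsp

/-- **Towers.** -/
theorem tower_injX [IsAlgClosed M] (p : ℕ) [Fact p.Prime] [CharP k p]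
    (htd : Algebra.trdeg k M = 2) (x : Fin 3 → M)
    (hal : ∀ y : M, IsAlgebraic (IntermediateField.adjoin k (Set.range x)) y)
    (g G₁ Q₁ G₂ Q₂ : MvPolynomial (Fin 3) k) (hg0 : g ≠ 0) (hg : MvPolynomial.aeval x g = 0)
    (ω : Fin 3 → ℕ) (e α γ τ₁ κ₁ τ₂ d D : ℕ) (he : 2 ≤ e) (hek : (e : k) ≠ 0)
    (hG : G₁ * Q₁ ^ p = G₂ * Q₂ ^ e) (hG0 : MvPolynomial.aeval x (G₁ * Q₁ ^ p) ≠ 0)
    (h0 : MvPolynomial.weightedTotalDegree ω g ≤ d)
    (t1 : MvPolynomial.weightedTotalDegree ω G₁ ≤ τ₁)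
    (t2 : MvPolynomial.weightedTotalDegree ω Q₁ ≤ κ₁)
    (t3 : MvPolynomial.weightedTotalDegree ω G₂ ≤ τ₂)
    (h1 : τ₂ + e * α ≤ D) (h2 : τ₁ + p * γ ≤ D) (h3 : τ₁ + (p - 1) * κ₁ + γ ≤ D)
    (h4 : τ₁ + p * κ₁ + 1 ≤ D) (h5 : d + D ≤ ω 0 + ω 1 + ω 2 + α + γ) (S : Finset M)
    (hS : ∀ z ∈ S, ∃ (φ : k[X]) (f : MvPolynomial (Fin 3) k), AddPoly φ ∧ derivative φ ≠ 0 ∧
      MvPolynomial.weightedTotalDegree ω f ≤ D ∧
        aeval z φ * MvPolynomial.aeval x (G₁ * Q₁ ^ p) = MvPolynomial.aeval x f)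
    (F : IntermediateField k M)
    (hF : F ≤ IntermediateField.adjoin k (Set.range x ∪ (S : Set M)))
    (hFal : ∀ y : M, IsAlgebraic F y) : Emt F := by
  classical
  have hCM : CharP M p := charP_of_injective_algebraMap (algebraMap k M).injective p
  obtain ⟨q, hqdef⟩ : ∃ q, q = G₁ * Q₁ ^ p := ⟨_, rfl⟩
  have hq : MvPolynomial.aeval x q ≠ 0 := by rw [hqdef]; exact hG0
  have hS' : ∀ z ∈ S, ∃ (φ : k[X]) (f : MvPolynomial (Fin 3) k), AddPoly φ ∧
      derivative φ ≠ 0 ∧ MvPolynomial.weightedTotalDegree ω f ≤ D ∧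
        aeval z φ * MvPolynomial.aeval x q ^ 1 = MvPolynomial.aeval x f := by
    intro z hz
    obtain ⟨φ, f, a1, a2, a3, a4⟩ := hS z hz
    exact ⟨φ, f, a1, a2, a3, by rw [pow_one, hqdef]; exact a4⟩
  obtain ⟨C₀, r, y, hC₀, hy, hz⟩ := exists_span p x q hq ω 1 D S hS'
  choose f hf hfy using hy
  obtain ⟨E, hE⟩ : ∃ E, E = IntermediateField.adjoin k (C₀ : Set M) := ⟨_, rfl⟩
  rw [← hE] at hz
  subst hE
  have hxfg : (IntermediateField.adjoin k (Set.range x) : IntermediateField k M).FG :=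
    ⟨Finset.univ.image x, by rw [Finset.coe_image, Finset.coe_univ, Set.image_univ]⟩
  have hyfg : (IntermediateField.adjoin k (Set.range y) : IntermediateField k M).FG :=
    ⟨Finset.univ.image y, by rw [Finset.coe_image, Finset.coe_univ, Set.image_univ]⟩
  have hEfg : (IntermediateField.adjoin k (C₀ : Set M)).FG := ⟨C₀, rfl⟩
  have hEalg : Algebra.IsAlgebraic k (IntermediateField.adjoin k (C₀ : Set M)) :=
    IntermediateField.isAlgebraic_adjoin fun c hc => (hC₀ c hc).isIntegral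
  have hEtd : Algebra.trdeg k (IntermediateField.adjoin k (C₀ : Set M)) = 0 :=
    trdeg_eq_zero_iff.2 hEalg
  obtain ⟨K₀, hK₀⟩ : ∃ K₀, K₀ = IntermediateField.adjoin k (C₀ : Set M) ⊔
    IntermediateField.adjoin k (Set.range x) := ⟨_, rfl⟩
  have hK₀fg : K₀.FG := by
    rw [hK₀]
    exact IntermediateField.fg_sup hEfg hxfg
  have hxK₀ : IntermediateField.adjoin k (Set.range x) ≤ K₀ := by
    rw [hK₀]
    exact le_sup_right
  have hK₀al : ∀ y : M, IsAlgebraic K₀ y := fun y => alg_le hxK₀ (hal y)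
  have hmap : ∀ P : MvPolynomial (Fin 3) k, MvPolynomial.aeval x (MvPolynomial.map (algebraMap k
      (IntermediateField.adjoin k (C₀ : Set M))) P) = MvPolynomial.aeval x P := fun P =>
    MvPolynomial.aeval_map_algebraMap _ x P
  have hqE := hmap q
  have hgE : MvPolynomial.aeval x (MvPolynomial.map (algebraMap k
      (IntermediateField.adjoin k (C₀ : Set M))) g) = 0 :=
    (MvPolynomial.aeval_map_algebraMap _ x g).trans hg
  have hgE0 : MvPolynomial.map (algebraMap k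
      (IntermediateField.adjoin k (C₀ : Set M))) g ≠ 0 := by
    intro h
    exact hg0 (MvPolynomial.map_injective _ (algebraMap k _).injective (by rw [h, map_zero]))
  have hmw : ∀ (P : MvPolynomial (Fin 3) k) (n : ℕ), MvPolynomial.weightedTotalDegree ω P ≤ n →
      MvPolynomial.weightedTotalDegree ω (MvPolynomial.map (algebraMap k
        (IntermediateField.adjoin k (C₀ : Set M))) P) ≤ n := by
    intro P n hP
    rw [wtd_le_iff]
    intro m hm
    exact (wtd_le_iff ω P _).1 hP m (MvPolynomial.support_map_subset _ _ hm)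
  have hqK₀ : MvPolynomial.aeval x q ∈ K₀ := by
    rw [hK₀, ← hqE]
    exact aeval_mem_sup _ x _
  have hyK₀ : ∀ i, y i ^ p - y i ∈ K₀ := by
    intro i
    have h7 : y i ^ p - y i = MvPolynomial.aeval x (f i) / MvPolynomial.aeval x q ^ 1 := by
      rw [eq_div_iff (pow_ne_zero _ hq), hfy i]
    rw [h7]
    refine div_mem ?_ (pow_mem hqK₀ _)
    rw [hK₀]
    exact aeval_mem_sup _ x _
  -- the big field
  have hK'fg : (K₀ ⊔ IntermediateField.adjoin k (Set.range y) : IntermediateField k M).FG :=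
    IntermediateField.fg_sup hK₀fg hyfg
  have hFK' : F ≤ K₀ ⊔ IntermediateField.adjoin k (Set.range y) := by
    refine hF.trans ?_
    rw [IntermediateField.adjoin_le_iff]
    rintro u (hu | hu)
    · exact (le_sup_left : K₀ ≤ _) (hxK₀ (IntermediateField.subset_adjoin _ _ hu))
    · rw [hK₀]
      exact hz u hu
  refine emt_of_inj (K' := K₀ ⊔ IntermediateField.adjoin k (Set.range y)) (ι := Fin r → ZMod p)
    (fun ℓ hℓ => vl_res F _ hFK' hK'fg hFal hℓ) _
    (fun ℓ hℓ _ => ea_inj K₀ hK₀fg hK₀al p y hyK₀ hℓ) fun c => ?_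
  -- the cyclic case
  show Emt (K₀ ⊔ IntermediateField.adjoin k {∑ i, ((c i).val : M) * y i})
  have hY := comb_eq p (fun i => (c i).val) y
  set Y := ∑ i, ((c i).val : M) * y i with hYdef
  have hYa : aeval Y (X ^ p - X : k[X]) = Y ^ p - Y := by
    rw [map_sub, map_pow, aeval_X]
  have hYK₀ : aeval Y (X ^ p - X : k[X]) ∈ K₀ := by
    rw [hYa, hY]
    exact sum_mem fun i _ => mul_mem (natCast_mem K₀ _) (hyK₀ i)
  refine emt_cyclicX p K₀ hK₀fg htd hK₀al e he hek Y hYK₀ ?_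
  have hGE : MvPolynomial.map (algebraMap k (IntermediateField.adjoin k (C₀ : Set M))) G₁ *
      MvPolynomial.map (algebraMap k (IntermediateField.adjoin k (C₀ : Set M))) Q₁ ^ p =
      MvPolynomial.map (algebraMap k (IntermediateField.adjoin k (C₀ : Set M))) q := by
    rw [hqdef, map_mul, map_pow]
  refine ⟨3, IntermediateField.adjoin k (C₀ : Set M), x, MvPolynomial.map (algebraMap k _) g,
    ∑ i, ((c i).val : IntermediateField.adjoin k (C₀ : Set M)) • f i,
    MvPolynomial.map (algebraMap k _) G₁, MvPolynomial.map (algebraMap k _) Q₁,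
    MvPolynomial.map (algebraMap k _) G₂, MvPolynomial.map (algebraMap k _) Q₂,
    ω, α, γ, τ₁, κ₁, τ₂, d, D, hEfg, hK₀, ?_, hgE0, hgE, ?_, ?_, ?_, hmw _ _ h0,
    ?_, hmw _ _ t1, hmw _ _ t2, hmw _ _ t3, h1, h2, h3, h4, ?_⟩
  · rw [hEtd]
    norm_num
  · rw [← map_pow, ← map_mul, hG, map_mul, map_pow]
  · rw [hGE, hqE]
    exact hq
  · rw [hGE, hY, hqE, map_sum, Finset.sum_mul]
    refine Finset.sum_congr rfl fun i _ => ?_
    have h7 := hfy i
    rw [pow_one] at h7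
    rw [mul_assoc, h7, map_smul, Algebra.smul_def, map_natCast]
  · rw [wtd_le_iff]
    intro d hd
    obtain ⟨i, -, hi⟩ := Finset.mem_biUnion.1 (MvPolynomial.support_sum hd)
    exact (wtd_le_iff ω (f i) D).1 (hf i) d (MvPolynomial.support_smul hi)
  · rw [Fin.sum_univ_three]
    exact h5

end

end Pool.Agent.ADH
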