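import Pool.Agent.WLD.EA4
import Pool.Agent.WLD.W11s
import Pool.Agent.KTW.D
import Pool.Agent.ADH.X4

/-!
# The two cases of the theorem on Artin-Schreier quotients
-/

set_option autoImplicit false

namespace Pool.Agent.ADH

open Polynomial Pool.Agent.TBR Pool.Agent.TUQ Pool.Agent.UQ Pool.Agent.WLD Pool.Agent.ADT

universe u

section

variable {k M : Type u} [Field k] [Field M] [Algebra k M]

/-- Case (i): `S = {z}`, `φ` is an additive separable polynomial of degree more than one over `k`,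
`φ(z) ∈ K₀`, `φ(X) - φ(z)` is irreducible over `K₀`, and the threefold `φ(w) + a ^ e = φ(z)` over
`K₀` is uniruled. -/
def CaseU (K₀ : IntermediateField k M) (S : Finset M) (e : ℕ) : Prop :=
  ∃ (φ : k[X]) (z : M) (zN : aeval z φ ∈ K₀) (L : Type u) (_ : Field L) (_ : Algebra k L)
    (_ : Algebra K₀ L) (_ : IsScalarTower k K₀ L) (a w : L), (S : Set M) = {z} ∧ Ad φ e ∧
      Irreducible (φ.map (algebraMap k K₀) - C (⟨aeval z φ, zN⟩ : K₀)) ∧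
      Transcendental K₀ a ∧ aeval w φ + a ^ e = algebraMap K₀ L ⟨aeval z φ, zN⟩ ∧
      IntermediateField.adjoin K₀ {a, w} = ⊤ ∧ Uniruled k L

/-- Case (ii): `K₀ = k(x₀, x₁, x₂)`, `g(x) = 0` for a nonzero polynomial `g`, and every `z ∈ S` is a
solution of `φ(z) = f(x) / G(x)` for an additive separable polynomial `φ` and a polynomial `f`
over `k`, which may depend on `z`, and a fixed polynomial `G = G₁ Q₁ ^ p = G₂ Q₂ ^ e`. For some
weights `ω` of the `x_i` the degrees are restricted by `wt f ≤ D`, `wt G < D` and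
`(1 - 1 / e - 1 / p) D + wt G₁ / p + wt G₂ / e ≤ wt x₀ + wt x₁ + wt x₂ - wt g`. -/
def CaseG (p : ℕ) (K₀ : IntermediateField k M) (S : Finset M) (e : ℕ) : Prop :=
  ∃ (x : Fin 3 → M) (g G G₁ Q₁ G₂ Q₂ : MvPolynomial (Fin 3) k) (ω : Fin 3 → ℕ) (D : ℕ),
    K₀ = IntermediateField.adjoin k (Set.range x) ∧ g ≠ 0 ∧ MvPolynomial.aeval x g = 0 ∧
      G = G₁ * Q₁ ^ p ∧ G = G₂ * Q₂ ^ e ∧ MvPolynomial.aeval x G ≠ 0 ∧
      MvPolynomial.weightedTotalDegree ω G < D ∧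
      e * p * (MvPolynomial.weightedTotalDegree ω g + D) +
          e * MvPolynomial.weightedTotalDegree ω G₁ + p * MvPolynomial.weightedTotalDegree ω G₂ ≤
        e * p * (ω 0 + ω 1 + ω 2) + (e + p) * D ∧
      ∀ z ∈ S, ∃ (φ : k[X]) (f : MvPolynomial (Fin 3) k), AddPoly φ ∧ derivative φ ≠ 0 ∧
        MvPolynomial.weightedTotalDegree ω f ≤ D ∧
          aeval z φ * MvPolynomial.aeval x G = MvPolynomial.aeval x f

theorem weight_scale {n : ℕ} (c : ℕ) (ω : Fin n → ℕ) (d : Fin n →₀ ℕ) :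
    Finsupp.weight (fun i => c * ω i) d = c * Finsupp.weight ω d := by
  rw [Finsupp.weight_apply, Finsupp.weight_apply, Finsupp.sum, Finsupp.sum, Finset.mul_sum]
  refine Finset.sum_congr rfl fun i _ => ?_
  rw [smul_eq_mul, smul_eq_mul]
  ring

theorem wtd_scale {n : ℕ} (c : ℕ) (ω : Fin n → ℕ)
    (f : MvPolynomial (Fin n) k) {D : ℕ} (h : MvPolynomial.weightedTotalDegree ω f ≤ D) :
    MvPolynomial.weightedTotalDegree (fun i => c * ω i) f ≤ c * D := by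
  rw [wtd_le_iff] at h ⊢
  intro d hd
  rw [weight_scale]
  exact Nat.mul_le_mul_left c (h d hd)

theorem CaseG.emt [IsAlgClosed M] {p : ℕ} [Fact p.Prime] [CharP k p]
    (htd : Algebra.trdeg k M = 2) {K₀ : IntermediateField k M}
    (hal : ∀ x : M, IsAlgebraic K₀ x) {e : ℕ} (he : 2 ≤ e) (hek : (e : k) ≠ 0) {S : Finset M}
    (h : CaseG p K₀ S e) (F : IntermediateField k M)
    (hF : F ≤ K₀ ⊔ IntermediateField.adjoin k (S : Set M)) (hFal : ∀ x : M, IsAlgebraic F x) :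
    Emt F := by
  obtain ⟨x, g, G, G₁, Q₁, G₂, Q₂, ω, D, rfl, hg0, hg, hG1, hG2, hG, h1, h2, h3⟩ := h
  rw [← IntermediateField.adjoin_union] at hF
  have hp : 2 ≤ p := (Fact.out : p.Prime).two_le
  have hG0 : G ≠ 0 := by
    rintro rfl
    exact hG (map_zero _)
  obtain ⟨d, hd⟩ : ∃ d, d = MvPolynomial.weightedTotalDegree ω g := ⟨_, rfl⟩
  obtain ⟨τ₁, ht1⟩ : ∃ d, d = MvPolynomial.weightedTotalDegree ω G₁ := ⟨_, rfl⟩
  obtain ⟨κ₁, hk1⟩ : ∃ d, d = MvPolynomial.weightedTotalDegree ω Q₁ := ⟨_, rfl⟩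
  obtain ⟨τ₂, ht2⟩ : ∃ d, d = MvPolynomial.weightedTotalDegree ω G₂ := ⟨_, rfl⟩
  obtain ⟨κ₂, hk2⟩ : ∃ d, d = MvPolynomial.weightedTotalDegree ω Q₂ := ⟨_, rfl⟩
  have e1 : MvPolynomial.weightedTotalDegree ω G = τ₁ + p * κ₁ := by
    rw [hG1, KTW.wtd_mul_eq ω (left_ne_zero_of_mul (hG1 ▸ hG0))
      (right_ne_zero_of_mul (hG1 ▸ hG0)), KTW.wtd_pow_eq, ← ht1, ← hk1]
  have e2 : MvPolynomial.weightedTotalDegree ω G = τ₂ + e * κ₂ := by
    rw [hG2, KTW.wtd_mul_eq ω (left_ne_zero_of_mul (hG2 ▸ hG0))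
      (right_ne_zero_of_mul (hG2 ▸ hG0)), KTW.wtd_pow_eq, ← ht2, ← hk2]
  rw [← hd, ← ht1, ← ht2] at h2
  rw [e1] at h1
  obtain ⟨c, hc⟩ : ∃ c, τ₁ + p * κ₁ + 1 + c = D := ⟨D - (τ₁ + p * κ₁ + 1), by omega⟩
  obtain ⟨a, ha⟩ : ∃ a, τ₂ + a = D := ⟨D - τ₂, by omega⟩
  obtain ⟨b, hb⟩ : ∃ b, τ₁ + b = D := ⟨D - τ₁, by omega⟩
  refine tower_injX p htd x hal g G₁ Q₁ G₂ Q₂ hg0 hg (fun i => e * p * ω i) e (p * a) (e * b)
    (e * p * τ₁) (e * p * κ₁) (e * p * τ₂) (e * p * d) (e * p * D) he hek (hG1.symm.trans hG2)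
    (hG1 ▸ hG) (wtd_scale _ ω g hd.ge) (wtd_scale _ ω G₁ ht1.ge) (wtd_scale _ ω Q₁ hk1.ge)
    (wtd_scale _ ω G₂ ht2.ge) ?_ ?_ ?_ ?_ ?_ S ?_ F hF hFal
  · exact le_of_eq (by rw [← ha]; ring)
  · exact le_of_eq (by rw [← hb]; ring)
  · obtain ⟨r, hr⟩ : ∃ r, p = r + 1 := ⟨p - 1, by omega⟩
    have hb' : b = p * κ₁ + 1 + c := by omega
    have h5 : e * p * D = e * p * τ₁ + (p - 1) * (e * p * κ₁) + e * b + e * r * (1 + c) := by
      rw [← hb, hb', hr, Nat.add_sub_cancel]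
      ring
    rw [h5]
    exact Nat.le_add_right _ _
  · have h5 : 1 ≤ e * p * (1 + c) := Nat.mul_pos (Nat.mul_pos (by omega) (by omega)) (by omega)
    calc e * p * τ₁ + p * (e * p * κ₁) + 1 ≤ e * p * τ₁ + p * (e * p * κ₁) + e * p * (1 + c) :=
          Nat.add_le_add_left h5 _
      _ = e * p * D := by
          rw [← hc]
          ring
  · show e * p * d + e * p * D ≤ e * p * ω 0 + e * p * ω 1 + e * p * ω 2 + p * a + e * b
    have h5 : p * D = p * τ₂ + p * a := by rw [← ha]; ring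
    have h6 : e * D = e * τ₁ + e * b := by rw [← hb]; ring
    linarith
  · intro z hz
    obtain ⟨φ, f, h7, h8, h9, h10⟩ := h3 z hz
    exact ⟨φ, f, h7, h8, wtd_scale _ ω f h9, by rw [← hG1]; exact h10⟩

/-- the theorem without the theorem of Tate -/
theorem cases_hom [IsAlgClosed M] (p : ℕ) [Fact p.Prime] [CharP k p]
    (htd : Algebra.trdeg k M = 2) (K₀ : IntermediateField k M) (hfg : K₀.FG)
    (hal : ∀ x : M, IsAlgebraic K₀ x) (e : ℕ) (he : 2 ≤ e) (hek : (e : k) ≠ 0) (S : Finset M)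
    (h : CaseU K₀ S e ∨ CaseG p K₀ S e) (F : IntermediateField k M)
    (hF : F ≤ K₀ ⊔ IntermediateField.adjoin k (S : Set M)) (hFal : ∀ x : M, IsAlgebraic F x) :
    ∃ (n : ℕ) (L : Fin n → IntermediateField k M),
      (∀ j, GoodW K₀ (L j) ∧ ∀ x : M, IsAlgebraic (L j) x) ∧
      ∀ ℓ : ℕ, ℓ.Prime → (ℓ : k) ≠ 0 →
        ∃ f : Vl k F M ℓ →* (∀ j, Vl k (L j) M ℓ), Function.Injective f := by
  rcases h with ⟨φ, z, zN, L, _, _, _, _, a, w, hS, had, irr, ha, hw, hgen, hL⟩ | h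
  · obtain ⟨n, L', h1, h2⟩ := finalW (fun Ω _ _ => blockR k Ω) (fun Ω _ _ => blockGW k Ω)
      (fun A _ _ => invSt_aux k A) K₀ hfg htd hal φ e had z zN irr L a w ha hw hgen hL
    rw [hS] at hF
    have hKfg : (KZ K₀ z).FG := IntermediateField.fg_sup hfg ⟨{z}, by rw [Finset.coe_singleton]⟩
    refine ⟨n, L', h1, fun ℓ hℓ hk => ?_⟩
    obtain ⟨a, ha⟩ := vl_res F (KZ K₀ z) hF hKfg hFal hℓ
    obtain ⟨f, hf⟩ := h2 ℓ hℓ hk
    exact ⟨f.comp a, fun x y hxy => ha (hf hxy)⟩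
  · obtain ⟨n, L, h5, h6⟩ := h.emt htd hal he hek F hF hFal
    exact ⟨n, L, fun j => ⟨Or.inl (h5 j).1, (h5 j).2⟩, h6⟩

end

end Pool.Agent.ADH
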