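import Pool.Agent.ADH.T9b

/-!
# Kummer extensions of characteristic `p` of rational surfaces

The group `V_ℓ` of `K₀(z)`, `z ^ N = (G / q ^ m) ^ p + H / q ^ p`.
-/

set_option autoImplicit false

namespace Pool.Agent.ADH

open Polynomial Pool.Agent.TBR Pool.Agent.TUQ Pool.Agent.UQ Pool.Agent.WLD Pool.Agent.ADT
  Pool.Agent.KTW

universe u

variable {k M : Type u} [Field k] [Field M] [Algebra k M]

theorem exists_inv_mod (p : ℕ) [Fact p.Prime] [CharP k p] (N : ℕ) (hN : (N : k) ≠ 0) :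
    ∃ n : ℕ, ((N * n : ℕ) : k) = 1 := by
  have hc : Nat.Coprime N p := by
    rw [Nat.coprime_comm, Nat.Prime.coprime_iff_not_dvd Fact.out]
    intro h
    exact hN ((CharP.cast_eq_zero_iff k p N).2 h)
  obtain ⟨n, -, hn⟩ := Nat.exists_mul_mod_eq_one_of_coprime hc (Fact.out : p.Prime).one_lt
  refine ⟨n, ?_⟩
  have h1 : ((N * n : ℕ) : k) = ((N * n % p : ℕ) : k) := by
    conv_lhs => rw [← Nat.div_add_mod (N * n) p]
    push_cast
    rw [CharP.cast_eq_zero, zero_mul, zero_add]
  rw [h1, hn, Nat.cast_one]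

/-- **Kummer extensions of characteristic `p`.** -/
theorem emt_P [IsAlgClosed M] (p : ℕ) [Fact p.Prime] [CharP k p] (hp3 : 3 ≤ p)
    (htd : Algebra.trdeg k M = 2) (x : Fin 3 → M)
    (hal : ∀ y : M, IsAlgebraic (IntermediateField.adjoin k (Set.range x)) y)
    (g G H q : MvPolynomial (Fin 3) k) (hg0 : g ≠ 0) (hg : MvPolynomial.aeval x g = 0)
    (hq : MvPolynomial.aeval x q ≠ 0) (N m : ℕ) (hN : (N : k) ≠ 0) (hm : 1 ≤ m) (hmp : m ≤ p)
    (z : M) (z0 : z ≠ 0) (zN : z ^ N ∈ IntermediateField.adjoin k (Set.range x))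
    (irr : Irreducible (X ^ N - C (⟨z ^ N, zN⟩ : IntermediateField.adjoin k (Set.range x))))
    (hF : z ^ N * MvPolynomial.aeval x q ^ (p * m) =
      MvPolynomial.aeval x G ^ p + MvPolynomial.aeval x q ^ (p * (m - 1)) * MvPolynomial.aeval x H)
    (ω : Fin 3 → ℕ) (υ γ τ d D : ℕ)
    (h0 : MvPolynomial.weightedTotalDegree ω g ≤ d)
    (hτ : MvPolynomial.weightedTotalDegree ω q ≤ τ)
    (hG : (p - m) * τ + N * (p - 1) * υ + MvPolynomial.weightedTotalDegree ω G ≤ D)
    (hH : MvPolynomial.weightedTotalDegree ω H ≤ D) (hγ : p * γ ≤ D)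
    (hQ : (p - 1) * (τ + N * υ) + γ ≤ D) (hQ' : p * (τ + N * υ) + 1 ≤ D)
    (h6 : d + D ≤ ω 0 + ω 1 + ω 2 + υ + γ)
    (hE : Emt (IntermediateField.adjoin k (Set.range x))) :
    Emt (IntermediateField.adjoin k (Set.range x) ⊔ IntermediateField.adjoin k {z}) := by
  classical
  obtain ⟨K₀, hK₀⟩ : ∃ K₀, K₀ = IntermediateField.adjoin k (Set.range x) := ⟨_, rfl⟩
  subst hK₀
  have hN0 : 0 < N := Nat.pos_of_ne_zero fun h => hN (by rw [h, Nat.cast_zero])
  obtain ⟨n, hn⟩ := exists_inv_mod (k := k) p N hN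
  obtain ⟨hb, hbds⟩ := bc_gen (k := k) (M := M) p hp3 N (N * n) hN hn
  have hfg : (IntermediateField.adjoin k (Set.range x) : IntermediateField k M).FG :=
    ⟨Finset.univ.image x, by rw [Finset.coe_image, Finset.coe_univ, Set.image_univ]⟩
  have hX1 : (X + 1 : k[X]) ≠ 0 := by
    rw [← C_1]
    exact X_add_C_ne_zero 1
  have hB₁ : ((X ^ p - X) * (X + 1) ^ (N * n) : k[X]) ≠ 0 :=
    mul_ne_zero (FiniteField.X_pow_card_sub_X_ne_zero k (by omega)) (pow_ne_zero _ hX1)
  have hF0 : (⟨z ^ N, zN⟩ : IntermediateField.adjoin k (Set.range x)) ≠ 0 := fun h =>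
    pow_ne_zero N z0 (congrArg Subtype.val h)
  obtain ⟨L, i1, i2, i3, i4, a, w, ha, hw, hgen⟩ := ext_exists N hN0
    ((X ^ p - X) * (X + 1) ^ (N * n) : k[X]) 1 hB₁
    (⟨z ^ N, zN⟩ : IntermediateField.adjoin k (Set.range x))
  have hxK : ∀ i, x i ∈ IntermediateField.adjoin k (Set.range x) := fun i =>
    IntermediateField.subset_adjoin _ _ ⟨i, rfl⟩
  let ξ : Fin 3 → IntermediateField.adjoin k (Set.range x) := fun i => ⟨x i, hxK i⟩
  have hval : ∀ P : MvPolynomial (Fin 3) k, ((MvPolynomial.aeval ξ P :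
      IntermediateField.adjoin k (Set.range x)) : M) = MvPolynomial.aeval x P := fun P =>
    (MvPolynomial.aeval_algebraMap_apply (A := IntermediateField.adjoin k (Set.range x))
      (B := M) ξ P).symm
  have hgen₀ : IntermediateField.adjoin k (Set.range ξ) = ⊤ := by
    apply IntermediateField.lift_injective (IntermediateField.adjoin k (Set.range x))
    rw [IntermediateField.lift_adjoin, IntermediateField.lift_top, ← Set.range_comp]
    rfl
  have htd₀ : Algebra.trdeg k (IntermediateField.adjoin k (Set.range x)) + 1 = (3 : ℕ) := by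
    have h1 : Algebra.IsAlgebraic (IntermediateField.adjoin k (Set.range x)) M := ⟨hal⟩
    have h3 := _root_.trdeg_add_eq k (IntermediateField.adjoin k (Set.range x)) (A := M)
    rw [trdeg_eq_zero_iff.2 h1, add_zero, htd] at h3
    rw [h3]
    norm_num
  have huni : Uniruled k L := by
    refine fam_uniP p N m hN0 hm hmp ((X ^ p - X) * (X + 1) ^ (N * n)) 1 ((X + 1) ^ n) 1
      one_ne_zero (pow_ne_zero _ hX1) one_ne_zero (by ring) ξ hgen₀ htd₀ g hg0 ?_ G H q ?_
      ⟨z ^ N, zN⟩ hF0 ?_ a w ha hw hgen ω υ γ τ d D h0 hτ hG hH hγ hQ hQ' ?_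
    · apply Subtype.ext
      rw [hval, hg]
      rfl
    · intro h
      apply hq
      rw [← hval, h]
      rfl
    · apply Subtype.ext
      show z ^ N * ((MvPolynomial.aeval ξ q : IntermediateField.adjoin k (Set.range x)) : M) ^
        (p * m) = ((MvPolynomial.aeval ξ G : IntermediateField.adjoin k (Set.range x)) : M) ^ p +
          ((MvPolynomial.aeval ξ q : IntermediateField.adjoin k (Set.range x)) : M) ^
            (p * (m - 1)) *
          ((MvPolynomial.aeval ξ H : IntermediateField.adjoin k (Set.range x)) : M)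
      rw [hval, hval, hval]
      exact hF
    · rw [Fin.sum_univ_three]
      exact h6
  refine emt_final _ hfg htd hal N _ _ hb z z0 zN irr L a w ha hw hgen huni fun e he => ?_
  have hNp : Nat.gcd N p = 1 := by
    rw [Nat.gcd_comm]
    refine (Nat.Prime.coprime_iff_not_dvd Fact.out).2 fun h => ?_
    exact hN ((CharP.cast_eq_zero_iff k p N).2 h)
  have hgcd : Nat.gcd N e = 1 := by
    rcases hbds e he with rfl | rfl | rfl
    · exact Nat.gcd_one_right N
    · rw [Nat.gcd_add_mul_left_right]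
      exact Nat.gcd_one_right N
    · rw [Nat.gcd_add_mul_left_right]
      exact hNp
  rw [hgcd, Nat.div_one]
  have h1 : IntermediateField.adjoin k (Set.range x) ⊔ IntermediateField.adjoin k {z ^ N} =
      IntermediateField.adjoin k (Set.range x) := by
    refine sup_eq_left.2 ?_
    rw [IntermediateField.adjoin_le_iff]
    rintro y rfl
    exact zN
  rw [h1]
  exact hE

end Pool.Agent.ADH
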