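import Pool.Agent.ADT.T3
import Pool.Agent.ADH.T9c

/-!
# Elliptic curves `y ^ 2 = x ^ 3 + h(s) x ^ 2 + f(s) x + g(s)` of characteristic three, `deg h = 1`
-/

set_option autoImplicit false

namespace Pool.Agent.ADH

open Polynomial Pool.Agent.TUQ Pool.Agent.WLD Pool.Agent.ADT Pool.Agent.UQ WeierstrassCurve
  WeierstrassCurve.Affine Pool.Agent.EFF

open scoped Classical

/-- the weights of `x`, `s` -/
abbrev w15 : Fin 3 → ℕ := ![7, 1, 0]

section

variable {k M : Type} [Field k] [Field M] [Algebra k M]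

/-- the function field of the surface -/
theorem emt_D1 [IsAlgClosed M] [CharP k 3] (htd : Algebra.trdeg k M = 2) (x s z : M)
    (h f g : k[X]) (dh : h.natDegree ≤ 1) (df : f.natDegree ≤ 8) (dg : g.natDegree ≤ 15)
    (hz : z ^ 2 = x ^ 3 + (aeval s h * x ^ 2 + aeval s f * x + aeval s g))
    (hal : ∀ b : M, IsAlgebraic (IntermediateField.adjoin k (Set.range ![x, s, 0])) b) :
    Emt (IntermediateField.adjoin k (Set.range ![x, s, 0]) ⊔ IntermediateField.adjoin k {z}) := by
  have hp : Fact (Nat.Prime 3) := ⟨Nat.prime_three⟩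
  have h2 : ((2 : ℕ) : k) ≠ 0 := by
    intro h
    have h4 := (CharP.cast_eq_zero_iff k 3 2).1 h
    omega
  obtain ⟨A, hA⟩ : ∃ A, A = IntermediateField.adjoin k (Set.range ![x, s, 0]) := ⟨_, rfl⟩
  have hX2 : (MvPolynomial.X 2 : MvPolynomial (Fin 3) k) ≠ 0 := MvPolynomial.X_ne_zero _
  have hE : Emt (IntermediateField.adjoin k (Set.range ![x, s, 0])) := by
    refine emt_hyper htd ⊥ IntermediateField.fg_bot ![x, s, 0] ?_ _ (bot_sup_eq _).symm hal
      (MvPolynomial.X 2) ?_ ?_ ![1, 1, 0] ?_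
    · have h1 : Algebra.IsAlgebraic k (⊥ : IntermediateField k M) := inferInstance
      rw [trdeg_eq_zero_iff.2 h1]
      norm_num
    · exact MvPolynomial.X_ne_zero _
    · rw [MvPolynomial.aeval_X]
      rfl
    · refine lt_of_le_of_lt (wle_X _ _) ?_
      decide
  have hxA : x ∈ A := by
    rw [hA]
    exact IntermediateField.subset_adjoin _ _ ⟨0, rfl⟩
  have hsA : s ∈ A := by
    rw [hA]
    exact IntermediateField.subset_adjoin _ _ ⟨1, rfl⟩
  have hpA : ∀ q : k[X], aeval s q ∈ A := by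
    intro q
    have h1 : aeval s q ∈ Algebra.adjoin k ({s} : Set M) :=
      Polynomial.aeval_mem_adjoin_singleton k s
    have h3 : Algebra.adjoin k ({s} : Set M) ≤ A.toSubalgebra :=
      Algebra.adjoin_le (by simpa using hsA)
    exact h3 h1
  have hzA : z ^ 2 ∈ A := by
    rw [hz]
    exact add_mem (pow_mem hxA _) (add_mem (add_mem (mul_mem (hpA h) (pow_mem hxA _))
      (mul_mem (hpA f) hxA)) (hpA g))
  by_cases hzA' : z ∈ A
  · have h1 : IntermediateField.adjoin k (Set.range ![x, s, 0]) ⊔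
        IntermediateField.adjoin k {z} = IntermediateField.adjoin k (Set.range ![x, s, 0]) := by
      refine sup_eq_left.2 ?_
      rw [IntermediateField.adjoin_le_iff, ← hA]
      rintro y rfl
      exact hzA'
    rw [h1]
    exact hE
  · have z0 : z ≠ 0 := by
      rintro rfl
      exact hzA' A.zero_mem
    rw [hA] at hzA hzA'
    have irr : Irreducible (X ^ 2 - C (⟨z ^ 2, hzA⟩ :
        IntermediateField.adjoin k (Set.range ![x, s, 0]))) := by
      rw [X_pow_sub_C_irreducible_iff_of_prime Nat.prime_two]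
      intro b hb
      have h1 : (b : M) ^ 2 = z ^ 2 := congrArg Subtype.val hb
      rcases sq_eq_sq_iff_eq_or_eq_neg.1 h1 with h3 | h3
      · exact hzA' (h3 ▸ b.2)
      · have h4 : z = -(b : M) := by rw [h3, neg_neg]
        exact hzA' (h4 ▸ neg_mem b.2)
    have hX1 : ∀ q : k[X], MvPolynomial.aeval ![x, s, 0]
        (aeval (MvPolynomial.X 1 : MvPolynomial (Fin 3) k) q) = aeval s q := by
      intro q
      rw [← Polynomial.aeval_algHom_apply, MvPolynomial.aeval_X]
      rfl
    have e0 : MvPolynomial.aeval ![x, s, 0] (MvPolynomial.X 0 : MvPolynomial (Fin 3) k) = x := by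
      rw [MvPolynomial.aeval_X]
      rfl
    refine emt_P 3 le_rfl htd ![x, s, 0] hal (MvPolynomial.X 2) (MvPolynomial.X 0)
      (aeval (MvPolynomial.X 1) h * MvPolynomial.X 0 ^ 2 + aeval (MvPolynomial.X 1) f *
        MvPolynomial.X 0 + aeval (MvPolynomial.X 1) g) 1 hX2 ?_ ?_ 2 3 h2 (by norm_num) le_rfl z z0
      hzA irr ?_ w15 2 5 0 0 15 (wle_X _ _) ?_ ?_ ?_ (by norm_num) (by norm_num)
      (by norm_num) ?_ hE
    · rw [MvPolynomial.aeval_X]
      rfl
    · rw [map_one]
      exact one_ne_zero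
    · rw [map_one, one_pow, mul_one, one_pow, one_mul, e0]
      simp only [map_add, map_mul, map_pow, e0, hX1]
      exact hz
    · exact (wle_C w15 (1 : k))
    · have h1 := wle_X (k := k) w15 0
      have h3 : w15 0 = 7 := rfl
      omega
    · refine wle_add _ _ _ _ (wle_add _ _ _ _ ?_ ?_) ?_
      · refine (wle_mul _ _ _ _ 14 (wle_aeval_X _ 1 h) ((wle_X_pow w15 0 2).trans
          (le_of_eq rfl))).trans ?_
        show h.natDegree * 1 + 14 ≤ 15
        omega
      · refine (wle_mul _ _ _ _ _ (wle_aeval_X _ 1 f) (wle_X w15 0)).trans ?_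
        show f.natDegree * 1 + 7 ≤ 15
        omega
      · refine (wle_aeval_X w15 1 g).trans ?_
        show g.natDegree * 1 ≤ 15
        omega
    · show 0 + 15 ≤ 7 + 1 + 0 + 2 + 5
      norm_num

end

/-- the curves `y ^ 2 = x ^ 3 + a₂(s) x ^ 2 + a₄(s) x + a₆(s)` with coefficients of degrees at most
1, 8, 15 -/
theorem sha_D1 {k K Kb : Type} [Field k] [Finite k] [Field K] [Field Kb] [Algebra k K]
    [Algebra k Kb] [Algebra K Kb] [IsScalarTower k K Kb] [IsAlgClosed Kb]
    [Algebra.IsAlgebraic K Kb] [CharP k 3] (s : K)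
    (hs : Transcendental k s) (W : WeierstrassCurve k[X]) (hΔ : W.Δ ≠ 0)
    (w1 : W.a₁ = 0) (w3 : W.a₃ = 0) (dh : W.a₂.natDegree ≤ 1) (df : W.a₄.natDegree ≤ 8)
    (dg : W.a₆.natDegree ≤ 15) (hK : IntermediateField.adjoin k {s} = ⊤)
    (ℓ : ℕ) (hℓ : ℓ.Prime) (hℓk : (ℓ : k) ≠ 0)
    (c : ℕ → (Kb ≃ₐ[K] Kb) → Pts (Ws W s) Kb) (hc : ShaSys (Ws W s) k ℓ c) (n : ℕ) :
    Principal (Ws W s) (T1B.geo k K Kb) (c n) := by
  have hS : ∀ z ∈ (∅ : Finset Kb), ∃ φ F : k[X], φ.natDegree ≠ 0 ∧
      aeval z φ = aeval (algebraMap K Kb s) F := fun z hz => absurd hz (Finset.notMem_empty z)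
  have hK' : ∀ b : K, algebraMap K Kb b ∈ IntermediateField.adjoin k
      (insert (algebraMap K Kb s) ((∅ : Finset Kb) : Set Kb)) := by
    intro b
    let ι : K →ₐ[k] Kb := IsScalarTower.toAlgHom k K Kb
    have h1 : (IntermediateField.adjoin k {s}).map ι ≤ IntermediateField.adjoin k
        (insert (algebraMap K Kb s) ((∅ : Finset Kb) : Set Kb)) := by
      rw [IntermediateField.adjoin_map, Set.image_singleton, IntermediateField.adjoin_le_iff,
        Set.singleton_subset_iff]
      exact IntermediateField.subset_adjoin _ _ (Or.inl rfl)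
    exact h1 ⟨b, by rw [hK]; exact IntermediateField.mem_top, rfl⟩
  obtain ⟨M, _, _, _, _, x, y, t1, t2, t3, hM, htd, hx, hy, hal⟩ := setup s hs ∅ hS hK' W
  obtain ⟨t, ht⟩ : ∃ t, t = algebraMap K M s := ⟨_, rfl⟩
  have heq : y ^ 2 = x ^ 3 + (aeval t W.a₂ * x ^ 2 + aeval t W.a₄ * x + aeval t W.a₆) := by
    have h1 := hy
    rw [aeval_wpoly, w1, w3] at h1
    simp only [Matrix.cons_val_zero, Matrix.cons_val_one, Matrix.cons_val, map_zero, ← ht] at h1
    linear_combination h1
  obtain ⟨A, hA⟩ : ∃ A, A = IntermediateField.adjoin k (Set.range ![x, t, 0]) := ⟨_, rfl⟩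
  have htA : t ∈ A := by
    rw [hA]
    exact IntermediateField.subset_adjoin _ _ ⟨1, rfl⟩
  have hxA : x ∈ A := by
    rw [hA]
    exact IntermediateField.subset_adjoin _ _ ⟨0, rfl⟩
  have hpA : ∀ q : k[X], aeval t q ∈ A := by
    intro q
    have h1 : aeval t q ∈ Algebra.adjoin k ({t} : Set M) :=
      Polynomial.aeval_mem_adjoin_singleton k t
    have h3 : Algebra.adjoin k ({t} : Set M) ≤ A.toSubalgebra :=
      Algebra.adjoin_le (by simpa using htA)
    exact h3 h1
  have hyA : IsAlgebraic A y := by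
    have h1 : y ^ 2 ∈ A := by
      rw [heq]
      exact add_mem (pow_mem hxA _) (add_mem (add_mem (mul_mem (hpA _) (pow_mem hxA _))
        (mul_mem (hpA _) hxA)) (hpA _))
    refine ⟨X ^ 2 - C (⟨y ^ 2, h1⟩ : A), X_pow_sub_C_ne_zero (by norm_num) _, ?_⟩
    rw [map_sub, map_pow, aeval_X, aeval_C]
    exact sub_self _
  have hal' : ∀ b : M, IsAlgebraic (IntermediateField.adjoin k (Set.range ![x, t, 0])) b := by
    rw [← hA]
    intro b
    refine algTrans (K := IntermediateField.adjoin k (Set.range ![x, y, algebraMap K M s])) A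
      (fun b => ?_) b (hal b)
    refine alg_adjoin A _ ?_ (b : M) b.2
    rintro _ ⟨i, rfl⟩
    fin_cases i
    · exact isAlgebraic_algebraMap (⟨x, hxA⟩ : A)
    · exact hyA
    · show IsAlgebraic A (algebraMap K M s)
      rw [← ht]
      exact isAlgebraic_algebraMap (⟨t, htA⟩ : A)
  have hE := emt_D1 htd x t y W.a₂ W.a₄ W.a₆ dh df dg heq hal'
  obtain ⟨F, hF⟩ : ∃ F : IntermediateField K M, F = IntermediateField.adjoin K {x, y} := ⟨_, rfl⟩
  have hxF : x ∈ F := by
    rw [hF]
    exact IntermediateField.subset_adjoin _ _ (by simp)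
  have hyF : y ∈ F := by
    rw [hF]
    exact IntermediateField.subset_adjoin _ _ (by simp)
  have hsub : IntermediateField.adjoin k (Set.range ![x, y, algebraMap K M s]) ≤
      F.restrictScalars k := by
    rw [IntermediateField.adjoin_le_iff]
    rintro _ ⟨i, rfl⟩
    fin_cases i
    · exact hxF
    · exact hyF
    · exact F.algebraMap_mem s
  have hFal : ∀ b : M, IsAlgebraic (F.restrictScalars k) b := fun b => by
    refine algTrans (K := IntermediateField.adjoin k (Set.range ![x, y, algebraMap K M s])) _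
      (fun a => ?_) b (hal b)
    exact isAlgebraic_algebraMap (⟨a, hsub a.2⟩ : F.restrictScalars k)
  obtain ⟨B, hB⟩ : ∃ B, B = IntermediateField.adjoin k (Set.range ![x, t, 0]) ⊔
      IntermediateField.adjoin k {y} := ⟨_, rfl⟩
  have hAB : A ≤ B := by
    rw [hA, hB]
    exact le_sup_left
  have hyB : y ∈ B := by
    rw [hB]
    exact (le_sup_right : IntermediateField.adjoin k {y} ≤ _)
      (IntermediateField.subset_adjoin _ _ rfl)
  have hKM : ∀ b : K, algebraMap K M b ∈ B := by
    intro b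
    let ι : K →ₐ[k] M := IsScalarTower.toAlgHom k K M
    have h1 : (IntermediateField.adjoin k {s}).map ι ≤ B := by
      rw [IntermediateField.adjoin_map, Set.image_singleton, IntermediateField.adjoin_le_iff,
        Set.singleton_subset_iff]
      show algebraMap K M s ∈ B
      rw [← ht]
      exact hAB htA
    exact h1 ⟨b, by rw [hK]; exact IntermediateField.mem_top, rfl⟩
  have hle : F.restrictScalars k ≤ B := by
    let B' : IntermediateField K M := B.toSubfield.toIntermediateField hKM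
    have hFB : F ≤ B' := by
      rw [hF, IntermediateField.adjoin_le_iff]
      rintro b (rfl | hb)
      · exact hAB hxA
      · rw [Set.mem_singleton_iff.1 hb]
        exact hyB
    exact fun b hb => hFB hb
  have hBfg : B.FG := by
    rw [hB]
    exact IntermediateField.fg_sup
      ⟨Finset.univ.image ![x, t, 0], by
        rw [Finset.coe_image, Finset.coe_univ, Set.image_univ]⟩ ⟨{y}, by simp⟩
  have hemt : Emt (F.restrictScalars k) := by
    refine emt_of_inj (K' := B) (ι := Unit) (fun ℓ hℓ => vl_res _ _ hle hBfg hFal hℓ)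
      (fun _ => B) (fun ℓ _ _ => ⟨MonoidHom.pi fun _ => MonoidHom.id _,
        fun _ _ h => congrFun h ()⟩) fun _ => ?_
    rw [hB]
    exact hE
  have hT1 : T1B.T1 k F ℓ := t1_of_emt (F.restrictScalars k) hFal hemt ℓ hℓ hℓk
  exact bridge s hs (alg_K' s ∅ hS hK') W hΔ x y hx hy F hF ℓ hℓ hℓk hT1 c hc n

end Pool.Agent.ADH
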