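import Pool.Agent.ADH.T7a

/-!
# Elliptic curves `y ^ 2 + x y + a₃(s) y = x ^ 3 + a₂(s) x ^ 2 + a₄(s) x + a₆(s)` of characteristic
two

If `a₃ = 0`: with `b = a₆ + a₄ ^ 2`, `x = U ^ 4 + b / U ^ 4` and
`w = (y + a₄) / x + U + U ^ 2 + b / (U ^ 8 + b) + a₄ / U ^ 2`,
`w ^ 2 + w = U + a₂ + a₄ / U ^ 2 + a₆ / U ^ 4`.
-/

set_option autoImplicit false

namespace Pool.Agent.ADH

open Polynomial Pool.Agent.WLD Pool.Agent.ADT Pool.Agent.UQ WeierstrassCurve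
  WeierstrassCurve.Affine Pool.Agent.EFF

open scoped Classical

/-- `w ^ 2 + w` -/
theorem addPoly_two {k : Type} [Field k] [CharP k 2] : AddPoly (X ^ 2 + X : k[X]) := by
  intro L _ _ a b
  have h1 : CharP L 2 := charP_of_injective_algebraMap (algebraMap k L).injective 2
  have h2 : (2 : L) = 0 := CharTwo.two_eq_zero
  simp only [map_add, map_pow, aeval_X]
  linear_combination (a * b) * h2

theorem derivative_two {k : Type} [Field k] [CharP k 2] :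
    derivative (X ^ 2 + X : k[X]) ≠ 0 := by
  have h2 : (2 : k) = 0 := CharTwo.two_eq_zero
  have h3 : derivative (X ^ 2 + X : k[X]) = 1 := by
    rw [derivative_add, derivative_X_pow, derivative_X]
    simp [h2]
  rw [h3]
  exact one_ne_zero

theorem aeval_mem' {k M : Type} [Field k] [Field M] [Algebra k M] (B : IntermediateField k M)
    (s : M) (hs : s ∈ B) (F : k[X]) : aeval s F ∈ B := by
  have h1 : aeval s F ∈ Algebra.adjoin k ({s} : Set M) :=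
    Polynomial.aeval_mem_adjoin_singleton k s
  have h2 : Algebra.adjoin k ({s} : Set M) ≤ B.toSubalgebra :=
    Algebra.adjoin_le (by simpa using hs)
  exact h2 h1

/-- the generic point of the curve and the rational surface -/
theorem geo2 {k : Type} [Field k] [CharP k 2] (W : WeierstrassCurve k[X]) (hΔ : W.Δ ≠ 0)
    (w1 : W.a₁ = 1) (d3 : W.a₃.natDegree ≤ 6) (d4 : W.a₄.natDegree ≤ 18)
    (d2 : W.a₂.natDegree ≤ 6) (d6 : W.a₆.natDegree ≤ 30) : Geo W := by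
  intro M _ _ _ x y s hs hx hy
  have hM2 : CharP M 2 := charP_of_injective_algebraMap (algebraMap k M).injective 2
  have h2 : (2 : M) = 0 := CharTwo.two_eq_zero
  have h2X : (2 : k[X]) = 0 := CharTwo.two_eq_zero
  obtain ⟨P4, hP4⟩ : ∃ P4, P4 = W.a₃ ^ 2 + W.a₄ := ⟨_, rfl⟩
  obtain ⟨P6, hP6⟩ : ∃ P6, P6 = W.a₆ + W.a₃ ^ 3 + W.a₂ * W.a₃ ^ 2 + W.a₃ * W.a₄ := ⟨_, rfl⟩
  have ha6 : P6 + P4 ^ 2 ≠ 0 := by
    intro h
    apply hΔ
    rw [WeierstrassCurve.Δ, WeierstrassCurve.b₂, WeierstrassCurve.b₄, WeierstrassCurve.b₆,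
      WeierstrassCurve.b₈, w1]
    rw [hP6, hP4] at h
    linear_combination h + (- 8 * W.a₂ ^ 3 * W.a₃ ^ 2 - 32 * W.a₂ ^ 3 * W.a₆
      - 4 * W.a₂ ^ 2 * W.a₃ ^ 2 + 8 * W.a₂ ^ 2 * W.a₃ * W.a₄ + 8 * W.a₂ ^ 2 * W.a₄ ^ 2
      - 24 * W.a₂ ^ 2 * W.a₆ + 18 * W.a₂ * W.a₃ ^ 3 + 36 * W.a₂ * W.a₃ ^ 2 * W.a₄
      - W.a₂ * W.a₃ ^ 2 + 4 * W.a₂ * W.a₃ * W.a₄ + 72 * W.a₂ * W.a₃ * W.a₆
      + 4 * W.a₂ * W.a₄ ^ 2 + 144 * W.a₂ * W.a₄ * W.a₆ - 6 * W.a₂ * W.a₆ - 14 * W.a₃ ^ 4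
      - 16 * W.a₃ ^ 2 * W.a₄ - 108 * W.a₃ ^ 2 * W.a₆ - 48 * W.a₃ * W.a₄ ^ 2
      + 18 * W.a₃ * W.a₆ - 32 * W.a₄ ^ 3 + 36 * W.a₄ * W.a₆ - 216 * W.a₆ ^ 2 - W.a₆) * h2X
  obtain ⟨α, hα⟩ : ∃ α, α = aeval s W.a₃ := ⟨_, rfl⟩
  obtain ⟨A, hA⟩ : ∃ A, A = aeval s (W.a₂ + W.a₃) := ⟨_, rfl⟩
  obtain ⟨β, hβ⟩ : ∃ β, β = aeval s P4 := ⟨_, rfl⟩
  obtain ⟨G, hG⟩ : ∃ G, G = aeval s P6 := ⟨_, rfl⟩
  obtain ⟨B, hB⟩ : ∃ B, B = G + β ^ 2 := ⟨_, rfl⟩
  have hB0 : B ≠ 0 := by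
    have h3 : B = aeval s (P6 + P4 ^ 2) := by
      rw [hB, hG, hβ, map_add, map_pow]
    rw [h3]
    exact fun h => ha6 (transcendental_iff_injective.1 hs (h.trans (map_zero _).symm))
  obtain ⟨x', hx'⟩ : ∃ x', x' = x + α := ⟨_, rfl⟩
  obtain ⟨y', hy'⟩ : ∃ y', y' = y + β := ⟨_, rfl⟩
  have hx0 : x' ≠ 0 := by
    intro h
    apply hx (-W.a₃)
    rw [map_neg, ← hα]
    linear_combination h - hx'
  have heq : y' ^ 2 + x' * y' = x' ^ 3 + A * x' ^ 2 + B := by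
    rw [aeval_wpoly] at hy
    simp only [Matrix.cons_val_zero, Matrix.cons_val_one, Matrix.cons_val, w1, map_one] at hy
    rw [hy', hx', hA, hB, hG, hβ, hα, hP4, hP6]
    simp only [map_add, map_mul, map_pow]
    linear_combination hy + (- 2 * x ^ 2 * aeval s W.a₃ - x * aeval s W.a₂ * aeval s W.a₃
      - 2 * x * aeval s W.a₃ ^ 2 + x * aeval s W.a₄ + y * aeval s W.a₃ ^ 2 + y * aeval s W.a₄
      - aeval s W.a₂ * aeval s W.a₃ ^ 2 - aeval s W.a₃ ^ 3) * h2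
  -- the function `U`
  obtain ⟨U, hU⟩ : ∃ U : M, U ^ 8 + x' * U ^ 4 + B = 0 := by
    have hd : (X ^ 8 + C x' * X ^ 4 + C B : M[X]).degree ≠ 0 := by
      have : (X ^ 8 + C x' * X ^ 4 + C B : M[X]).degree = 8 := by compute_degree!
      rw [this]
      decide
    obtain ⟨U, hU⟩ := IsAlgClosed.exists_root _ hd
    exact ⟨U, by simpa [IsRoot] using hU⟩
  have hU0 : U ≠ 0 := by
    rintro rfl
    apply hB0
    simpa using hU
  have hP : x' * U ^ 4 = U ^ 8 + B := by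
    linear_combination hU - (U ^ 8 + B) * h2
  have hP0 : U ^ 8 + B ≠ 0 := by
    rw [← hP]
    exact mul_ne_zero hx0 (pow_ne_zero _ hU0)
  obtain ⟨v, hv⟩ : ∃ v, (U ^ 8 + B) * v = y' * U ^ 4 + B :=
    ⟨(y' * U ^ 4 + B) / (U ^ 8 + B), by field_simp⟩
  obtain ⟨w, hw⟩ : ∃ w, w = v + U + U ^ 2 + β / U ^ 2 := ⟨_, rfl⟩
  have hyy : y' ^ 2 * U ^ 12 + (U ^ 8 + B) * y' * U ^ 8 -
      ((U ^ 8 + B) ^ 3 + A * (U ^ 8 + B) ^ 2 * U ^ 4 + B * U ^ 12) = 0 := by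
    rw [← hP]
    linear_combination U ^ 12 * heq
  have hv2 : (v ^ 2 + v) * U ^ 4 = U ^ 8 + B + A * U ^ 4 := by
    apply mul_left_cancel₀ (pow_ne_zero 2 hP0)
    have h3 : (U ^ 8 + B) ^ 2 * ((v ^ 2 + v) * U ^ 4) =
        ((U ^ 8 + B) * v) ^ 2 * U ^ 4 + (U ^ 8 + B) * ((U ^ 8 + B) * v) * U ^ 4 := by ring
    rw [h3, hv]
    linear_combination hyy + (B * U ^ 12 + y' * B * U ^ 8 + B ^ 2 * U ^ 4) * h2
  have key : (w ^ 2 + w) * U ^ 6 = U ^ 7 + A * U ^ 6 + β * U ^ 4 + G * U ^ 2 := by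
    have h3 : w * U ^ 2 = (v + U + U ^ 2) * U ^ 2 + β := by
      rw [hw, add_mul, div_mul_cancel₀ _ (pow_ne_zero _ hU0)]
    have h4 : (w ^ 2 + w) * U ^ 6 = (w * U ^ 2) ^ 2 * U ^ 2 + (w * U ^ 2) * U ^ 4 := by ring
    rw [h4, h3]
    rw [hB] at hv2
    linear_combination U ^ 2 * hv2 + (U ^ 2 * (U ^ 8 + U ^ 7 + U ^ 6 + v * U ^ 5 + v * U ^ 6) +
      β * (v + U + U ^ 2) * U ^ 4 + β ^ 2 * U ^ 2) * h2
  obtain ⟨E, hE⟩ : ∃ E : IntermediateField k M, E = IntermediateField.adjoin k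
    (Set.range ![U, s, 0] ∪ (({w} : Finset M) : Set M)) := ⟨_, rfl⟩
  have hUE : U ∈ E := by
    rw [hE]
    exact IntermediateField.subset_adjoin _ _ (Or.inl ⟨0, rfl⟩)
  have hsE : s ∈ E := by
    rw [hE]
    exact IntermediateField.subset_adjoin _ _ (Or.inl ⟨1, rfl⟩)
  have hwE : w ∈ E := by
    rw [hE]
    exact IntermediateField.subset_adjoin _ _ (Or.inr (by simp))
  have hαE : α ∈ E := by
    rw [hα]
    exact aeval_mem' E s hsE _
  have hβE : β ∈ E := by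
    rw [hβ]
    exact aeval_mem' E s hsE _
  have hBE : B ∈ E := by
    rw [hB, hG]
    exact add_mem (aeval_mem' E s hsE _) (pow_mem hβE _)
  have hvE : v ∈ E := by
    have h4 : v = w - U - U ^ 2 - β / U ^ 2 := by
      rw [hw]
      ring
    rw [h4]
    exact sub_mem (sub_mem (sub_mem hwE hUE) (pow_mem hUE _)) (div_mem hβE (pow_mem hUE _))
  refine ⟨U, {w}, hU0, ?_, ?_, ?_⟩
  · intro z hz
    rw [Finset.mem_singleton.1 hz]
    refine ⟨X ^ 2 + X, MvPolynomial.X 0 ^ 7 + aeval (MvPolynomial.X 1) (W.a₂ + W.a₃) *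
      MvPolynomial.X 0 ^ 6 + aeval (MvPolynomial.X 1) P4 * MvPolynomial.X 0 ^ 4 +
      aeval (MvPolynomial.X 1) P6 * MvPolynomial.X 0 ^ 2,
      addPoly_two, derivative_two, ?_, ?_⟩
    · refine wle_add _ _ _ _ (wle_add _ _ _ _ (wle_add _ _ _ _ ?_ ?_) ?_) ?_
      · exact (wle_X_pow w42 0 7).trans (le_of_eq rfl)
      · refine (wle_mul _ _ _ _ _ (wle_aeval_X _ 1 (W.a₂ + W.a₃)) (wle_X_pow _ 0 6)).trans ?_
        show (W.a₂ + W.a₃).natDegree * 1 + 6 * 6 ≤ 42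
        have := natDegree_add_le W.a₂ W.a₃
        omega
      · refine (wle_mul _ _ _ _ _ (wle_aeval_X _ 1 P4) (wle_X_pow _ 0 4)).trans ?_
        show P4.natDegree * 1 + 4 * 6 ≤ 42
        have h3 : P4.natDegree ≤ 18 := by
          rw [hP4]
          refine (natDegree_add_le _ _).trans (max_le (natDegree_pow_le.trans ?_) d4)
          omega
        omega
      · refine (wle_mul _ _ _ _ _ (wle_aeval_X _ 1 P6) (wle_X_pow _ 0 2)).trans ?_
        show P6.natDegree * 1 + 2 * 6 ≤ 42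
        have h3 : P6.natDegree ≤ 30 := by
          rw [hP6]
          have e3 : (W.a₃ ^ 3).natDegree ≤ 3 * 6 :=
            natDegree_pow_le.trans (Nat.mul_le_mul_left 3 d3)
          have e2 : (W.a₃ ^ 2).natDegree ≤ 2 * 6 :=
            natDegree_pow_le.trans (Nat.mul_le_mul_left 2 d3)
          have e4 := natDegree_mul_le (p := W.a₂) (q := W.a₃ ^ 2)
          have e5 := natDegree_mul_le (p := W.a₃) (q := W.a₄)
          refine (natDegree_add_le _ _).trans (max_le ((natDegree_add_le _ _).trans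
            (max_le ((natDegree_add_le _ _).trans (max_le d6 (by omega))) (by omega)))
            (by omega))
        omega
    · have h3 : ∀ q : k[X], MvPolynomial.aeval ![U, s, 0]
          (aeval (MvPolynomial.X 1 : MvPolynomial (Fin 3) k) q) = aeval s q := by
        intro q
        rw [← Polynomial.aeval_algHom_apply, MvPolynomial.aeval_X]
        rfl
      rw [map_add (MvPolynomial.aeval ![U, s, 0]), map_add (MvPolynomial.aeval ![U, s, 0]),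
        map_add (MvPolynomial.aeval ![U, s, 0])]
      simp only [map_mul, map_pow, MvPolynomial.aeval_X, h3, Matrix.cons_val_zero, ← hA, ← hβ,
        ← hG]
      rw [map_add, map_pow, aeval_X]
      exact key
  · rw [← hE]
    have h3 : x = (U ^ 8 + B) / U ^ 4 - α := by
      rw [← hP, mul_div_assoc, div_self (pow_ne_zero _ hU0), mul_one, hx']
      ring
    rw [h3]
    exact sub_mem (div_mem (add_mem (pow_mem hUE _) hBE) (pow_mem hUE _)) hαE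
  · rw [← hE]
    have h3 : y = ((U ^ 8 + B) * v - B) / U ^ 4 - β := by
      rw [hv, add_sub_cancel_right, mul_div_assoc, div_self (pow_ne_zero _ hU0), mul_one, hy']
      ring
    rw [h3]
    exact sub_mem (div_mem (sub_mem (mul_mem (add_mem (pow_mem hUE _) hBE) hvE) hBE)
      (pow_mem hUE _)) hβE

/-- the curves `y ^ 2 + x y + a₃(s) y = x ^ 3 + a₂(s) x ^ 2 + a₄(s) x + a₆(s)` of characteristic
two -/
theorem sha_C2 {k K Kb : Type} [Field k] [Finite k] [Field K] [Field Kb] [Algebra k K]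
    [Algebra k Kb] [Algebra K Kb] [IsScalarTower k K Kb] [IsAlgClosed Kb]
    [Algebra.IsAlgebraic K Kb] [CharP k 2] (s : K)
    (hs : Transcendental k s) (W : WeierstrassCurve k[X]) (hΔ : W.Δ ≠ 0)
    (w1 : W.a₁ = 1) (d3 : W.a₃.natDegree ≤ 6) (d4 : W.a₄.natDegree ≤ 18)
    (d2 : W.a₂.natDegree ≤ 6) (d6 : W.a₆.natDegree ≤ 30) (S : Finset Kb)
    (hS : ∀ z ∈ S, ∃ φ F : k[X], AddPoly φ ∧ derivative φ ≠ 0 ∧ F.natDegree ≤ 6 ∧
      aeval z φ = aeval (algebraMap K Kb s) F)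
    (hK : ∀ a : K, algebraMap K Kb a ∈
      IntermediateField.adjoin k (insert (algebraMap K Kb s) (S : Set Kb)))
    (ℓ : ℕ) (hℓ : ℓ.Prime) (hℓk : (ℓ : k) ≠ 0)
    (c : ℕ → (Kb ≃ₐ[K] Kb) → Pts (Ws W s) Kb) (hc : ShaSys (Ws W s) k ℓ c) (n : ℕ) :
    Principal (Ws W s) (T1B.geo k K Kb) (c n) := by
  have hp : Fact (Nat.Prime 2) := ⟨Nat.prime_two⟩
  have h3 : ((3 : ℕ) : k) ≠ 0 := by
    intro h
    have h4 := (CharP.cast_eq_zero_iff k 2 3).1 h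
    omega
  exact sha_H 2 s hs W hΔ 3 14 21 (by norm_num) h3 (by norm_num) (by norm_num) (by norm_num)
    (by norm_num) (by norm_num) (geo2 W hΔ w1 d3 d4 d2 d6) S hS hK ℓ hℓ hℓk c hc n

end Pool.Agent.ADH
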