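import Pool.Agent.ADT.T3
import Pool.Agent.ADH.A4

/-!
# Elliptic curves over the fields in towers: a rational surface under the generic fibre

`K` is contained in `k(s)(S)` with `φ(z) = F(s)`, `deg F ≤ 6`, for `z` in `S`, and the generic
point of the curve is contained in `k(U, s)(S, S')`, `φ(z) U ^ 6 = f(U, s)` for `z` in `S'`, where
`f` has degree at most `42` for the weights `6, 1` of `U, s`.
-/

set_option autoImplicit false

namespace Pool.Agent.ADH

open Polynomial Pool.Agent.WLD Pool.Agent.ADT Pool.Agent.UQ WeierstrassCurve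
  WeierstrassCurve.Affine Pool.Agent.EFF

open scoped Classical

/-- the weights of `U`, `s` -/
abbrev w42 : Fin 3 → ℕ := ![6, 1, 0]

/-- the equations of degree at most `42` -/
def Eq42 {k M : Type} [Field k] [Field M] [Algebra k M] (U s z : M) : Prop :=
  ∃ (φ : k[X]) (f : MvPolynomial (Fin 3) k), AddPoly φ ∧ derivative φ ≠ 0 ∧
    MvPolynomial.weightedTotalDegree w42 f ≤ 42 ∧
      aeval z φ * U ^ 6 = MvPolynomial.aeval ![U, s, 0] f

/-- the generic point of the curve `W` and the rational surface with the functions `U`, `s` -/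
def Geo {k : Type} [Field k] (W : WeierstrassCurve k[X]) : Prop :=
  ∀ (M : Type) (_ : Field M) (_ : Algebra k M) (_ : IsAlgClosed M) (x y s : M),
    Transcendental k s → (∀ F : k[X], x ≠ aeval s F) →
    MvPolynomial.aeval ![x, y, s] (wpoly W) = 0 →
      ∃ (U : M) (S : Finset M), U ≠ 0 ∧ (∀ z ∈ S, Eq42 (k := k) U s z) ∧
        x ∈ IntermediateField.adjoin k (Set.range ![U, s, 0] ∪ (S : Set M)) ∧
        y ∈ IntermediateField.adjoin k (Set.range ![U, s, 0] ∪ (S : Set M))

/-- the solutions of the equations are algebraic -/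
theorem Eq42.alg {k M : Type} [Field k] [Field M] [Algebra k M] {U s z : M}
    (h : Eq42 (k := k) U s z) (hU : U ≠ 0) :
    IsAlgebraic (IntermediateField.adjoin k (Set.range ![U, s, 0])) z := by
  obtain ⟨φ, f, -, h2, -, h4⟩ := h
  obtain ⟨A, hA⟩ : ∃ A, A = IntermediateField.adjoin k (Set.range ![U, s, 0]) := ⟨_, rfl⟩
  rw [← hA]
  have hUA : U ∈ A := by
    rw [hA]
    exact IntermediateField.subset_adjoin _ _ ⟨0, rfl⟩
  have hx : ∀ i, ![U, s, 0] i ∈ A := fun i => by
    rw [hA]
    exact IntermediateField.subset_adjoin _ _ ⟨i, rfl⟩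
  have hf : MvPolynomial.aeval ![U, s, 0] f ∈ A := by
    have h1 : MvPolynomial.aeval ![U, s, 0] f ∈ Algebra.adjoin k (Set.range ![U, s, 0]) := by
      rw [Algebra.adjoin_range_eq_range_aeval]
      exact ⟨f, rfl⟩
    have h3 : Algebra.adjoin k (Set.range ![U, s, 0]) ≤ A.toSubalgebra :=
      Algebra.adjoin_le (by rintro _ ⟨i, rfl⟩; exact hx i)
    exact h3 h1
  have hz : aeval z φ ∈ A := by
    have h5 : aeval z φ = MvPolynomial.aeval ![U, s, 0] f / U ^ 6 := by
      rw [← h4, mul_div_assoc, div_self (pow_ne_zero _ hU), mul_one]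
    rw [h5]
    exact div_mem hf (pow_mem hUA 6)
  refine ⟨φ.map (algebraMap k A) - C (⟨aeval z φ, hz⟩ : A), ?_, ?_⟩
  · intro h0
    apply h2
    have h6 : φ.natDegree = 0 := by
      rw [← natDegree_map (algebraMap k A), sub_eq_zero.1 h0, natDegree_C]
    rw [eq_C_of_natDegree_eq_zero h6, derivative_C]
  · rw [map_sub, aeval_map_algebraMap, aeval_C]
    exact sub_self _

section

variable {k K Kb M : Type} [Field k] [Field K] [Field Kb] [Field M] [Algebra k K]
  [Algebra k Kb] [Algebra K Kb] [IsScalarTower k K Kb] [Algebra k M] [Algebra K M] [Algebra Kb M]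
  [IsScalarTower k K M] [IsScalarTower k Kb M] [IsScalarTower K Kb M]

omit [Algebra k K] [IsScalarTower k K Kb] [IsScalarTower k K M] in
theorem mem_of_gen (s : K) (S : Finset Kb)
    (hK : ∀ a : K, algebraMap K Kb a ∈
      IntermediateField.adjoin k (insert (algebraMap K Kb s) (S : Set Kb)))
    (B : IntermediateField k M) (hs : algebraMap K M s ∈ B)
    (hS : ∀ z ∈ S, algebraMap Kb M z ∈ B) (a : K) : algebraMap K M a ∈ B := by
  let ι : Kb →ₐ[k] M := IsScalarTower.toAlgHom k Kb M
  have a1 : (IntermediateField.adjoin k (insert (algebraMap K Kb s) (S : Set Kb))).map ι ≤ B := by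
    rw [IntermediateField.adjoin_map, IntermediateField.adjoin_le_iff]
    rintro _ ⟨b, hb, rfl⟩
    rcases hb with rfl | hb
    · show algebraMap Kb M (algebraMap K Kb s) ∈ B
      rw [← IsScalarTower.algebraMap_apply K Kb M s]
      exact hs
    · exact hS b hb
  have a2 := a1 ⟨algebraMap K Kb a, hK a, rfl⟩
  have a3 : algebraMap K M a = ι (algebraMap K Kb a) := IsScalarTower.algebraMap_apply K Kb M a
  rw [a3]
  exact a2

end

/-- the towers over the rational surface -/
theorem sha_H {k K Kb : Type} [Field k] [Finite k] [Field K] [Field Kb] [Algebra k K]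
    [Algebra k Kb] [Algebra K Kb] [IsScalarTower k K Kb] [IsAlgClosed Kb]
    [Algebra.IsAlgebraic K Kb] (p : ℕ) [Fact p.Prime] [CharP k p] (s : K)
    (hs : Transcendental k s) (W : WeierstrassCurve k[X]) (hΔ : W.Δ ≠ 0)
    (e α γ : ℕ) (he : 2 ≤ e) (hek : (e : k) ≠ 0) (hpe : p * e = 6) (h1 : e * α ≤ 42)
    (h2 : p * γ ≤ 42) (h2' : e * (p - 1) * 6 + γ ≤ 42) (h3 : 42 ≤ 7 + α + γ) (hgeo : Geo W)
    (S : Finset Kb)
    (hS : ∀ z ∈ S, ∃ φ F : k[X], AddPoly φ ∧ derivative φ ≠ 0 ∧ F.natDegree ≤ 6 ∧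
      aeval z φ = aeval (algebraMap K Kb s) F)
    (hK : ∀ a : K, algebraMap K Kb a ∈
      IntermediateField.adjoin k (insert (algebraMap K Kb s) (S : Set Kb)))
    (ℓ : ℕ) (hℓ : ℓ.Prime) (hℓk : (ℓ : k) ≠ 0)
    (c : ℕ → (Kb ≃ₐ[K] Kb) → Pts (Ws W s) Kb) (hc : ShaSys (Ws W s) k ℓ c) (n : ℕ) :
    Principal (Ws W s) (T1B.geo k K Kb) (c n) := by
  have hS' : ∀ z ∈ S, ∃ φ F : k[X], φ.natDegree ≠ 0 ∧
      aeval z φ = aeval (algebraMap K Kb s) F := fun z hz => by
    obtain ⟨φ, F, -, a2, -, a4⟩ := hS z hz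
    refine ⟨φ, F, fun h => a2 ?_, a4⟩
    rw [eq_C_of_natDegree_eq_zero h, derivative_C]
  obtain ⟨M, _, _, _, _, x, y, t1, t2, t3, hM, htd, hx, hy, hal⟩ := setup s hs S hS' hK W
  have hsM : Transcendental k (algebraMap K M s) :=
    (transcendental_algebraMap_iff (algebraMap K M).injective).2 hs
  obtain ⟨U, S₁, hU, hS₁, hx₁, hy₁⟩ := hgeo M _ _ hM x y (algebraMap K M s) hsM
    (fun G h => hx (h ▸ (Polynomial.aeval_algebraMap_apply M s G).symm ▸ isAlgebraic_algebraMap _)) hy
  obtain ⟨F, hF⟩ : ∃ F : IntermediateField K M, F = IntermediateField.adjoin K {x, y} := ⟨_, rfl⟩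
  have hxF : x ∈ F := by
    rw [hF]
    exact IntermediateField.subset_adjoin _ _ (by simp)
  have hyF : y ∈ F := by
    rw [hF]
    exact IntermediateField.subset_adjoin _ _ (by simp)
  have hsub : IntermediateField.adjoin k (Set.range ![x, y, algebraMap K M s]) ≤
      F.restrictScalars k := by
    rw [IntermediateField.adjoin_le_iff]
    rintro _ ⟨i, rfl⟩
    fin_cases i
    · exact hxF
    · exact hyF
    · exact F.algebraMap_mem s
  have hFal : ∀ b : M, IsAlgebraic (F.restrictScalars k) b := fun b => by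
    refine algTrans (K := IntermediateField.adjoin k (Set.range ![x, y, algebraMap K M s])) _
      (fun a => ?_) b (hal b)
    exact isAlgebraic_algebraMap (⟨a, hsub a.2⟩ : F.restrictScalars k)
  -- the elements of `M` are algebraic over `k(U, s)`
  have hUal : ∀ b : M, IsAlgebraic
      (IntermediateField.adjoin k (Set.range ![U, algebraMap K M s, 0])) b := by
    obtain ⟨A, hA⟩ : ∃ A, A = IntermediateField.adjoin k (Set.range ![U, algebraMap K M s, 0]) :=
      ⟨_, rfl⟩
    have hxy : ∀ a ∈ IntermediateField.adjoin k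
        (Set.range ![U, algebraMap K M s, 0] ∪ (S₁ : Set M)), IsAlgebraic A a := by
      intro a ha
      refine alg_adjoin A _ ?_ a ha
      rintro b (hb | hb)
      · have hbA : b ∈ A := by
          rw [hA]
          exact IntermediateField.subset_adjoin _ _ hb
        exact isAlgebraic_algebraMap (⟨b, hbA⟩ : A)
      · rw [hA]
        exact (hS₁ b hb).alg hU
    rw [← hA]
    intro b
    refine algTrans (K := IntermediateField.adjoin k (Set.range ![x, y, algebraMap K M s])) A
      (fun a => ?_) b (hal b)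
    refine alg_adjoin A _ ?_ (a : M) a.2
    rintro _ ⟨i, rfl⟩
    fin_cases i
    · exact hxy x hx₁
    · exact hxy y hy₁
    · have hbA : algebraMap K M s ∈ A := by
        rw [hA]
        exact IntermediateField.subset_adjoin _ _ ⟨1, rfl⟩
      exact isAlgebraic_algebraMap (⟨_, hbA⟩ : A)
  -- the field is contained in the tower
  let ι : Kb →ₐ[k] M := IsScalarTower.toAlgHom k Kb M
  obtain ⟨T, hT⟩ : ∃ T : Finset M, T = S₁ ∪ S.image ι := ⟨_, rfl⟩
  obtain ⟨B, hB⟩ : ∃ B : IntermediateField k M, B = IntermediateField.adjoin k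
    (Set.range ![U, algebraMap K M s, 0] ∪ (T : Set M)) := ⟨_, rfl⟩
  have hB₁ : IntermediateField.adjoin k (Set.range ![U, algebraMap K M s, 0] ∪ (S₁ : Set M)) ≤
      B := by
    rw [hB]
    apply IntermediateField.adjoin.mono
    apply Set.union_subset_union_right
    rw [hT, Finset.coe_union]
    exact Set.subset_union_left
  have hKM : ∀ a : K, algebraMap K M a ∈ B := by
    refine mem_of_gen s S hK B ?_ fun z hz => ?_
    · rw [hB]
      exact IntermediateField.subset_adjoin _ _ (Or.inl ⟨1, rfl⟩)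
    · rw [hB]
      refine IntermediateField.subset_adjoin _ _ (Or.inr ?_)
      rw [hT, Finset.coe_union, Finset.coe_image]
      exact Or.inr ⟨z, hz, rfl⟩
  have hle : F.restrictScalars k ≤ B := by
    let B' : IntermediateField K M := B.toSubfield.toIntermediateField hKM
    have hFB : F ≤ B' := by
      rw [hF, IntermediateField.adjoin_le_iff]
      rintro b (rfl | hb)
      · exact hB₁ hx₁
      · rw [Set.mem_singleton_iff.1 hb]
        exact hB₁ hy₁
    exact fun b hb => hFB hb
  -- the theorem on the towers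
  have hX2 : (MvPolynomial.X 2 : MvPolynomial (Fin 3) k) ≠ 0 := MvPolynomial.X_ne_zero _
  have hemt : Emt (F.restrictScalars k) := by
    refine tower_injH p htd ![U, algebraMap K M s, 0] hUal (MvPolynomial.X 2) (MvPolynomial.X 0)
      hX2 ?_ ?_ w42 e α γ 6 0 42 he hek (wle_X _ _) (wle_X _ _) h1 h2 h2' ?_ ?_ T ?_ _
      (hle.trans hB.le) hFal
    · rw [MvPolynomial.aeval_X]
      rfl
    · rw [MvPolynomial.aeval_X]
      exact hU
    · rw [hpe]
      norm_num
    · show 0 + 42 ≤ 6 + 1 + 0 + α + γ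
      omega
    · intro z hz
      rw [hpe]
      rw [hT, Finset.mem_union] at hz
      rcases hz with hz | hz
      · obtain ⟨φ, f, a1, a2, a3, a4⟩ := hS₁ z hz
        refine ⟨φ, f, a1, a2, a3, ?_⟩
        rw [MvPolynomial.aeval_X]
        exact a4
      · obtain ⟨z', hz', rfl⟩ := Finset.mem_image.1 hz
        obtain ⟨φ, G, a1, a2, a3, a4⟩ := hS z' hz'
        refine ⟨φ, aeval (MvPolynomial.X 1) G * MvPolynomial.X 0 ^ 6, a1, a2, ?_, ?_⟩
        · refine (wle_mul _ _ _ _ _ (wle_aeval_X _ 1 G) (wle_X_pow _ 0 6)).trans ?_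
          show G.natDegree * 1 + 6 * 6 ≤ 42
          omega
        · rw [map_mul, map_pow, MvPolynomial.aeval_X, ← Polynomial.aeval_algHom_apply,
            MvPolynomial.aeval_X, Polynomial.aeval_algHom_apply, a4]
          congr 1
          show algebraMap Kb M (aeval (algebraMap K Kb s) G) = aeval (algebraMap K M s) G
          rw [← Polynomial.aeval_algebraMap_apply, ← IsScalarTower.algebraMap_apply K Kb M]
  have hT1 : T1B.T1 k F ℓ := t1_of_emt (F.restrictScalars k) hFal hemt ℓ hℓ hℓk
  exact bridge s hs (alg_K' s S hS' hK) W hΔ x y hx hy F hF ℓ hℓ hℓk hT1 c hc n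

end Pool.Agent.ADH
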