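import Mathlib

/-!
# Coordinates of the curves `y² = x³ + c x² + a₆` in characteristic three
-/

set_option autoImplicit false

namespace Pool.Agent.ADH

open Polynomial

universe u

/-- the curve `y² = x³ + c x² + a` in characteristic three is covered by `w³ - w = - U + a / (c U)³` -/
theorem coords3 {M : Type u} [Field M] [IsAlgClosed M] [CharP M 3] (c a x y : M) (hc : c ≠ 0)
    (ha : a ≠ 0) (hx : y ^ 2 = x ^ 3 + c * x ^ 2 + a) :
    ∃ U w d : M, d ^ 2 = c ∧ U ≠ 0 ∧ x = c * ((w - U) ^ 2 - 1) ∧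
      y = d ^ 3 * U ^ 3 - d * x * (w - U) ∧
      (w ^ 3 - w) * U ^ 6 = -U ^ 7 + (c ^ 3)⁻¹ * a * U ^ 3 ∧
      y * (d ^ 3 * U ^ 3) = -((d ^ 3 * U ^ 3) ^ 2 + a) := by
  have h3 : (3 : M) = 0 := by exact_mod_cast CharP.cast_eq_zero M 3
  obtain ⟨d, hd⟩ := IsAlgClosed.exists_pow_nat_eq c (n := 2) two_pos
  have hd0 : d ≠ 0 := by
    rintro rfl
    apply hc
    rw [← hd]
    ring
  obtain ⟨θ, hθ⟩ := IsAlgClosed.exists_pow_nat_eq (x / c + 1) (n := 2) two_pos
  have hθ' : c * θ ^ 2 = x + c := by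
    rw [hθ]
    field_simp
  obtain ⟨v, hv⟩ : ∃ v, v = y + d * (x * θ) := ⟨_, rfl⟩
  have hvv : v * (y - d * (x * θ)) = a := by
    rw [hv]
    linear_combination hx - x ^ 2 * θ ^ 2 * hd - x ^ 2 * hθ'
  have hv0 : v ≠ 0 := by
    rintro h0
    apply ha
    rw [← hvv, h0, zero_mul]
  obtain ⟨U, hU⟩ := IsAlgClosed.exists_pow_nat_eq (v / d ^ 3) (n := 3) three_pos
  have hU' : d ^ 3 * U ^ 3 = v := by
    rw [hU]
    field_simp
  have hU0 : U ≠ 0 := by
    rintro rfl
    apply hv0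
    rw [← hU']
    ring
  refine ⟨U, θ + U, d, hd, hU0, ?_, ?_, ?_, ?_⟩
  · rw [add_sub_cancel_right]
    linear_combination -hθ'
  · rw [add_sub_cancel_right, hU', hv]
    ring
  · -- `c (θ³ - θ) = x θ`
    have e1 : c * (θ ^ 3 - θ) = x * θ := by linear_combination θ * hθ'
    have e2 : (θ + U) ^ 3 = θ ^ 3 + U ^ 3 := by linear_combination (θ ^ 2 * U + θ * U ^ 2) * h3
    -- `d x θ = (a - v²) / v`
    have e3 : d * (x * θ) * v = a - v ^ 2 := by
      have : v * (y - d * (x * θ)) = a := hvv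
      have hy : y = v - d * (x * θ) := by rw [hv]; ring
      rw [hy] at this
      linear_combination (d * (x * θ) * v) * h3 + this
    have e4 : c ^ 3 = d ^ 6 := by rw [← hd]; ring
    rw [e2, e4]
    have e5 : (d ^ 6)⁻¹ * a * U ^ 3 = (d ^ 3 * (x * θ) * U ^ 3 + d ^ 5 * U ^ 6) * U ^ 3 / d ^ 5 := by
      rw [eq_div_iff (pow_ne_zero _ hd0), mul_assoc, mul_assoc, inv_mul_eq_iff_eq_mul₀
        (pow_ne_zero _ hd0)]
      have e6 : a = d * (x * θ) * v + v ^ 2 := by rw [e3]; ring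
      rw [e6, ← hU']
      ring
    rw [e5, ← e1, ← hd]
    field_simp
    ring
  · rw [hU']
    have hy : y = v - d * (x * θ) := by rw [hv]; ring
    have e3 : d * (x * θ) * v = a - v ^ 2 := by
      have : v * (y - d * (x * θ)) = a := hvv
      rw [hy] at this
      linear_combination (d * (x * θ) * v) * h3 + this
    rw [hy]
    linear_combination (v ^ 2) * h3 - e3

end Pool.Agent.ADH
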