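import Pool.Agent.ADH.T7a
import Pool.Agent.ADH.T8c

/-!
# The curves `y² = x³ + c x² + a₄(s) x + a₆(s)` in characteristic three
-/

set_option autoImplicit false

namespace Pool.Agent.ADH

open Polynomial Pool.Agent.WLD Pool.Agent.ADT Pool.Agent.UQ WeierstrassCurve
  WeierstrassCurve.Affine Pool.Agent.EFF

open scoped Classical

theorem addPoly_three {k : Type} [Field k] [CharP k 3] (c : k) :
    AddPoly (X ^ 3 - C c * X : k[X]) := by
  intro L _ _ a b
  have hL : CharP L 3 := charP_of_injective_algebraMap (algebraMap k L).injective 3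
  have h3 : (3 : L) = 0 := by exact_mod_cast CharP.cast_eq_zero L 3
  simp only [map_sub, map_pow, aeval_X, map_mul, aeval_C]
  linear_combination (a ^ 2 * b + a * b ^ 2) * h3

theorem derivative_three {k : Type} [Field k] [CharP k 3] (c : k) (hc : c ≠ 0) :
    derivative (X ^ 3 - C c * X : k[X]) ≠ 0 := by
  have h3 : (C (3 : k) : k[X]) = 0 := by
    rw [show (3 : k) = 0 by exact_mod_cast CharP.cast_eq_zero k 3, C_0]
  have h : derivative (X ^ 3 - C c * X : k[X]) = -C c := by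
    rw [derivative_sub, derivative_X_pow, derivative_C_mul_X]
    push_cast
    linear_combination (X ^ 2 : k[X]) * h3
  rw [h, neg_ne_zero, C_ne_zero]
  exact hc

/-- the rational surface under the generic fibre, characteristic three -/
theorem geo3 {k : Type} [Field k] [CharP k 3] (W : WeierstrassCurve k[X]) (hΔ : W.Δ ≠ 0)
    (w1 : W.a₁ = 0) (w3 : W.a₃ = 0) (d4 : W.a₄.natDegree ≤ 12) (c : k) (hc : c ≠ 0)
    (w2 : W.a₂ = C c) (d6 : W.a₆.natDegree ≤ 24) : Geo W := by
  intro M _ _ _ x y s hs _ hxy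
  have hCM : CharP M 3 := charP_of_injective_algebraMap (algebraMap k M).injective 3
  have h3 : (3 : M) = 0 := by exact_mod_cast CharP.cast_eq_zero M 3
  have h3X : (3 : k[X]) = 0 := by
    have h : (C (3 : k) : k[X]) = 0 := by
      rw [show (3 : k) = 0 by exact_mod_cast CharP.cast_eq_zero k 3, C_0]
    exact_mod_cast h
  have hcM : algebraMap k M c ≠ 0 := (_root_.map_ne_zero _).2 hc
  obtain ⟨P, hP⟩ : ∃ P, P = C c⁻¹ * W.a₄ := ⟨_, rfl⟩
  have w4 : W.a₄ = C c * P := by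
    rw [hP, ← mul_assoc, ← C_mul, mul_inv_cancel₀ hc, C_1, one_mul]
  have dP : P.natDegree ≤ 12 := by
    rw [hP]
    exact (natDegree_C_mul_le _ _).trans d4
  obtain ⟨G, hG⟩ : ∃ G, G = W.a₆ + C (2 * c) * P ^ 2 := ⟨_, rfl⟩
  have dG : G.natDegree ≤ 24 := by
    rw [hG]
    refine (natDegree_add_le _ _).trans (max_le d6 ((natDegree_C_mul_le _ _).trans ?_))
    exact natDegree_pow_le.trans (Nat.mul_le_mul_left 2 dP)
  have ha0 : G + P ^ 3 ≠ 0 := by
    intro h
    apply hΔ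
    rw [WeierstrassCurve.Δ, WeierstrassCurve.b₂, WeierstrassCurve.b₄, WeierstrassCurve.b₆,
      WeierstrassCurve.b₈, w1, w3, w4, w2]
    rw [hG, C_mul, show (C 2 : k[X]) = 2 from rfl] at h
    linear_combination - C c ^ 3 * h + (6 * C c ^ 4 * P ^ 2 - 21 * C c ^ 3 * P ^ 3
      - 21 * C c ^ 3 * W.a₆ + 96 * C c ^ 2 * P * W.a₆ - 144 * W.a₆ ^ 2) * h3X
  have ha : aeval s (G + P ^ 3) ≠ 0 := fun h => hs ⟨_, ha0, h⟩
  obtain ⟨e, he⟩ : ∃ e, e = aeval s P := ⟨_, rfl⟩
  obtain ⟨x', hx'⟩ : ∃ x', x' = x - e := ⟨_, rfl⟩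
  have heq : y ^ 2 = x' ^ 3 + algebraMap k M c * x' ^ 2 + aeval s (G + P ^ 3) := by
    rw [aeval_wpoly, w1, w3, w4, w2] at hxy
    simp only [Matrix.cons_val_zero, Matrix.cons_val_one, Matrix.cons_val, map_zero, aeval_C,
      map_mul, ← he] at hxy
    rw [hG, hx', map_add, map_add, map_mul, map_pow, map_pow, ← he, aeval_C, map_mul, map_ofNat]
    linear_combination hxy + (x ^ 2 * e + x * algebraMap k M c * e - x * e ^ 2
      - algebraMap k M c * e ^ 2) * h3
  obtain ⟨U, w₀, d, hd, hU0, hx, hy, hw, -⟩ :=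
    coords3 (algebraMap k M c) (aeval s (G + P ^ 3)) x' y hcM ha heq
  obtain ⟨w, hw'⟩ : ∃ w, w = w₀ - e / (algebraMap k M c * U) := ⟨_, rfl⟩
  have key : (w ^ 3 - w) * U ^ 6 = -U ^ 7 + (algebraMap k M c ^ 3)⁻¹ * aeval s G * U ^ 3 +
      (algebraMap k M c)⁻¹ * e * U ^ 5 := by
    have h4 : w₀ = w + e / (algebraMap k M c * U) := by
      rw [hw']
      ring
    have h5 : (w + e / (algebraMap k M c * U)) ^ 3 = w ^ 3 + (e / (algebraMap k M c * U)) ^ 3 := by
      linear_combination (w ^ 2 * (e / (algebraMap k M c * U)) +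
        w * (e / (algebraMap k M c * U)) ^ 2) * h3
    rw [h4, h5, map_add, map_pow, ← he] at hw
    have h6 : (e / (algebraMap k M c * U)) ^ 3 * U ^ 6 =
        (algebraMap k M c ^ 3)⁻¹ * e ^ 3 * U ^ 3 := by
      field_simp
    have h7 : e / (algebraMap k M c * U) * U ^ 6 = (algebraMap k M c)⁻¹ * e * U ^ 5 := by
      field_simp
    linear_combination hw - h6 + h7
  have hX1 : ∀ G : k[X], MvPolynomial.aeval ![U, s, 0]
      (aeval (MvPolynomial.X 1 : MvPolynomial (Fin 3) k) G) = aeval s G := by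
    intro G
    rw [← Polynomial.aeval_algHom_apply, MvPolynomial.aeval_X]
    rfl
  have hX0 : MvPolynomial.aeval ![U, s, 0] (MvPolynomial.X 0 : MvPolynomial (Fin 3) k) = U := by
    rw [MvPolynomial.aeval_X]
    rfl
  obtain ⟨E, hE⟩ : ∃ E : IntermediateField k M, E = IntermediateField.adjoin k
    (Set.range ![U, s, 0] ∪ (({w, d} : Finset M) : Set M)) := ⟨_, rfl⟩
  have hUE : U ∈ E := by
    rw [hE]
    exact IntermediateField.subset_adjoin _ _ (Or.inl ⟨0, rfl⟩)
  have hsE : s ∈ E := by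
    rw [hE]
    exact IntermediateField.subset_adjoin _ _ (Or.inl ⟨1, rfl⟩)
  have hwE : w ∈ E := by
    rw [hE]
    exact IntermediateField.subset_adjoin _ _ (Or.inr (by simp))
  have hdE : d ∈ E := by
    rw [hE]
    exact IntermediateField.subset_adjoin _ _ (Or.inr (by simp))
  have heE : e ∈ E := by
    have h1 : aeval s P ∈ Algebra.adjoin k ({s} : Set M) :=
      Polynomial.aeval_mem_adjoin_singleton k s
    have h2 : Algebra.adjoin k ({s} : Set M) ≤ E.toSubalgebra :=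
      Algebra.adjoin_le (by simpa using hsE)
    rw [he]
    exact h2 h1
  have hw0E : w₀ ∈ E := by
    have h4 : w₀ = w + e / (algebraMap k M c * U) := by
      rw [hw']
      ring
    rw [h4]
    exact add_mem hwE (div_mem heE (mul_mem (E.algebraMap_mem c) hUE))
  have hxE' : x' ∈ E := by
    rw [hx]
    exact mul_mem (E.algebraMap_mem c) (sub_mem (pow_mem (sub_mem hw0E hUE) 2) (one_mem _))
  have hxE : x ∈ E := by
    have h4 : x = x' + e := by
      rw [hx']
      ring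
    rw [h4]
    exact add_mem hxE' heE
  refine ⟨U, {w, d}, hU0, ?_, ?_, ?_⟩
  · intro z hz
    rw [Finset.mem_insert, Finset.mem_singleton] at hz
    rcases hz with rfl | rfl
    · refine ⟨X ^ 3 - C 1 * X, MvPolynomial.C ((c ^ 3)⁻¹) * (aeval (MvPolynomial.X 1) G *
        MvPolynomial.X 0 ^ 3) + MvPolynomial.C (c⁻¹) * (aeval (MvPolynomial.X 1) P *
        MvPolynomial.X 0 ^ 5) - MvPolynomial.X 0 ^ 7, addPoly_three 1,
        derivative_three 1 one_ne_zero, ?_, ?_⟩
      · refine wle_sub _ _ _ _ (wle_add _ _ _ _ ?_ ?_) ?_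
        · refine (wle_mul _ _ _ 0 42 (wle_C _ _) ?_).trans (by norm_num)
          refine (wle_mul _ _ _ _ _ (wle_aeval_X _ 1 G) (wle_X_pow _ 0 3)).trans ?_
          show G.natDegree * 1 + 3 * 6 ≤ 42
          omega
        · refine (wle_mul _ _ _ 0 42 (wle_C _ _) ?_).trans (by norm_num)
          refine (wle_mul _ _ _ _ _ (wle_aeval_X _ 1 P) (wle_X_pow _ 0 5)).trans ?_
          show P.natDegree * 1 + 5 * 6 ≤ 42
          omega
        · exact (wle_X_pow w42 0 7).trans (le_of_eq rfl)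
      · have e1 : aeval z (X ^ 3 - C 1 * X : k[X]) = z ^ 3 - z := by
          rw [map_sub, map_pow, map_mul, aeval_X, aeval_C, map_one, one_mul]
        have e2 : MvPolynomial.aeval ![U, s, 0] (MvPolynomial.C ((c ^ 3)⁻¹) *
            (aeval (MvPolynomial.X 1) G * MvPolynomial.X 0 ^ 3) + MvPolynomial.C (c⁻¹) *
            (aeval (MvPolynomial.X 1) P * MvPolynomial.X 0 ^ 5) - MvPolynomial.X 0 ^ 7) =
            (algebraMap k M c ^ 3)⁻¹ * (aeval s G * U ^ 3) +
            (algebraMap k M c)⁻¹ * (e * U ^ 5) - U ^ 7 := by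
          rw [map_sub, map_add, map_mul, map_mul, map_mul, map_mul, map_pow, map_pow, map_pow,
            hX0, hX1, hX1, MvPolynomial.aeval_C, MvPolynomial.aeval_C, map_inv₀, map_inv₀,
            map_pow, ← he]
        rw [e1, e2, key]
        ring
    · refine ⟨X ^ 3 - C c * X, 0, addPoly_three c, derivative_three c hc, ?_, ?_⟩
      · rw [MvPolynomial.weightedTotalDegree_zero]
        exact Nat.zero_le _
      · rw [map_zero, map_sub, map_pow, map_mul, aeval_X, aeval_C, ← hd]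
        ring
  · rw [← hE]
    exact hxE
  · rw [← hE, hy]
    exact sub_mem (mul_mem (pow_mem hdE _) (pow_mem hUE _))
      (mul_mem (mul_mem hdE hxE') (sub_mem hw0E hUE))

/-- the curves `y ^ 2 = x ^ 3 + c x ^ 2 + a₄(s) x + a₆(s)` of characteristic three -/
theorem sha_C3 {k K Kb : Type} [Field k] [Finite k] [Field K] [Field Kb] [Algebra k K]
    [Algebra k Kb] [Algebra K Kb] [IsScalarTower k K Kb] [IsAlgClosed Kb]
    [Algebra.IsAlgebraic K Kb] [CharP k 3] (s : K)
    (hs : Transcendental k s) (W : WeierstrassCurve k[X]) (hΔ : W.Δ ≠ 0)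
    (w1 : W.a₁ = 0) (w3 : W.a₃ = 0) (d4 : W.a₄.natDegree ≤ 12) (b : k) (hb : b ≠ 0)
    (w2 : W.a₂ = C b) (d6 : W.a₆.natDegree ≤ 24) (S : Finset Kb)
    (hS : ∀ z ∈ S, ∃ φ F : k[X], AddPoly φ ∧ derivative φ ≠ 0 ∧ F.natDegree ≤ 6 ∧
      aeval z φ = aeval (algebraMap K Kb s) F)
    (hK : ∀ a : K, algebraMap K Kb a ∈
      IntermediateField.adjoin k (insert (algebraMap K Kb s) (S : Set Kb)))
    (ℓ : ℕ) (hℓ : ℓ.Prime) (hℓk : (ℓ : k) ≠ 0)
    (c : ℕ → (Kb ≃ₐ[K] Kb) → Pts (Ws W s) Kb) (hc : ShaSys (Ws W s) k ℓ c) (n : ℕ) :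
    Principal (Ws W s) (T1B.geo k K Kb) (c n) := by
  have hp : Fact (Nat.Prime 3) := ⟨Nat.prime_three⟩
  have h2 : ((2 : ℕ) : k) ≠ 0 := by
    intro h
    have h4 := (CharP.cast_eq_zero_iff k 3 2).1 h
    omega
  exact sha_H 3 s hs W hΔ 2 21 14 (by norm_num) h2 (by norm_num) (by norm_num) (by norm_num)
    (by norm_num) (by norm_num) (geo3 W hΔ w1 w3 d4 b hb w2 d6) S hS hK ℓ hℓ hℓk c hc n

end Pool.Agent.ADH
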