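import Pool.Agent.ADT.T3
import Pool.Agent.ADH.T9c

/-!
# Elliptic curves `y ^ 2 = x ^ 3 + c s ^ 5 x ^ 2 + s ^ 4 f(s) x + s ^ 3 g(s)` of characteristic three

With `x' = s x` and `z = y / s ^ 3` the equation becomes
`z ^ 2 = (x' / s ^ 3) ^ 3 + (c x' ^ 2 + f x' + g) / s ^ 3`.
-/

set_option autoImplicit false

namespace Pool.Agent.ADH

open Polynomial Pool.Agent.TUQ Pool.Agent.WLD Pool.Agent.ADT Pool.Agent.UQ WeierstrassCurve
  WeierstrassCurve.Affine Pool.Agent.EFF

open scoped Classical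

/-- the weights of `x'`, `s` -/
abbrev w24 : Fin 3 → ℕ := ![12, 1, 0]

section

variable {k M : Type} [Field k] [Field M] [Algebra k M]

/-- the function field of the surface -/
theorem emt_D [IsAlgClosed M] [CharP k 3] (htd : Algebra.trdeg k M = 2) (x s z : M) (hs : s ≠ 0)
    (c : k) (f g : k[X]) (df : f.natDegree ≤ 12) (dg : g.natDegree ≤ 24)
    (hz : z ^ 2 * s ^ 9 = x ^ 3 + s ^ 6 * (algebraMap k M c * x ^ 2 + aeval s f * x + aeval s g))
    (hal : ∀ b : M, IsAlgebraic (IntermediateField.adjoin k (Set.range ![x, s, 0])) b) :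
    Emt (IntermediateField.adjoin k (Set.range ![x, s, 0]) ⊔ IntermediateField.adjoin k {z}) := by
  have hp : Fact (Nat.Prime 3) := ⟨Nat.prime_three⟩
  have h2 : ((2 : ℕ) : k) ≠ 0 := by
    intro h
    have h4 := (CharP.cast_eq_zero_iff k 3 2).1 h
    omega
  obtain ⟨A, hA⟩ : ∃ A, A = IntermediateField.adjoin k (Set.range ![x, s, 0]) := ⟨_, rfl⟩
  have hX2 : (MvPolynomial.X 2 : MvPolynomial (Fin 3) k) ≠ 0 := MvPolynomial.X_ne_zero _
  have hE : Emt (IntermediateField.adjoin k (Set.range ![x, s, 0])) := by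
    refine emt_hyper htd ⊥ IntermediateField.fg_bot ![x, s, 0] ?_ _ (bot_sup_eq _).symm hal
      (MvPolynomial.X 2) ?_ ?_ ![1, 1, 0] ?_
    · have h1 : Algebra.IsAlgebraic k (⊥ : IntermediateField k M) := inferInstance
      rw [trdeg_eq_zero_iff.2 h1]
      norm_num
    · exact MvPolynomial.X_ne_zero _
    · rw [MvPolynomial.aeval_X]
      rfl
    · refine lt_of_le_of_lt (wle_X _ _) ?_
      decide
  have hxA : x ∈ A := by
    rw [hA]
    exact IntermediateField.subset_adjoin _ _ ⟨0, rfl⟩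
  have hsA : s ∈ A := by
    rw [hA]
    exact IntermediateField.subset_adjoin _ _ ⟨1, rfl⟩
  have hpA : ∀ q : k[X], aeval s q ∈ A := by
    intro q
    have h1 : aeval s q ∈ Algebra.adjoin k ({s} : Set M) :=
      Polynomial.aeval_mem_adjoin_singleton k s
    have h3 : Algebra.adjoin k ({s} : Set M) ≤ A.toSubalgebra :=
      Algebra.adjoin_le (by simpa using hsA)
    exact h3 h1
  have hzA : z ^ 2 ∈ A := by
    have h1 : z ^ 2 = (x ^ 3 + s ^ 6 * (algebraMap k M c * x ^ 2 + aeval s f * x + aeval s g)) /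
        s ^ 9 := by
      rw [← hz, mul_div_assoc, div_self (pow_ne_zero _ hs), mul_one]
    rw [h1]
    exact div_mem (add_mem (pow_mem hxA _) (mul_mem (pow_mem hsA _) (add_mem (add_mem
      (mul_mem (A.algebraMap_mem c) (pow_mem hxA _)) (mul_mem (hpA f) hxA)) (hpA g))))
      (pow_mem hsA _)
  by_cases hzA' : z ∈ A
  · have h1 : IntermediateField.adjoin k (Set.range ![x, s, 0]) ⊔
        IntermediateField.adjoin k {z} = IntermediateField.adjoin k (Set.range ![x, s, 0]) := by
      refine sup_eq_left.2 ?_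
      rw [IntermediateField.adjoin_le_iff, ← hA]
      rintro y rfl
      exact hzA'
    rw [h1]
    exact hE
  · have z0 : z ≠ 0 := by
      rintro rfl
      exact hzA' A.zero_mem
    rw [hA] at hzA hzA'
    have irr : Irreducible (X ^ 2 - C (⟨z ^ 2, hzA⟩ :
        IntermediateField.adjoin k (Set.range ![x, s, 0]))) := by
      rw [X_pow_sub_C_irreducible_iff_of_prime Nat.prime_two]
      intro b hb
      have h1 : (b : M) ^ 2 = z ^ 2 := congrArg Subtype.val hb
      rcases sq_eq_sq_iff_eq_or_eq_neg.1 h1 with h3 | h3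
      · exact hzA' (h3 ▸ b.2)
      · have h4 : z = -(b : M) := by rw [h3, neg_neg]
        exact hzA' (h4 ▸ neg_mem b.2)
    have hX1 : ∀ q : k[X], MvPolynomial.aeval ![x, s, 0]
        (aeval (MvPolynomial.X 1 : MvPolynomial (Fin 3) k) q) = aeval s q := by
      intro q
      rw [← Polynomial.aeval_algHom_apply, MvPolynomial.aeval_X]
      rfl
    have e0 : MvPolynomial.aeval ![x, s, 0] (MvPolynomial.X 0 : MvPolynomial (Fin 3) k) = x := by
      rw [MvPolynomial.aeval_X]
      rfl
    have e1 : MvPolynomial.aeval ![x, s, 0] (MvPolynomial.X 1 : MvPolynomial (Fin 3) k) = s := by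
      rw [MvPolynomial.aeval_X]
      rfl
    refine emt_P 3 le_rfl htd ![x, s, 0] hal (MvPolynomial.X 2) (MvPolynomial.X 0)
      (MvPolynomial.C c * MvPolynomial.X 0 ^ 2 + aeval (MvPolynomial.X 1) f * MvPolynomial.X 0 +
        aeval (MvPolynomial.X 1) g) (MvPolynomial.X 1) hX2 ?_ ?_ 2 3 h2 (by norm_num) le_rfl z z0
      hzA irr ?_ w24 3 8 1 0 24 (wle_X _ _) (wle_X _ _) ?_ ?_ (by norm_num) (by norm_num)
      (by norm_num) ?_ hE
    · rw [MvPolynomial.aeval_X]
      rfl
    · rw [e1]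
      exact hs
    · rw [e1, e0]
      simp only [map_add, map_mul, map_pow, MvPolynomial.aeval_C, e0, hX1]
      exact hz
    · have h1 := wle_X (k := k) w24 0
      have h3 : w24 0 = 12 := rfl
      omega
    · refine wle_add _ _ _ _ (wle_add _ _ _ _ ?_ ?_) ?_
      · refine (wle_mul _ _ _ 0 24 (wle_C _ _) ((wle_X_pow w24 0 2).trans (le_of_eq rfl))).trans
          (le_of_eq rfl)
      · refine (wle_mul _ _ _ _ _ (wle_aeval_X _ 1 f) (wle_X w24 0)).trans ?_
        show f.natDegree * 1 + 12 ≤ 24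
        omega
      · refine (wle_aeval_X w24 1 g).trans ?_
        show g.natDegree * 1 ≤ 24
        omega
    · show 0 + 24 ≤ 12 + 1 + 0 + 3 + 8
      norm_num

end

/-- the curves `y ^ 2 = x ^ 3 + c s ^ 5 x ^ 2 + s ^ 4 f(s) x + s ^ 3 g(s)` -/
theorem sha_D3 {k K Kb : Type} [Field k] [Finite k] [Field K] [Field Kb] [Algebra k K]
    [Algebra k Kb] [Algebra K Kb] [IsScalarTower k K Kb] [IsAlgClosed Kb]
    [Algebra.IsAlgebraic K Kb] [CharP k 3] (s : K)
    (hs : Transcendental k s) (W : WeierstrassCurve k[X]) (hΔ : W.Δ ≠ 0)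
    (w1 : W.a₁ = 0) (w3 : W.a₃ = 0) (a : k) (w2 : W.a₂ = C a * X ^ 5) (f g : k[X])
    (w4 : W.a₄ = X ^ 4 * f) (df : f.natDegree ≤ 12) (w6 : W.a₆ = X ^ 3 * g)
    (dg : g.natDegree ≤ 24) (hK : IntermediateField.adjoin k {s} = ⊤)
    (ℓ : ℕ) (hℓ : ℓ.Prime) (hℓk : (ℓ : k) ≠ 0)
    (c : ℕ → (Kb ≃ₐ[K] Kb) → Pts (Ws W s) Kb) (hc : ShaSys (Ws W s) k ℓ c) (n : ℕ) :
    Principal (Ws W s) (T1B.geo k K Kb) (c n) := by
  have hS : ∀ z ∈ (∅ : Finset Kb), ∃ φ F : k[X], φ.natDegree ≠ 0 ∧
      aeval z φ = aeval (algebraMap K Kb s) F := fun z hz => absurd hz (Finset.notMem_empty z)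
  have hK' : ∀ b : K, algebraMap K Kb b ∈ IntermediateField.adjoin k
      (insert (algebraMap K Kb s) ((∅ : Finset Kb) : Set Kb)) := by
    intro b
    let ι : K →ₐ[k] Kb := IsScalarTower.toAlgHom k K Kb
    have h1 : (IntermediateField.adjoin k {s}).map ι ≤ IntermediateField.adjoin k
        (insert (algebraMap K Kb s) ((∅ : Finset Kb) : Set Kb)) := by
      rw [IntermediateField.adjoin_map, Set.image_singleton, IntermediateField.adjoin_le_iff,
        Set.singleton_subset_iff]
      exact IntermediateField.subset_adjoin _ _ (Or.inl rfl)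
    exact h1 ⟨b, by rw [hK]; exact IntermediateField.mem_top, rfl⟩
  obtain ⟨M, _, _, _, _, x, y, t1, t2, t3, hM, htd, hx, hy, hal⟩ := setup s hs ∅ hS hK' W
  have hsM : Transcendental k (algebraMap K M s) :=
    (transcendental_algebraMap_iff (algebraMap K M).injective).2 hs
  obtain ⟨t, ht⟩ : ∃ t, t = algebraMap K M s := ⟨_, rfl⟩
  rw [← ht] at hsM
  have ht0 : t ≠ 0 := by
    rintro rfl
    exact hsM isAlgebraic_zero
  have heq : y ^ 2 = x ^ 3 + algebraMap k M a * t ^ 5 * x ^ 2 + t ^ 4 * aeval t f * x +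
      t ^ 3 * aeval t g := by
    have h1 := hy
    rw [aeval_wpoly, w1, w3, w4, w2, w6] at h1
    simp only [Matrix.cons_val_zero, Matrix.cons_val_one, Matrix.cons_val, map_zero, aeval_C,
      map_mul, map_pow, aeval_X, ← ht] at h1
    linear_combination h1
  obtain ⟨z, hz⟩ : ∃ z, z = y / t ^ 3 := ⟨_, rfl⟩
  have hyz : y = z * t ^ 3 := by
    rw [hz, div_mul_cancel₀ _ (pow_ne_zero _ ht0)]
  have hz2 : z ^ 2 * t ^ 9 = (t * x) ^ 3 + t ^ 6 * (algebraMap k M a * (t * x) ^ 2 +
      aeval t f * (t * x) + aeval t g) := by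
    rw [hyz] at heq
    linear_combination t ^ 3 * heq
  obtain ⟨A, hA⟩ : ∃ A, A = IntermediateField.adjoin k (Set.range ![t * x, t, 0]) := ⟨_, rfl⟩
  have htA : t ∈ A := by
    rw [hA]
    exact IntermediateField.subset_adjoin _ _ ⟨1, rfl⟩
  have hxA : x ∈ A := by
    have h1 : t * x ∈ A := by
      rw [hA]
      exact IntermediateField.subset_adjoin _ _ ⟨0, rfl⟩
    have h3 := div_mem h1 htA
    rwa [mul_div_cancel_left₀ _ ht0] at h3
  have hpA : ∀ q : k[X], aeval t q ∈ A := by
    intro q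
    have h1 : aeval t q ∈ Algebra.adjoin k ({t} : Set M) :=
      Polynomial.aeval_mem_adjoin_singleton k t
    have h3 : Algebra.adjoin k ({t} : Set M) ≤ A.toSubalgebra :=
      Algebra.adjoin_le (by simpa using htA)
    exact h3 h1
  have hyA : IsAlgebraic A y := by
    have h1 : y ^ 2 ∈ A := by
      rw [heq]
      exact add_mem (add_mem (add_mem (pow_mem hxA _) (mul_mem (mul_mem (A.algebraMap_mem a)
        (pow_mem htA _)) (pow_mem hxA _))) (mul_mem (mul_mem (pow_mem htA _) (hpA f)) hxA))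
        (mul_mem (pow_mem htA _) (hpA g))
    refine ⟨X ^ 2 - C (⟨y ^ 2, h1⟩ : A), X_pow_sub_C_ne_zero (by norm_num) _, ?_⟩
    rw [map_sub, map_pow, aeval_X, aeval_C]
    exact sub_self _
  have hal' : ∀ b : M, IsAlgebraic (IntermediateField.adjoin k (Set.range ![t * x, t, 0])) b := by
    rw [← hA]
    intro b
    refine algTrans (K := IntermediateField.adjoin k (Set.range ![x, y, algebraMap K M s])) A
      (fun b => ?_) b (hal b)
    refine alg_adjoin A _ ?_ (b : M) b.2
    rintro _ ⟨i, rfl⟩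
    fin_cases i
    · exact isAlgebraic_algebraMap (⟨x, hxA⟩ : A)
    · exact hyA
    · show IsAlgebraic A (algebraMap K M s)
      rw [← ht]
      exact isAlgebraic_algebraMap (⟨t, htA⟩ : A)
  have hE := emt_D htd (t * x) t z ht0 a f g df dg hz2 hal'
  obtain ⟨F, hF⟩ : ∃ F : IntermediateField K M, F = IntermediateField.adjoin K {x, y} := ⟨_, rfl⟩
  have hxF : x ∈ F := by
    rw [hF]
    exact IntermediateField.subset_adjoin _ _ (by simp)
  have hyF : y ∈ F := by
    rw [hF]
    exact IntermediateField.subset_adjoin _ _ (by simp)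
  have hsub : IntermediateField.adjoin k (Set.range ![x, y, algebraMap K M s]) ≤
      F.restrictScalars k := by
    rw [IntermediateField.adjoin_le_iff]
    rintro _ ⟨i, rfl⟩
    fin_cases i
    · exact hxF
    · exact hyF
    · exact F.algebraMap_mem s
  have hFal : ∀ b : M, IsAlgebraic (F.restrictScalars k) b := fun b => by
    refine algTrans (K := IntermediateField.adjoin k (Set.range ![x, y, algebraMap K M s])) _
      (fun a => ?_) b (hal b)
    exact isAlgebraic_algebraMap (⟨a, hsub a.2⟩ : F.restrictScalars k)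
  obtain ⟨B, hB⟩ : ∃ B, B = IntermediateField.adjoin k (Set.range ![t * x, t, 0]) ⊔
      IntermediateField.adjoin k {z} := ⟨_, rfl⟩
  have hAB : A ≤ B := by
    rw [hA, hB]
    exact le_sup_left
  have hzB : z ∈ B := by
    rw [hB]
    exact (le_sup_right : IntermediateField.adjoin k {z} ≤ _)
      (IntermediateField.subset_adjoin _ _ rfl)
  have hyB : y ∈ B := by
    rw [hyz]
    exact mul_mem hzB (pow_mem (hAB htA) _)
  have hKM : ∀ b : K, algebraMap K M b ∈ B := by
    intro b
    let ι : K →ₐ[k] M := IsScalarTower.toAlgHom k K M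
    have h1 : (IntermediateField.adjoin k {s}).map ι ≤ B := by
      rw [IntermediateField.adjoin_map, Set.image_singleton, IntermediateField.adjoin_le_iff,
        Set.singleton_subset_iff]
      show algebraMap K M s ∈ B
      rw [← ht]
      exact hAB htA
    exact h1 ⟨b, by rw [hK]; exact IntermediateField.mem_top, rfl⟩
  have hle : F.restrictScalars k ≤ B := by
    let B' : IntermediateField K M := B.toSubfield.toIntermediateField hKM
    have hFB : F ≤ B' := by
      rw [hF, IntermediateField.adjoin_le_iff]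
      rintro b (rfl | hb)
      · exact hAB hxA
      · rw [Set.mem_singleton_iff.1 hb]
        exact hyB
    exact fun b hb => hFB hb
  have hBfg : B.FG := by
    rw [hB]
    exact IntermediateField.fg_sup
      ⟨Finset.univ.image ![t * x, t, 0], by
        rw [Finset.coe_image, Finset.coe_univ, Set.image_univ]⟩ ⟨{z}, by simp⟩
  have hemt : Emt (F.restrictScalars k) := by
    refine emt_of_inj (K' := B) (ι := Unit) (fun ℓ hℓ => vl_res _ _ hle hBfg hFal hℓ)
      (fun _ => B) (fun ℓ _ _ => ⟨MonoidHom.pi fun _ => MonoidHom.id _,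
        fun _ _ h => congrFun h ()⟩) fun _ => ?_
    rw [hB]
    exact hE
  have hT1 : T1B.T1 k F ℓ := t1_of_emt (F.restrictScalars k) hFal hemt ℓ hℓ hℓk
  exact bridge s hs (alg_K' s ∅ hS hK') W hΔ x y hx hy F hF ℓ hℓ hℓk hT1 c hc n

end Pool.Agent.ADH
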