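import Pool.Agent.ADH.A2
import Pool.Agent.KTW.E3

/-!
# Kummer extensions of characteristic `p` and the curve `U ^ N = a ^ p - a`

The function `b = (a ^ p - a) (a + 1) ^ (N n)`, `N n = 1` in `F_p`, has zeros and poles whose orders
are prime to `p` and `N`.
-/

set_option autoImplicit false

namespace Pool.Agent.ADH

open Polynomial Pool.Agent.TBR Pool.Agent.TUQ Pool.Agent.UQ Pool.Agent.WLD Pool.Agent.ADT
  Pool.Agent.KTW

universe u

section Base

/-- existence of the threefold `w ^ N B₁(a) = F B₂(a)` -/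
theorem ext_exists {κ : Type u} [Field κ] {K₀ : Type u} [Field K₀] [Algebra κ K₀] (N : ℕ)
    (hN : 0 < N) (B₁ B₂ : κ[X]) (hB : B₁ ≠ 0) (F : K₀) :
    ∃ (L : Type u) (_ : Field L) (_ : Algebra κ L) (_ : Algebra K₀ L) (_ : IsScalarTower κ K₀ L)
      (a w : L), Transcendental K₀ a ∧ w ^ N * aeval a B₁ = algebraMap K₀ L F * aeval a B₂ ∧
        IntermediateField.adjoin K₀ {a, w} = ⊤ := by
  let Ω := AlgebraicClosure (RatFunc K₀)
  let a : Ω := algebraMap (RatFunc K₀) Ω RatFunc.X
  have ha : Transcendental K₀ a := by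
    have h1 : Transcendental K₀ (RatFunc.X : RatFunc K₀) := RatFunc.transcendental_X
    exact (transcendental_algebraMap_iff (algebraMap (RatFunc K₀) Ω).injective).2 h1
  obtain ⟨b₁, hb₁⟩ : ∃ b₁ : Ω, b₁ = aeval a (B₁.map (algebraMap κ K₀)) := ⟨_, rfl⟩
  obtain ⟨b₂, hb₂⟩ : ∃ b₂ : Ω, b₂ = aeval a (B₂.map (algebraMap κ K₀)) := ⟨_, rfl⟩
  have h1a : b₁ ≠ 0 := by
    intro h
    apply ha
    exact ⟨_, (Polynomial.map_ne_zero_iff (algebraMap κ K₀).injective).2 hB, by rw [← hb₁, h]⟩
  obtain ⟨w, hw⟩ := IsAlgClosed.exists_pow_nat_eq (algebraMap K₀ Ω F * b₂ / b₁) hN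
  let L := IntermediateField.adjoin K₀ {a, w}
  have haL : a ∈ L := IntermediateField.subset_adjoin _ _ (Or.inl rfl)
  have hwL : w ∈ L := IntermediateField.subset_adjoin _ _ (Or.inr rfl)
  let algL : Algebra κ L := ((algebraMap K₀ L).comp (algebraMap κ K₀)).toAlgebra
  have tow : IsScalarTower κ K₀ L := IsScalarTower.of_algebraMap_eq (fun _ => rfl)
  have hval : ∀ B : κ[X], ((aeval (⟨a, haL⟩ : L) B : L) : Ω) =
      aeval a (B.map (algebraMap κ K₀)) := by
    intro B
    have h2 : aeval (⟨a, haL⟩ : L) B = aeval (⟨a, haL⟩ : L) (B.map (algebraMap κ K₀)) :=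
      (aeval_map_algebraMap K₀ _ B).symm
    rw [h2]
    exact (Polynomial.aeval_algebraMap_apply (R := K₀) (A := L) Ω _ _).symm
  refine ⟨L, inferInstance, algL, inferInstance, tow, ⟨a, haL⟩, ⟨w, hwL⟩, ?_, ?_, ?_⟩
  · have := (transcendental_algebraMap_iff (R := K₀) (S := L) (A := Ω) (a := ⟨a, haL⟩)
      (algebraMap L Ω).injective).1 ha
    exact this
  · apply Subtype.ext
    show w ^ N * ((aeval (⟨a, haL⟩ : L) B₁ : L) : Ω) =
      algebraMap K₀ Ω F * ((aeval (⟨a, haL⟩ : L) B₂ : L) : Ω)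
    rw [hval, hval, hw, ← hb₁, ← hb₂, div_mul_cancel₀ _ h1a]
  · apply IntermediateField.lift_injective L
    rw [IntermediateField.lift_adjoin, IntermediateField.lift_top, Set.image_pair]

/-- the transcendence degree does not change in an algebraic extension -/
theorem trdeg_of_sub {k L Ω : Type u} [Field k] [Field L] [Field Ω] [Algebra k L]
    [Algebra k Ω] [Algebra L Ω] [IsScalarTower k L Ω] [Algebra.IsAlgebraic L Ω]
    (L' : IntermediateField k Ω) (h : ∀ b : L, algebraMap L Ω b ∈ L') :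
    Algebra.trdeg k L' = Algebra.trdeg k L := by
  let ι : L →ₐ[k] L' := (IsScalarTower.toAlgHom k L Ω).codRestrict L'.toSubalgebra h
  have h1 : Algebra.IsAlgebraic L' Ω := by
    constructor
    intro x
    obtain ⟨q, hq, hqx⟩ := Algebra.IsAlgebraic.isAlgebraic (R := L) x
    refine ⟨q.map ι.toRingHom, (Polynomial.map_ne_zero_iff ι.toRingHom.injective).2 hq, ?_⟩
    rw [Polynomial.aeval_def, Polynomial.eval₂_map]
    exact hqx
  have h2 := _root_.trdeg_add_eq k L (A := Ω)
  have h3 := _root_.trdeg_add_eq k L' (A := Ω)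
  have h4 : Algebra.trdeg L Ω = 0 := trdeg_eq_zero_iff.2 inferInstance
  have h5 : Algebra.trdeg L' Ω = 0 := trdeg_eq_zero_iff.2 h1
  rw [h4, add_zero] at h2
  rw [h5, add_zero] at h3
  rw [h2, h3]

/-- a field is uniruled if an algebraic extension is -/
theorem uniruled_of_sub {k L Ω : Type u} [Field k] [Field L] [Field Ω] [Algebra k L]
    [Algebra k Ω] [Algebra L Ω] [IsScalarTower k L Ω] [Algebra.IsAlgebraic L Ω]
    (L' : IntermediateField k Ω) (h : ∀ b : L, algebraMap L Ω b ∈ L')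
    (hU : Uniruled k L') : Uniruled k L := by
  have h1 := trdeg_of_sub L' h
  obtain ⟨M, i1, i2, hfg, htr, ⟨φ⟩⟩ := hU
  let ι : L →ₐ[k] L' := (IsScalarTower.toAlgHom k L Ω).codRestrict L'.toSubalgebra h
  exact ⟨M, i1, i2, hfg, by rw [htr, h1], ⟨φ.comp ι⟩⟩

end Base

section Orders

variable {k M : Type u} [Field k] [Field M] [Algebra k M]

/-- the orders of the zeros and poles of `(a ^ p - a) (a + 1) ^ m`, `m = 1` in `F_p` -/
theorem bc_gen (p : ℕ) [Fact p.Prime] [CharP k p] (hp : 3 ≤ p) (N m : ℕ) (hN : (N : k) ≠ 0)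
    (hm : (m : k) = 1) :
    Bc k M N ((X ^ p - X) * (X + 1) ^ m) 1 ∧
      ∀ e ∈ bds k M ((X ^ p - X) * (X + 1) ^ m) 1, e = 1 ∨ e = 1 + m ∨ e = p + m := by
  classical
  have hCM : CharP M p := charP_of_injective_algebraMap (algebraMap k M).injective p
  have hp1 : 1 < p := by omega
  have h2 : ((2 : ℕ) : k) ≠ 0 := by
    intro h
    have h4 := (CharP.cast_eq_zero_iff k p 2).1 h
    have := Nat.le_of_dvd (by norm_num) h4
    omega
  have hPX : (X ^ p - X : M[X]) ≠ 0 := FiniteField.X_pow_card_sub_X_ne_zero M hp1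
  have hsep : (X ^ p - X : M[X]).Separable := galois_poly_separable p p dvd_rfl
  have hX1 : (X - C (-1) : M[X]) ≠ 0 := X_sub_C_ne_zero _
  have hP : (((X ^ p - X) * (X + 1) ^ m) * 1 : k[X]).map (algebraMap k M) =
      (X ^ p - X) * (X - C (-1)) ^ m := by
    simp only [mul_one, Polynomial.map_mul, Polynomial.map_sub, Polynomial.map_add,
      Polynomial.map_one, map_X, Polynomial.map_pow, C_1, C_neg, sub_neg_eq_add]
  have h0 : ((X ^ p - X) * (X - C (-1)) ^ m : M[X]) ≠ 0 := mul_ne_zero hPX (pow_ne_zero _ hX1)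
  have hm1 : ((-1 : M)) ^ p - -1 = 0 := by
    have h1 : (-1 : M) ^ p = -1 := by
      have h3 := neg_one_pow_char M p
      exact h3
    rw [h1, sub_self]
  have hroot : ∀ c : M, ((X ^ p - X) * (X - C (-1)) ^ m : M[X]).IsRoot c →
      ((X ^ p - X) * (X - C (-1)) ^ m : M[X]).rootMultiplicity c = 1 ∨
        ((X ^ p - X) * (X - C (-1)) ^ m : M[X]).rootMultiplicity c = 1 + m := by
    intro c hc
    have h4 : c ^ p - c = 0 := by
      rw [IsRoot.def, eval_mul, eval_pow, eval_sub, eval_sub, eval_pow, eval_X, eval_C] at hc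
      rcases mul_eq_zero.1 hc with h | h
      · exact h
      · have h5 : c = -1 := sub_eq_zero.1 (pow_eq_zero_iff'.1 h).1
        rw [h5]
        exact hm1
    have h5 : (X ^ p - X : M[X]).rootMultiplicity c = 1 := by
      refine le_antisymm (rootMultiplicity_le_one_of_separable hsep c) ?_
      refine (rootMultiplicity_pos hPX).2 ?_
      rw [IsRoot.def, eval_sub, eval_pow, eval_X]
      exact h4
    rw [rootMultiplicity_mul h0, h5]
    by_cases hc1 : c = -1
    · right
      rw [hc1, rootMultiplicity_X_sub_C_pow]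
    · left
      have h6 : ((X - C (-1)) ^ m : M[X]).rootMultiplicity c = 0 := by
        apply rootMultiplicity_eq_zero
        rw [IsRoot.def, eval_pow, eval_sub, eval_X, eval_C]
        exact pow_ne_zero _ (sub_ne_zero.2 hc1)
      rw [h6]
  have hdeg1 : ((X ^ p - X) * (X + 1) ^ m : k[X]).natDegree = p + m := by
    have h7 : (X ^ p - X : k[X]).natDegree = p := by
      rw [natDegree_sub_eq_left_of_natDegree_lt] <;> simp [hp1]
    have h8 : (X + 1 : k[X]).natDegree = 1 := by
      rw [← C_1]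
      exact natDegree_X_add_C 1
    have h9 : (X + 1 : k[X]) ≠ 0 := by
      intro h
      rw [h, natDegree_zero] at h8
      omega
    have h10 : (X ^ p - X : k[X]) ≠ 0 := by
      intro h
      rw [h, natDegree_zero] at h7
      omega
    rw [natDegree_mul h10 (pow_ne_zero _ h9), natDegree_pow, h7, h8, mul_one]
  have hb : ∀ e ∈ bds k M ((X ^ p - X) * (X + 1) ^ m) 1, e = 1 ∨ e = 1 + m ∨ e = p + m := by
    intro e he
    unfold bds at he
    rcases Finset.mem_insert.1 he with h | h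
    · right; right
      rw [h, hdeg1, natDegree_one]
      rfl
    · obtain ⟨c, hc, rfl⟩ := Finset.mem_image.1 h
      have h1 := (mem_roots'.1 (Multiset.mem_toFinset.1 hc)).2
      rw [hP] at h1 ⊢
      rcases hroot c h1 with h2 | h2
      · exact Or.inl h2
      · exact Or.inr (Or.inl h2)
  refine ⟨⟨hN, isCoprime_one_right, ?_, ?_⟩, hb⟩
  · intro e he
    rcases hb e he with rfl | rfl | rfl
    · rw [Nat.cast_one]
      exact one_ne_zero
    · rw [Nat.cast_add, Nat.cast_one, hm]
      intro h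
      apply h2
      rw [Nat.cast_ofNat, ← one_add_one_eq_two]
      exact h
    · rw [Nat.cast_add, CharP.cast_eq_zero, zero_add, hm]
      exact one_ne_zero
  · refine ⟨0, 1, zero_ne_one, ?_, ?_⟩
    · simp [show p ≠ 0 by omega]
    · simp

end Orders

end Pool.Agent.ADH
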