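import Pool.Agent.TUQ.S7
import Pool.Agent.WLD.EA4
import Pool.Agent.WLD.F6

/-!
# Cyclic covers with a uniruled quotient threefold: a refined local statement

As `Pool.Agent.TUQ.S5e`, `Pool.Agent.TUQ.S6`, but the embeddings at the places over the zeros and
poles of `b` are the identity on `K₀`.
-/

set_option autoImplicit false

namespace Pool.Agent.ADH

open Polynomial Pool.Agent.TBR Pool.Agent.TUQ Pool.Agent.WLD Cardinal

universe u

section

variable {k Ω : Type u} [Field k] [Field Ω] [Algebra k Ω]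

/-- the automorphism `g` permutes the residues of the embeddings `ξ i` with `h i` not a unit -/
def PermSt (A : IntermediateField k Ω) (K : IntermediateField k A) {m : ℕ}
    (ξ : Fin m → (A →ₐ[k] Ω)) (h : Fin m → Ω) (V : ValuationSubring Ω) (r : V →+* Ω)
    (g : A ≃ₐ[k] A) : Prop :=
  ∃ π : Equiv.Perm {i : Fin m // (∀ x, ξ i x ∈ V) ∧ V.valuation (h i) ≠ 1},
    ∀ i, V.valuation (h (π i)) = V.valuation (h i) ∧
      ∀ ψ ψ', ResE A V r (ξ i) ψ → ResE A V r (ξ (π i)) ψ' → ∀ x ∈ K, g (ψ x) = ψ' x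

/-- the local statement with a composite of two fields of transcendence degree one -/
def LocC (A : IntermediateField k Ω) (K₀ : IntermediateField k A) (z : A) {m : ℕ}
    (ξ : Fin m → (A →ₐ[k] Ω)) (h : Fin m → Ω) (V : ValuationSubring Ω) (r : V →+* Ω) : Prop :=
  (∀ i, (∀ x, ξ i x ∈ V) → V.valuation (h i) ≠ 1 → V.valuation (h i) < 1 ∧
    ∀ ψ, ResE A V r (ξ i) ψ → ∀ x ∈ K₀ ⊔ IntermediateField.adjoin k {z}, ψ x = x) ∨
  ∃ L : IntermediateField k A, Two L ∧ (∀ x : A, IsAlgebraic L x) ∧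
    ∀ g ∈ Fx k (L : Set A), PermSt A (K₀ ⊔ IntermediateField.adjoin k {z}) ξ h V r g

/-- the refined local statement -/
def LocR (A : IntermediateField k Ω) (K₀ : IntermediateField k A) (z : A) (N : ℕ)
    (B₁ B₂ : k[X]) {m : ℕ} (ξ : Fin m → (A →ₐ[k] Ω)) (h : Fin m → Ω) (V : ValuationSubring Ω)
    (r : V →+* Ω) : Prop :=
  LocC A K₀ z ξ h V r ∨
  ∃ e ∈ bds k A B₁ B₂, (∀ i, (∀ x, ξ i x ∈ V) → V.valuation (h i) ≠ 1 →
      ∀ ψ, ResE A V r (ξ i) ψ → ∀ x ∈ K₀, ψ x = x) ∧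
    ∀ g ∈ Fx k ((K₀ ⊔ IntermediateField.adjoin k {z ^ (N / Nat.gcd N e)} :
      IntermediateField k A) : Set A),
      PermSt A (K₀ ⊔ IntermediateField.adjoin k {z}) ξ h V r g

end

section

variable {k Ω : Type u} [Field k] [Field Ω] [Algebra k Ω]
variable {A H : IntermediateField k Ω} {V : ValuationSubring Ω} {r : V →+* Ω}
variable {K₀ : IntermediateField k A} {z : A} {N : ℕ} {B₁ B₂ : k[X]} {a w U t : Ω}
variable {A₁ A₂ : H[X]} {c : Ω} {Φ : k[X][X]} {m : ℕ} {T : Fin m → Ω}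
  {s : Fin m → (Ω ≃ₐ[k] Ω)} {ξ : Fin m → (A →ₐ[k] Ω)} {f : Polynomial Ω}

/-- **The local statement at the places which contain `H`.** -/
theorem locR_of_le [IsAlgClosed Ω] [IsAlgClosed A] [IsAlgClosed H]
    (hc : Cfg A H K₀ z N B₁ B₂ a w U t) (hNU : NU (K₀ ⊔ IntermediateField.adjoin k {z}))
    (hCP : CP A H K₀ t) (hG : GD A H K₀ z N B₁ B₂ a w U t A₁ A₂ c Φ T s ξ f)
    (hP : Plc A V r) (hH : ∀ x ∈ H, x ∈ V) :
    LocR A K₀ z N B₁ B₂ ξ (fun i => T i - t) V r := by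
  have ht := hCP.t_mem hP hH
  obtain ⟨T₀, h0⟩ := exists_liftH hP hH hc.tdA hc.tdH _ (hP.res.mem ⟨t, ht⟩)
  obtain ⟨γ, hγ⟩ : ∃ γ : Option H, (frm A₁ A₂ γ).eval T₀ = 0 := by
    by_cases h : A₂.eval T₀ = 0
    · exact ⟨none, h⟩
    · refine ⟨some (A₁.eval T₀ / A₂.eval T₀), ?_⟩
      rw [frm, eval_sub, eval_mul, eval_C, div_mul_cancel₀ _ h, sub_self]
  rcases oB_cases hc.bc γ with ⟨β, rfl, hβ₁, hβ₂⟩ | hcase
  · left
    left
    have hA₂ : A₂.eval T₀ ≠ 0 := fun h =>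
      frm_root A₁ A₂ hG.cop (β := some β) (γ := none) (fun h => by cases h) T₀ hγ h
    have hv := unit_at hP hH ht T₀ h0 A₂ hA₂
    have haV : a ∈ V := by
      rw [val_le]
      have h1 := congrArg V.valuation hG.aeq
      rw [map_mul, hv, mul_one] at h1
      rw [h1, ← val_le]
      exact aeval_memV hH A₁ ht
    have hra : r ⟨a, haV⟩ = rho r hH β := by
      have h1 : (⟨a, haV⟩ * ⟨aeval t A₂, aeval_memV hH A₂ ht⟩ : V) =
          ⟨aeval t A₁, aeval_memV hH A₁ ht⟩ := Subtype.ext hG.aeq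
      have h2 := congrArg r h1
      rw [map_mul, res_at hH ht T₀ h0, res_at hH ht T₀ h0] at h2
      have h3 : A₁.eval T₀ = β * A₂.eval T₀ := by
        rw [frm, eval_sub, eval_mul, eval_C, sub_eq_zero] at hγ
        exact hγ
      rw [h3, map_mul] at h2
      exact mul_right_cancel₀ ((_root_.map_ne_zero _).2 hA₂) h2
    have hk : ∀ B : k[X], aeval (rho r hH β) B = rho r hH ((B.map (algebraMap k H)).eval β) := by
      intro B
      have h1 := hom_eval₂ B (algebraMap k H) (rho r hH) β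
      rw [eval_map, h1, aeval_def]
      congr 1
      ext x
      exact (hP.res.alg x (hP.k_mem x)).symm
    have hβ : aeval (r ⟨a, haV⟩) (B₁ * B₂) ≠ 0 := by
      rw [hra, map_mul, hk, hk]
      exact mul_ne_zero ((_root_.map_ne_zero _).2 hβ₁) ((_root_.map_ne_zero _).2 hβ₂)
    exact fun i hi hi' => hG.alt1 hc hCP hP hH haV hβ i hi hi'
  · right
    obtain ⟨E, e, P, P₀, Q, P', P₀', Q', hE, hLD⟩ := hG.exists_LD hc hNU T₀ γ hγ hcase
    refine ⟨E, hE, fun i h1 h2 ψ hψ x hx => ?_, fun g hg => ?_⟩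
    · exact hG.psi_K₀ hc hP hH ht i ((hG.idx_iff hc hCP hP hH i).1 ⟨h1, h2⟩) ψ hψ x hx
    · refine hLD.perm hc hG hP hH ht h0 (hc.bc.tame E hE)
        (fun i => (∀ x, ξ i x ∈ V) ∧ V.valuation (T i - t) ≠ 1)
        (fun i => hG.idx_iff hc hCP hP hH i) g (fun x hx => hg x ?_) (hg _ ?_)
      · exact (le_sup_left : K₀ ≤ _) hx
      · exact (le_sup_right : IntermediateField.adjoin k {z ^ (N / Nat.gcd N E)} ≤ _)
          (IntermediateField.subset_adjoin _ _ rfl)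

end

section

variable {k Ω : Type u} [Field k] [Field Ω] [Algebra k Ω]
variable {A H : IntermediateField k Ω} {K₀ : IntermediateField k A} {z : A}
  {w U t a : Ω} {N : ℕ} {B₁ B₂ : k[X]} {V : ValuationSubring Ω} {r : V →+* Ω}
variable [IsAlgClosed Ω] [IsAlgClosed A] [IsAlgClosed H]
variable {A₁ A₂ : H[X]} {c : Ω} {Φ : k[X][X]} {m : ℕ} {T : Fin m → Ω}
  {s : Fin m → (Ω ≃ₐ[k] Ω)} {ξ : Fin m → (A →ₐ[k] Ω)} {f : Polynomial Ω}

/-- the places which do not contain `H` -/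
theorem locC_of_notMem (hc : Cfg A H K₀ z N B₁ B₂ a w U t) (hNU : NU (KK K₀ z)) (hP : Plc A V r)
    (hd : GD A H K₀ z N B₁ B₂ a w U t A₁ A₂ c Φ T s ξ f) (hH : ∃ β ∈ H, β ∉ V) :
    LocC A K₀ z ξ (fun i => T i - t) V r := by
  classical
  by_cases hex : ∃ i, ∀ x, ξ i x ∈ V
  swap
  · left
    intro i hi
    exact absurd ⟨i, hi⟩ hex
  right
  obtain ⟨i₀, hi₀⟩ := hex
  obtain ⟨ϖ', hϖH, -, hϖv⟩ := exists_pi A hc.trA V hP.mem H hH U hc.U0
  set ϖU : H := ⟨ϖ', hϖH⟩ with hϖUd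
  have hϖU : V.valuation (ϖU : Ω) = V.valuation U := hϖv.symm
  obtain ⟨S, p, q, hg⟩ := exists_gens hc.fg hc.tH hc.K₀t hc.wt hc.w0
  have hdisc : ∀ i, (∀ x, ξ i x ∈ V) → ∃ α π : H, π ≠ 0 ∧ Gen hP.res hP.mem H α π (T i) :=
    fun i hi => exists_disc hc hNU hP hH (hd.pnt i) hi (hd.TH i)
  -- choose the discs
  have hdisc' : ∀ i, ∃ α π : H, π ≠ 0 ∧ ((∀ x, ξ i x ∈ V) → Gen hP.res hP.mem H α π (T i)) := by
    intro i
    by_cases hi : ∀ x, ξ i x ∈ V
    · obtain ⟨α, π, h1, h2⟩ := hdisc i hi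
      exact ⟨α, π, h1, fun _ => h2⟩
    · exact ⟨0, 1, one_ne_zero, fun h => absurd h hi⟩
  choose α π hπ hGen using hdisc'
  have hu := u0_notMem hc hNU hP hH hg hϖU (hπ i₀) (hd.pnt i₀) (hGen i₀ hi₀) hi₀
  obtain ⟨P, Q, y, c', ϖ, hY, hD⟩ := exists_dg hc hNU hP hH hϖU hu hd.A₂0 hd.A₂t hd.aeq
  set u₀ : A := ⟨r ⟨_, uS_mem hϖU hc.U0 S none⟩, hP.res.mem _⟩ with hu₀
  set η : A := ⟨r ⟨_, hY⟩, hP.res.mem _⟩ with hη
  obtain ⟨d, hdk, hd0, hdalg⟩ := hD.rel
  have hdA : d ∈ A := kap_le _ _ _ hdk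
  -- the constants
  have hex2 : ∀ i, ∃ D : Finset A, (∀ x ∈ D, x ∈ kA hP.res hP.mem H) ∧
      ((∀ x, ξ i x ∈ V) → ∀ σ : A ≃ₐ[k] A,
      (∀ x ∈ D, σ x = x) → (∀ x, σ x ∈ kA hP.res hP.mem H ↔ x ∈ kA hP.res hP.mem H) →
      σ u₀ = u₀ → σ η = η →
      (((f.roots.filter (Gen hP.res hP.mem H (α i) (π i))).map (eT H K₀ z w U t r)).map
          fun ξ => (σ : A →ₐ[k] A).comp ξ) =
      (f.roots.filter (Gen hP.res hP.mem H (α i) (π i))).map (eT H K₀ z w U t r)) := by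
    intro i
    by_cases hi : ∀ x, ξ i x ∈ V
    · obtain ⟨D, h1, h2⟩ := disc_f hc hP hd hg hϖU hu hD (hπ i) (hd.pnt i) (hGen i hi) hi
      exact ⟨D, h1, fun _ => h2⟩
    · exact ⟨∅, by simp, fun h => absurd h hi⟩
  choose D hDk hDσ using hex2
  have hκ := kA_closed hP.res hP.mem H
  have hκ1 := kA_trdeg hP.res hP.mem H hH hc.tdH
  obtain ⟨Cκ, hCκ, hCσ⟩ := exists_fix (kA hP.res hP.mem H) hκ1
  have hϖN : V.valuation ((ϖU ^ N : H) : Ω) = V.valuation (U ^ N) := by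
    have h1 : ((ϖU ^ N : H) : Ω) = (ϖU : Ω) ^ N := map_pow (algebraMap H Ω) _ _
    rw [h1, map_pow, map_pow, hϖU]
  obtain ⟨Ca, hCa, hCalg⟩ := eq_alg hc hP hg hϖU (hπ i₀) (hd.pnt i₀) (hGen i₀ hi₀) hi₀
    (PH B₁ B₂ B₁ A₁ A₂) (PH B₁ B₂ B₂ A₁ A₂) (PH_ne hc hd (le_max_left _ _) hc.bc.ne.1)
    (PH_ne hc hd (le_max_right _ _) hc.bc.ne.2) (U ^ N) (ϖU ^ N) hϖN (full_mem hϖU hc.U0 N)
    (full_notMem hP hϖU hc.U0 hc.Npos hu) (hd.root i₀)
  set C₁ : Finset A := Finset.univ.biUnion D ∪ Cκ ∪ Ca ∪ {⟨d, hdA⟩} with hC₁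
  set C₂ : Finset A := {η, u₀ / ⟨d, hdA⟩} with hC₂
  have hC₁k : (C₁ : Set A) ⊆ kA hP.res hP.mem H := by
    intro x hx
    simp only [hC₁, Finset.coe_union, Set.mem_union, Finset.mem_coe, Finset.mem_biUnion,
      Finset.mem_univ, true_and, Finset.mem_singleton] at hx
    rcases hx with ((⟨i, hx⟩ | hx) | hx) | hx
    · exact hDk i x hx
    · exact hCκ hx
    · exact hCa x hx
    · rw [hx]
      exact (mem_kA hP.res hP.mem H _).mpr hdk
  obtain ⟨hF₁, ht₁⟩ := trdeg_adjoin_of_subset (kA hP.res hP.mem H) hκ1 C₁ hC₁k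
  have hC₂a : ∀ x ∈ C₂, IsAlgebraic (IntermediateField.adjoin k {η}) x := by
    intro x hx
    rw [hC₂, Finset.mem_insert, Finset.mem_singleton] at hx
    rcases hx with rfl | rfl
    · exact isAlgebraic_algebraMap
        (⟨η, IntermediateField.mem_adjoin_simple_self k η⟩ : IntermediateField.adjoin k {η})
    · apply alg_down
      have h1 : (IntermediateField.adjoin k {η}).map A.val =
          IntermediateField.adjoin k {(η : Ω)} := by
        rw [IntermediateField.adjoin_map, Set.image_singleton]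
        rfl
      rw [h1]
      exact hdalg
  obtain ⟨hF₂, ht₂⟩ := trdeg_adjoin_of_alg η C₂ hC₂a
  set K₁ := IntermediateField.adjoin k (C₁ : Set A) with hK₁
  set K₂ := IntermediateField.adjoin k (C₂ : Set A) with hK₂
  have hm₁ : ∀ x ∈ C₁, x ∈ K₁ ⊔ K₂ := fun x hx =>
    (le_sup_left (a := K₁)) (IntermediateField.subset_adjoin k _ hx)
  have hm₂ : ∀ x ∈ C₂, x ∈ K₁ ⊔ K₂ := fun x hx =>
    (le_sup_right (a := K₁)) (IntermediateField.subset_adjoin k _ hx)
  have hdm : (⟨d, hdA⟩ : A) ∈ K₁ ⊔ K₂ := hm₁ _ (by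
    rw [hC₁]
    exact Finset.mem_union_right _ (Finset.mem_singleton_self _))
  have hηm : η ∈ K₁ ⊔ K₂ := hm₂ _ (by
    rw [hC₂]
    exact Finset.mem_insert_self _ _)
  have hd0' : (⟨d, hdA⟩ : A) ≠ 0 := fun h => hd0 (congrArg Subtype.val h)
  have hum : u₀ ∈ K₁ ⊔ K₂ := by
    have h1 : u₀ / ⟨d, hdA⟩ ∈ K₁ ⊔ K₂ := hm₂ _ (by
      rw [hC₂]
      exact Finset.mem_insert_of_mem (Finset.mem_singleton_self _))
    have h2 : u₀ = u₀ / ⟨d, hdA⟩ * ⟨d, hdA⟩ := by
      rw [div_mul_cancel₀ _ hd0']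
    rw [h2]
    exact mul_mem h1 hdm
  refine ⟨K₁ ⊔ K₂, ⟨K₁, K₂, hF₁, hF₂, ht₁, ht₂, rfl⟩, ?_, ?_⟩
  · refine hCalg _ (fun x hx => hm₁ x (by
      rw [hC₁]
      exact Finset.mem_union_left _ (Finset.mem_union_right _ hx))) hum ?_
    have h3 : (⟨r ⟨_, full_mem hϖU hc.U0 N⟩, hP.res.mem _⟩ : A) = u₀ ^ N :=
      Subtype.ext (full_res hP hϖU hc.U0 N)
    rw [h3]
    exact pow_mem hum N
  · intro σ hσ
    have hσκ := hCσ σ (fun x hx => hσ x (hm₁ x (by
      rw [hC₁]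
      exact Finset.mem_union_left _ (Finset.mem_union_left _ (Finset.mem_union_right _ hx)))))
    have hinv := fun i hi => hDσ i hi σ (fun x hx => hσ x (hm₁ x (by
      rw [hC₁]
      exact Finset.mem_union_left _ (Finset.mem_union_left _ (Finset.mem_union_left _
        (Finset.mem_biUnion.mpr ⟨i, Finset.mem_univ _, hx⟩)))))) hσκ (hσ _ hum) (hσ _ hηm)
    -- the classes
    let I := {i : Fin m // (∀ x, ξ i x ∈ V) ∧ V.valuation (T i - t) ≠ 1}
    let cls : I → Finset (Fin m) := fun i =>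
      Finset.univ.filter fun j => Gen hP.res hP.mem H (α i) (π i) (T j)
    have hself : ∀ i : I, (i : Fin m) ∈ cls i := fun i =>
      Finset.mem_filter.mpr ⟨Finset.mem_univ _, hGen i i.2.1⟩
    have hcls : ∀ i j : I, (j : Fin m) ∈ cls i → cls j = cls i := by
      intro i j hj
      have h1 := (Finset.mem_filter.mp hj).2
      have h2 := hGen j j.2.1
      refine Finset.filter_congr fun l _ => ⟨fun h => ?_, fun h => ?_⟩
      · exact disc_eq _ _ _ _ (hπ j) (hπ i) (T j) (T l) h2 h1 h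
      · exact disc_eq _ _ _ _ (hπ i) (hπ j) (T j) (T l) h1 h2 h
    have hdist : ∀ (i : I) (j : Fin m), j ∈ cls i →
        V.valuation (T j - t) = V.valuation (T i - t) := fun i j hj =>
      disc_dist hP hd hD (hπ i) j i (Finset.mem_filter.mp hj).2 (hGen i i.2.1)
    have hgood : ∀ (i : I) (j : Fin m), j ∈ cls i → ∀ x, ξ j x ∈ V := fun i j hj =>
      good_of_disc hP.res hP.mem hc.al hc.tH hc.K₀t (hπ i) (hd.pnt i) (hd.pnt j) (hGen i i.2.1)
        (Finset.mem_filter.mp hj).2 i.2.1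
    obtain ⟨ρ, hρ⟩ := perm_of_classes cls
      (fun i : I => (σ : A →ₐ[k] A).comp (eT H K₀ z w U t r (T i)))
      (fun i : I => eT H K₀ z w U t r (T i)) (by
        intro cl
        by_cases hcl : ∃ i, cls i = cl
        swap
        · have h0 : (Finset.univ.filter fun j => cls j = cl) = ∅ := by
            rw [Finset.filter_eq_empty_iff]
            exact fun i _ h => hcl ⟨i, h⟩
          rw [h0]
          rfl
        obtain ⟨i, rfl⟩ := hcl
        have hmap : ((Finset.univ.filter fun j => cls j = cls i).map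
            (Function.Embedding.subtype _) : Finset (Fin m)) = cls i := by
          ext j
          simp only [Finset.mem_map, Finset.mem_filter, Finset.mem_univ, true_and,
            Function.Embedding.subtype_apply]
          constructor
          · rintro ⟨j', h1, rfl⟩
            rw [← h1]
            exact hself j'
          · intro hj
            refine ⟨⟨j, hgood i j hj, ?_⟩, ?_, rfl⟩
            · rw [hdist i j hj]
              exact i.2.2
            · exact hcls i _ hj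
        have hval : ∀ g : Fin m → (KK K₀ z →ₐ[k] A),
            (Finset.univ.filter fun j => cls j = cls i).val.map (fun j : I => g j) =
              (cls i).val.map g := by
          intro g
          have h1 := congrArg Finset.val hmap
          rw [Finset.map_val] at h1
          rw [← h1, Multiset.map_map]
          rfl
        have hroots : (cls i).val.map (fun j => eT H K₀ z w U t r (T j)) =
            (f.roots.filter (Gen hP.res hP.mem H (α i) (π i))).map (eT H K₀ z w U t r) := by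
          rw [hd.roots, Multiset.filter_map, Multiset.map_map]
          rfl
        have h1 := hinv i i.2.1
        rw [← hroots, Multiset.map_map] at h1
        rw [hval (fun j => (σ : A →ₐ[k] A).comp (eT H K₀ z w U t r (T j))),
          hval (fun j => eT H K₀ z w U t r (T j))]
        exact h1)
    refine ⟨ρ, fun i => ⟨?_, ?_⟩⟩
    · have h1 : ((ρ i : I) : Fin m) ∈ cls i := by
        rw [← (hρ i).1]
        exact hself _
      exact hdist i _ h1
    · intro ψ ψ' hψ hψ' x hx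
      have e1 := eT_spec hP.res hc.K₀t hc.wt (hd.pnt i) i.2.1 ⟨x, hx⟩
      have e2 := eT_spec hP.res hc.K₀t hc.wt (hd.pnt (ρ i)) (ρ i).2.1 ⟨x, hx⟩
      obtain ⟨h1, h2⟩ := e1
      obtain ⟨h3, h4⟩ := e2
      have h5 : ψ x = eT H K₀ z w U t r (T i) ⟨x, hx⟩ :=
        Subtype.ext ((hψ.eq x h1).symm.trans h2)
      have h6 : ψ' x = eT H K₀ z w U t r (T (ρ i)) ⟨x, hx⟩ :=
        Subtype.ext ((hψ'.eq x h3).symm.trans h4)
      rw [h5, h6, (hρ i).2]
      rfl


end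

/-- the refined block G -/
theorem blockR6 {k Ω : Type u} [Field k] [Field Ω] [Algebra k Ω] [IsAlgClosed Ω]
    (A H : IntermediateField k Ω) [IsAlgClosed A] [IsAlgClosed H]
    (K₀ : IntermediateField k A) (z : A) (N : ℕ) (B₁ B₂ : k[X]) (a w U t : Ω)
    (hc : Cfg A H K₀ z N B₁ B₂ a w U t) (hNU : NU (K₀ ⊔ IntermediateField.adjoin k {z})) :
    ∃ (m : ℕ) (ξ : Fin m → (A →ₐ[k] Ω)) (h : Fin m → Ω), (∀ i, h i ≠ 0) ∧
      (∀ (V : ValuationSubring Ω) (r : V →+* Ω), Plc A V r → LocR A K₀ z N B₁ B₂ ξ h V r) ∧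
      ∃ (V : ValuationSubring Ω) (r : V →+* Ω), Plc A V r ∧
        (∃ i, (∀ x, ξ i x ∈ V) ∧ V.valuation (h i) < 1) ∧
        ∀ i, (∀ x, ξ i x ∈ V) → V.valuation (h i) ≠ 1 → V.valuation (h i) < 1 ∧
          ∀ ψ, ResE A V r (ξ i) ψ → ∀ x ∈ K₀ ⊔ IntermediateField.adjoin k {z}, ψ x = x := by
  obtain ⟨t', hc', hCP⟩ := hc.exists_coord
  obtain ⟨A₁, A₂, c, Φ, m, T, s, ξ, f, hG⟩ := hc'.exists_GD hNU
  refine ⟨m, ξ, fun i => T i - t', fun i => sub_ne_zero.2 (hG.Tt i), fun V r hP => ?_,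
    hG.exists_pos hc' hNU hCP⟩
  by_cases hV : ∀ x ∈ H, x ∈ V
  · exact locR_of_le hc' hNU hCP hG hP hV
  · push Not at hV
    exact Or.inl (locC_of_notMem hc' hNU hP hG hV)

end Pool.Agent.ADH
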