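import Pool.Agent.ADH.V1

/-!
# Cyclic covers of degree six with a uniruled quotient threefold: subfields

`K₀(z) / K₀` is cyclic of degree six, `F` is a subfield of `K₀(z)` and `L'` a subfield of `F` such
that the automorphisms over `L'` act on the conjugates of `F` over `K₀` like a dihedral group.
-/

set_option autoImplicit false

namespace Pool.Agent.ADH

open Polynomial Pool.Agent.TBR Pool.Agent.TUQ Pool.Agent.WLD Cardinal

universe u

/-- the permutations of the roots of unity -/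
theorem perm_aux {I : Type*} [Finite I] {A Γ : Type*} [Field A] (η : I → A) (v : I → Γ) (ζ : A)
    (hζ : IsPrimitiveRoot ζ 3) (hη : ∀ i, η i ^ 6 = 1) (π₁ : Equiv.Perm I)
    (h1 : ∀ i, η (π₁ i) = ζ * η i) (hv : ∀ i, v (π₁ i) = v i) (ν : A) (hν : ν ^ 3 = 1) :
    (∃ π : Equiv.Perm I, ∀ i, v (π i) = v i ∧ η (π i) = ν * η i) ∧
      ∃ π : Equiv.Perm I, ∀ i, v (π i) = v i ∧ η (π i) = ν * (η i)⁻¹ := by
  classical
  have hpow : ∀ (n : ℕ) (i : I), v ((π₁ ^ n) i) = v i ∧ η ((π₁ ^ n) i) = ζ ^ n * η i := by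
    intro n
    induction n with
    | zero =>
      intro i
      rw [pow_zero, pow_zero, one_mul]
      exact ⟨rfl, rfl⟩
    | succ n ih =>
      intro i
      rw [pow_succ' π₁, Equiv.Perm.mul_apply, hv, h1, (ih i).1, (ih i).2, pow_succ']
      exact ⟨rfl, by ring⟩
  have h3 : NeZero 3 := ⟨by norm_num⟩
  constructor
  · obtain ⟨a, -, ha⟩ := hζ.eq_pow_of_pow_eq_one hν
    refine ⟨π₁ ^ a, fun i => ⟨(hpow a i).1, ?_⟩⟩
    rw [(hpow a i).2, ha]
  · have hα : ∀ x : A, ∃ a : ℕ, x ^ 6 = 1 → ζ ^ a = ν * x⁻¹ * x⁻¹ := by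
      intro x
      by_cases hx : x ^ 6 = 1
      · have h4 : (ν * x⁻¹ * x⁻¹) ^ 3 = 1 := by
          have h5 : (ν * x⁻¹ * x⁻¹) ^ 3 = ν ^ 3 * (x ^ 6)⁻¹ := by
            rw [mul_pow, mul_pow, mul_assoc, ← pow_add, ← inv_pow]
          rw [h5, hν, hx, inv_one, one_mul]
        obtain ⟨a, -, ha⟩ := hζ.eq_pow_of_pow_eq_one h4
        exact ⟨a, fun _ => ha⟩
      · exact ⟨0, fun h => absurd h hx⟩
    choose α hα using hα
    have hη0 : ∀ i, η i ≠ 0 := by
      intro i h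
      have := hη i
      rw [h, zero_pow (by norm_num)] at this
      exact zero_ne_one this
    have hf : ∀ i, η ((π₁ ^ α (η i)) i) = ν * (η i)⁻¹ := by
      intro i
      rw [(hpow _ i).2, hα _ (hη i), mul_assoc, inv_mul_cancel₀ (hη0 i), mul_one]
    have hν0 : ν ≠ 0 := by
      rintro rfl
      rw [zero_pow (by norm_num)] at hν
      exact zero_ne_one hν
    have hinj : Function.Injective (fun i => (π₁ ^ α (η i)) i) := by
      intro i j hij
      have h5 : ν * (η i)⁻¹ = ν * (η j)⁻¹ := by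
        rw [← hf i, ← hf j]
        exact congrArg η hij
      have h6 : η i = η j := inv_injective (mul_left_cancel₀ hν0 h5)
      have h7 : (π₁ ^ α (η i)) i = (π₁ ^ α (η i)) j := by
        have h8 : (π₁ ^ α (η i)) i = (π₁ ^ α (η j)) j := hij
        rw [h8, h6]
      exact (π₁ ^ α (η i)).injective h7
    refine ⟨Equiv.ofBijective _ (Finite.injective_iff_bijective.1 hinj), fun i => ⟨?_, ?_⟩⟩
    · exact (hpow _ i).1
    · exact hf i

section

variable {k A : Type u} [Field k] [Field A] [Algebra k A]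

/-- the automorphisms over `L'` act on the conjugates of `F` over `K₀` like the elements of a
dihedral group -/
def Dih (K₀ : IntermediateField k A) (z : A) (F L' : IntermediateField k A) : Prop :=
  ∀ g ∈ Fx k (L' : Set A), ∃ ν : A, ν ^ 3 = 1 ∧
    ((∀ ψ ψ' : A ≃ₐ[k] A, ∀ η : A, (∀ x ∈ K₀, ψ x = x) → (∀ x ∈ K₀, ψ' x = x) → η ^ 6 = 1 →
        ψ z = η * z → ψ' z = ν * η * z → ∀ x ∈ F, g (ψ x) = ψ' x) ∨
      ∀ ψ ψ' : A ≃ₐ[k] A, ∀ η : A, (∀ x ∈ K₀, ψ x = x) → (∀ x ∈ K₀, ψ' x = x) → η ^ 6 = 1 →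
        ψ z = η * z → ψ' z = ν * η⁻¹ * z → ∀ x ∈ F, g (ψ x) = ψ' x)

/-- the fields which occur in the theorem -/
def GdD (K₀ : IntermediateField k A) (z : A) (L' L : IntermediateField k A) : Prop :=
  Two L ∨ L = K₀ ∨ L = K₀ ⊔ IntermediateField.adjoin k {z ^ 2} ∨ L = L'

theorem six_root (K₀ : IntermediateField k A) (ζ : A) (hζ : IsPrimitiveRoot ζ 3) (hζK : ζ ∈ K₀)
    (x : A) (hx : x ^ 6 = 1) : x ∈ K₀ := by
  have h3 : NeZero 3 := ⟨by norm_num⟩
  have h1 : (x ^ 3 - 1) * (x ^ 3 + 1) = 0 := by linear_combination hx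
  rcases mul_eq_zero.1 h1 with h | h
  · obtain ⟨a, -, ha⟩ := hζ.eq_pow_of_pow_eq_one (sub_eq_zero.1 h)
    rw [← ha]
    exact pow_mem hζK _
  · have h2 : (-x) ^ 3 = 1 := by linear_combination -h
    obtain ⟨a, -, ha⟩ := hζ.eq_pow_of_pow_eq_one h2
    have h4 : x = -ζ ^ a := by rw [ha, neg_neg]
    rw [h4]
    exact neg_mem (pow_mem hζK _)

end

theorem gst_dih {k Ω : Type u} [Field k] [Field Ω] [Algebra k Ω] (A : IntermediateField k Ω)
    [IsAlgClosed A] (htd : Algebra.trdeg k A < Cardinal.aleph0)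
    (K₀ : IntermediateField k A) (hal : ∀ x : A, IsAlgebraic K₀ x) (z : A) (z0 : z ≠ 0)
    (z6 : z ^ 6 ∈ K₀) (B₁ B₂ : k[X]) (hbds : ∀ e ∈ bds k A B₁ B₂, e = 1 ∨ e = 2 ∨ e = 3)
    (ζ : A) (hζ : IsPrimitiveRoot ζ 3) (hζK : ζ ∈ K₀) (g₁ : A ≃ₐ[k] A)
    (hg₁ : ∀ x ∈ K₀, g₁ x = x) (hg₁z : g₁ z = ζ * z) (F L' : IntermediateField k A)
    (hF : F ≤ K₀ ⊔ IntermediateField.adjoin k {z}) (hL' : ∀ x : A, IsAlgebraic L' x)
    (hD : Dih K₀ z F L') {m : ℕ} (ξ : Fin m → (A →ₐ[k] Ω)) (h : Fin m → Ω) (h0 : ∀ i, h i ≠ 0)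
    (hR : ∀ (V : ValuationSubring Ω) (r : V →+* Ω), Plc A V r → LocR A K₀ z 6 B₁ B₂ ξ h V r)
    (hpos : ∃ (V : ValuationSubring Ω) (r : V →+* Ω), Plc A V r ∧
      (∃ i, (∀ x, ξ i x ∈ V) ∧ V.valuation (h i) < 1) ∧
      ∀ i, (∀ x, ξ i x ∈ V) → V.valuation (h i) ≠ 1 → V.valuation (h i) < 1 ∧
        ∀ ψ, ResE A V r (ξ i) ψ → ∀ x ∈ K₀ ⊔ IntermediateField.adjoin k {z}, ψ x = x) :
    GSt A (GdD K₀ z L') F := by
  have hzK : z ∈ K₀ ⊔ IntermediateField.adjoin k {z} :=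
    (le_sup_right : IntermediateField.adjoin k {z} ≤ _) (IntermediateField.subset_adjoin _ _ rfl)
  refine ⟨m, ξ, h, h0, fun V r hP => ?_, ?_⟩
  · rcases hR V r hP with (h1 | ⟨L, h1, h2, h3⟩) | ⟨e, he, hψ, hperm⟩
    · left
      intro i hi hi'
      exact ⟨(h1 i hi hi').1, fun ψ hψ x hx => (h1 i hi hi').2 ψ hψ x (hF hx)⟩
    · right
      refine ⟨L, Or.inl h1, h2, fun g hg => ?_⟩
      obtain ⟨π, hπ⟩ := h3 g hg
      exact ⟨π, fun i => ⟨(hπ i).1, fun ψ ψ' h4 h5 x hx => (hπ i).2 ψ ψ' h4 h5 x (hF hx)⟩⟩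
    · right
      rcases hbds e he with rfl | rfl | rfl
      · -- `e = 1`
        refine ⟨K₀, Or.inr (Or.inl rfl), hal, fun g hg => ?_⟩
        have hle : K₀ ⊔ IntermediateField.adjoin k {z ^ (6 / Nat.gcd 6 1)} ≤ K₀ := by
          refine sup_le le_rfl ?_
          rw [IntermediateField.adjoin_le_iff]
          rintro y rfl
          have h4 : 6 / Nat.gcd 6 1 = 6 := by norm_num
          rw [h4]
          exact z6
        obtain ⟨π, hπ⟩ := hperm g fun x hx => hg x (hle hx)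
        exact ⟨π, fun i => ⟨(hπ i).1, fun ψ ψ' h4 h5 x hx => (hπ i).2 ψ ψ' h4 h5 x (hF hx)⟩⟩
      · -- `e = 2`
        refine ⟨L', Or.inr (Or.inr (Or.inr rfl)), hL', fun g hg => ?_⟩
        obtain ⟨ν, hν, hgν⟩ := hD g hg
        have hg₁' : g₁ ∈ Fx k ((K₀ ⊔ IntermediateField.adjoin k {z ^ (6 / Nat.gcd 6 2)} :
            IntermediateField k A) : Set A) := by
          have h4 : 6 / Nat.gcd 6 2 = 3 := by norm_num
          rw [h4]
          have hζ3 : ζ ^ 3 = 1 := hζ.pow_eq_one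
          have h5 : K₀ ⊔ IntermediateField.adjoin k {z ^ 3} ≤
              IntermediateField.fixedField (Subgroup.zpowers g₁) := by
            have key : ∀ x : A, g₁ x = x →
                x ∈ IntermediateField.fixedField (Subgroup.zpowers g₁) := by
              intro x hx
              rw [IntermediateField.mem_fixedField_iff]
              intro f hf
              have h6 : Subgroup.zpowers g₁ ≤ MulAction.stabilizer (A ≃ₐ[k] A) x := by
                rw [Subgroup.zpowers_le]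
                exact hx
              exact h6 hf
            refine sup_le (fun x hx => key x (hg₁ x hx)) ?_
            rw [IntermediateField.adjoin_le_iff]
            rintro y rfl
            refine key _ ?_
            rw [map_pow, hg₁z, mul_pow, hζ3, one_mul]
          intro x hx
          have h6 := h5 hx
          rw [IntermediateField.mem_fixedField_iff] at h6
          exact h6 g₁ (Subgroup.mem_zpowers g₁)
        obtain ⟨π₁, hπ₁⟩ := hperm g₁ hg₁'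
        -- the residues
        have hex : ∀ i : {i : Fin m // (∀ x, ξ i x ∈ V) ∧ V.valuation (h i) ≠ 1},
            ∃ ψ, ResE A V r (ξ i) ψ := fun i => exists_resE_F A htd V r hP (ξ i) i.2.1
        choose ψ₀ hψ₀ using hex
        have huniq : ∀ (i : {i : Fin m // (∀ x, ξ i x ∈ V) ∧ V.valuation (h i) ≠ 1})
            (ψ : A ≃ₐ[k] A), ResE A V r (ξ i) ψ → ∀ x, ψ x = ψ₀ i x := by
          intro i ψ h4 x
          apply Subtype.ext
          rw [← h4.eq x (h4.mem x), ← (hψ₀ i).eq x (h4.mem x)]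
        obtain ⟨η, hη⟩ : ∃ η : {i : Fin m // (∀ x, ξ i x ∈ V) ∧ V.valuation (h i) ≠ 1} → A,
          η = fun i => ψ₀ i z / z := ⟨_, rfl⟩
        have hηz : ∀ i, ψ₀ i z = η i * z := fun i => by
          rw [hη]
          exact (div_mul_cancel₀ _ z0).symm
        have hη6 : ∀ i, η i ^ 6 = 1 := by
          intro i
          have h4 : ψ₀ i (z ^ 6) = z ^ 6 := hψ i i.2.1 i.2.2 _ (hψ₀ i) _ z6
          rw [hη]
          show (ψ₀ i z / z) ^ 6 = 1
          rw [div_pow, ← map_pow, h4, div_self (pow_ne_zero _ z0)]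
        have hηπ : ∀ i, η (π₁ i) = ζ * η i := by
          intro i
          have h4 := (hπ₁ i).2 _ _ (hψ₀ i) (hψ₀ (π₁ i)) z hzK
          rw [hηz, hηz, map_mul, hg₁z, hg₁ _ (six_root K₀ ζ hζ hζK _ (hη6 i))] at h4
          apply mul_right_cancel₀ z0
          rw [← h4]
          ring
        obtain ⟨hp1, hp2⟩ := perm_aux η (fun i => V.valuation (h i)) ζ hζ hη6 π₁ hηπ
          (fun i => (hπ₁ i).1) ν hν
        have hfix : ∀ (i : {i : Fin m // (∀ x, ξ i x ∈ V) ∧ V.valuation (h i) ≠ 1})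
            (ψ : A ≃ₐ[k] A), ResE A V r (ξ i) ψ → ∀ x ∈ K₀, ψ x = x := fun i ψ h4 =>
          hψ i i.2.1 i.2.2 ψ h4
        rcases hgν with hg1 | hg1
        · obtain ⟨π, hπ⟩ := hp1
          refine ⟨π, fun i => ⟨(hπ i).1, fun ψ ψ' h4 h5 x hx => ?_⟩⟩
          refine hg1 ψ ψ' (η i) (hfix i ψ h4) (hfix (π i) ψ' h5) (hη6 i) ?_ ?_ x hx
          · rw [huniq i ψ h4, hηz]
          · rw [huniq (π i) ψ' h5, hηz, (hπ i).2]
        · obtain ⟨π, hπ⟩ := hp2
          refine ⟨π, fun i => ⟨(hπ i).1, fun ψ ψ' h4 h5 x hx => ?_⟩⟩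
          refine hg1 ψ ψ' (η i) (hfix i ψ h4) (hfix (π i) ψ' h5) (hη6 i) ?_ ?_ x hx
          · rw [huniq i ψ h4, hηz]
          · rw [huniq (π i) ψ' h5, hηz, (hπ i).2]
      · -- `e = 3`
        refine ⟨K₀ ⊔ IntermediateField.adjoin k {z ^ 2}, Or.inr (Or.inr (Or.inl rfl)),
          fun x => alg_mono le_sup_left (hal x), fun g hg => ?_⟩
        have h4 : 6 / Nat.gcd 6 3 = 2 := by norm_num
        rw [h4] at hperm
        obtain ⟨π, hπ⟩ := hperm g hg
        exact ⟨π, fun i => ⟨(hπ i).1, fun ψ ψ' h4 h5 x hx => (hπ i).2 ψ ψ' h4 h5 x (hF hx)⟩⟩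
  · obtain ⟨V, r, hP, h1, h2⟩ := hpos
    exact ⟨V, r, hP, h1, fun i hi hi' => ⟨(h2 i hi hi').1, fun ψ hψ x hx =>
      (h2 i hi hi').2 ψ hψ x (hF hx)⟩⟩

end Pool.Agent.ADH
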