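import Pool.Agent.ADH.V2
import Pool.Agent.TUQ.F9
import Pool.Agent.KTW.E3

set_option maxSynthPendingDepth 3

/-!
# Cyclic covers of degree six with a uniruled quotient threefold: the theorem for subfields
-/

set_option autoImplicit false

namespace Pool.Agent.ADH

open Polynomial Pool.Agent.TBR Pool.Agent.TUQ Pool.Agent.UQ Pool.Agent.WLD Pool.Agent.ADT
  Pool.Agent.KTW Cardinal

universe u

/-- the automorphism over `K₀` which multiplies `z` by a root of unity -/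
theorem exists_aut {k M : Type u} [Field k] [Field M] [Algebra k M] [IsAlgClosed M]
    (K₀ : IntermediateField k M) (hal : ∀ x : M, IsAlgebraic K₀ x) (N : ℕ) (hN : 0 < N) (z z' : M)
    (zN : z ^ N ∈ K₀) (hz' : z' ^ N = z ^ N)
    (irr : Irreducible (X ^ N - C (⟨z ^ N, zN⟩ : K₀))) :
    ∃ g : M ≃ₐ[k] M, (∀ x ∈ K₀, g x = x) ∧ g z = z' := by
  have hKalg : Algebra.IsAlgebraic K₀ M := ⟨hal⟩
  have hNor : Normal K₀ M := by
    have hcl : IsAlgClosure K₀ M := ⟨inferInstance, hKalg⟩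
    exact IsAlgClosure.normal K₀ M
  have hmon : (X ^ N - C (⟨z ^ N, zN⟩ : K₀)).Monic := monic_X_pow_sub_C _ hN.ne'
  have h1 : ∀ y : M, y ^ N = z ^ N → X ^ N - C (⟨z ^ N, zN⟩ : K₀) = minpoly K₀ y := by
    intro y hy
    refine minpoly.eq_of_irreducible_of_monic irr ?_ hmon
    rw [map_sub, map_pow, aeval_X, aeval_C, hy]
    exact sub_self _
  have h2 : IsConjRoot K₀ z' z := by
    show minpoly K₀ z' = minpoly K₀ z
    rw [← h1 z' hz', ← h1 z rfl]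
  obtain ⟨σ, hσ⟩ := isConjRoot_iff_exists_algEquiv.1 h2
  refine ⟨σ.restrictScalars k, fun x hx => ?_, hσ⟩
  exact σ.commutes ⟨x, hx⟩

section

variable {k M M' : Type u} [Field k] [Field M] [Field M'] [Algebra k M] [Algebra k M']

theorem Dih.congr (e : M ≃ₐ[k] M') {K₀ : IntermediateField k M} {z : M}
    {F L' : IntermediateField k M} (h : Dih K₀ z F L') :
    Dih (K₀.map (e : M →ₐ[k] M')) (e z) (F.map (e : M →ₐ[k] M')) (L'.map (e : M →ₐ[k] M')) := by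
  intro g hg
  have hfix : ∀ (g : M' ≃ₐ[k] M') (K : IntermediateField k M),
      (∀ x ∈ K.map (e : M →ₐ[k] M'), g x = x) →
      ∀ x ∈ K, (e.trans (g.trans e.symm)) x = x := by
    intro g K hg x hx
    show e.symm (g (e x)) = x
    rw [hg (e x) ⟨x, hx, rfl⟩, e.symm_apply_apply]
  obtain ⟨ν, hν, h1⟩ := h (e.trans (g.trans e.symm)) (hfix g L' hg)
  refine ⟨e ν, by rw [← map_pow, hν, map_one], ?_⟩
  rcases h1 with h1 | h1
  · left
    rintro ψ ψ' η h2 h3 h4 h5 h6 _ ⟨x, hx, rfl⟩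
    have h7 := h1 (e.trans (ψ.trans e.symm)) (e.trans (ψ'.trans e.symm)) (e.symm η)
      (hfix ψ K₀ h2) (hfix ψ' K₀ h3) (by rw [← map_pow, h4, map_one]) (by
        show e.symm (ψ (e z)) = e.symm η * z
        rw [h5, map_mul, e.symm_apply_apply]) (by
        show e.symm (ψ' (e z)) = ν * e.symm η * z
        rw [h6, map_mul, map_mul, e.symm_apply_apply, e.symm_apply_apply]) x hx
    have h8 : e.symm (g (e (e.symm (ψ (e x))))) = e.symm (ψ' (e x)) := h7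
    rw [e.apply_symm_apply] at h8
    exact e.symm.injective h8
  · right
    rintro ψ ψ' η h2 h3 h4 h5 h6 _ ⟨x, hx, rfl⟩
    have h7 := h1 (e.trans (ψ.trans e.symm)) (e.trans (ψ'.trans e.symm)) (e.symm η)
      (hfix ψ K₀ h2) (hfix ψ' K₀ h3) (by rw [← map_pow, h4, map_one]) (by
        show e.symm (ψ (e z)) = e.symm η * z
        rw [h5, map_mul, e.symm_apply_apply]) (by
        show e.symm (ψ' (e z)) = ν * (e.symm η)⁻¹ * z
        rw [h6, map_mul, map_mul, map_inv₀, e.symm_apply_apply, e.symm_apply_apply]) x hx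
    have h8 : e.symm (g (e (e.symm (ψ (e x))))) = e.symm (ψ' (e x)) := h7
    rw [e.apply_symm_apply] at h8
    exact e.symm.injective h8

theorem GdD.congr (e : M ≃ₐ[k] M') {K₀ L₀ : IntermediateField k M} {z : M}
    {L : IntermediateField k M'}
    (h : GdD (K₀.map (e : M →ₐ[k] M')) (e z) (L₀.map (e : M →ₐ[k] M')) L) :
    GdD K₀ z L₀ (L.map (e.symm : M' →ₐ[k] M)) := by
  rcases h with ⟨K₁, K₂, h1, h2, h3, h4, rfl⟩ | rfl | rfl | rfl
  · left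
    exact ⟨K₁.map _, K₂.map _, map_fg _ _ h1, map_fg _ _ h2, (map_trdeg _ K₁).le.trans h3,
      (map_trdeg _ K₂).le.trans h4, IntermediateField.map_sup _ _ _⟩
  · right; left
    rw [map_map_symm]
  · right; right; left
    rw [map_sup_adjoin, map_map_symm]
    congr 3
    show e.symm (e z ^ 2) = z ^ 2
    rw [map_pow, e.symm_apply_apply]
  · right; right; right
    rw [map_map_symm]

theorem GdD.fg {K₀ L₀ : IntermediateField k M} {z : M} (h₁ : K₀.FG) (h₂ : L₀.FG)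
    (L : IntermediateField k M) (h : GdD K₀ z L₀ L) : L.FG := by
  rcases h with ⟨K₁, K₂, h1, h2, -, -, rfl⟩ | rfl | rfl | rfl
  · exact IntermediateField.fg_sup h1 h2
  · exact h₁
  · exact IntermediateField.fg_sup h₁ ⟨{z ^ 2}, by rw [Finset.coe_singleton]⟩
  · exact h₂

end

/-- the theorem for a subfield -/
theorem final6 {k M : Type u} [Field k] [Field M] [Algebra k M] [IsAlgClosed M]
    (K₀ : IntermediateField k M) (hfg : K₀.FG) (htd : Algebra.trdeg k M = 2)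
    (hal : ∀ x : M, IsAlgebraic K₀ x) (B₁ B₂ : k[X]) (hb : Bc k M 6 B₁ B₂)
    (hbds : ∀ e ∈ bds k M B₁ B₂, e = 1 ∨ e = 2 ∨ e = 3)
    (z : M) (z0 : z ≠ 0) (zN : z ^ 6 ∈ K₀)
    (irr : Irreducible (X ^ 6 - C (⟨z ^ 6, zN⟩ : K₀)))
    (ζ : M) (hζ : IsPrimitiveRoot ζ 3) (hζK : ζ ∈ K₀)
    (F L₀ : IntermediateField k M) (hFfg : F.FG) (hFal : ∀ x : M, IsAlgebraic F x)
    (hFK : F ≤ K₀ ⊔ IntermediateField.adjoin k {z}) (hL₀fg : L₀.FG)
    (hL₀ : ∀ x : M, IsAlgebraic L₀ x) (hD : Dih K₀ z F L₀)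
    (L : Type u) [Field L] [Algebra k L] [Algebra K₀ L] [IsScalarTower k K₀ L] (a w : L)
    (ha : Transcendental K₀ a)
    (hw : w ^ 6 * aeval a B₁ = algebraMap K₀ L ⟨z ^ 6, zN⟩ * aeval a B₂)
    (hgen : IntermediateField.adjoin K₀ {a, w} = ⊤) (hL : Uniruled k L) :
    ∃ (n : ℕ) (L' : Fin n → IntermediateField k M),
      (∀ j, GdD K₀ z L₀ (L' j) ∧ ∀ x : M, IsAlgebraic (L' j) x) ∧
      ∀ ℓ : ℕ, ℓ.Prime → (ℓ : k) ≠ 0 →
        ∃ f : Vl k F M ℓ →* (∀ j, Vl k (L' j) M ℓ), Function.Injective f := by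
  obtain ⟨K, hKdef⟩ : ∃ K, K = K₀ ⊔ IntermediateField.adjoin k {z} := ⟨_, rfl⟩
  have hK₀K : K₀ ≤ K := by rw [hKdef]; exact le_sup_left
  have hKal : ∀ x : M, IsAlgebraic K x := fun x => alg_mono hK₀K (hal x)
  have hKfg : K.FG := by
    rw [hKdef]
    exact IntermediateField.fg_sup hfg ⟨{z}, by rw [Finset.coe_singleton]⟩
  have hFK' : F ≤ K := by
    rw [hKdef]
    exact hFK
  by_cases hNU : NU K
  swap
  · obtain ⟨K₁, K₂, h1, h2, h3, h4, h5, h6⟩ := nu_case K hKfg hKal hNU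
    refine ⟨1, fun _ => K₁ ⊔ K₂, fun _ => ⟨Or.inl ⟨K₁, K₂, h1, h2, h3, h4, rfl⟩, h5⟩,
      fun ℓ hℓ _ => ?_⟩
    obtain ⟨f, hf⟩ := h6 ℓ hℓ
    obtain ⟨f', hf'⟩ := vl_res F K hFK' hKfg hFal hℓ
    exact pi_const_aux (f.comp f') (hf.comp hf')
  have hdv : ∀ e ∈ bds k M B₁ B₂, ¬ 6 ∣ e := by
    intro e he hd
    rcases hbds e he with rfl | rfl | rfl <;> omega
  obtain ⟨Ω, _, _, A, H, e, a', w', U, t, hΩ, hA, hH, hc⟩ := setup K₀ hfg htd hal 6 B₁ B₂ hb hdv z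
    z0 zN irr L a w ha hw hgen hL
  have hNU' : NU (K₀.map (e : M →ₐ[k] A) ⊔ IntermediateField.adjoin k {e z}) := by
    have h1 := hNU.congr e
    rw [hKdef, map_sup_adjoin] at h1
    exact h1
  obtain ⟨m, ξ, h, h0, hR, hpos⟩ := blockR6 A H (K₀.map (e : M →ₐ[k] A)) (e z) 6 B₁ B₂ a' w' U t
    hc hNU'
  -- the automorphism
  obtain ⟨g₁, hg₁, hg₁z⟩ := exists_aut K₀ hal 6 (by norm_num) z (ζ * z) zN (by
    rw [mul_pow, show ζ ^ 6 = (ζ ^ 3) ^ 2 by ring, hζ.pow_eq_one, one_pow, one_mul]) irr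
  have hFAal : ∀ x : A, IsAlgebraic (F.map (e : M →ₐ[k] A)) x := fun x =>
    algK e F _ (fun x => mem_map_iff e F x) hFal x
  have htdA : Algebra.trdeg k A < Cardinal.aleph0 := by
    rw [hc.tdA]
    exact Cardinal.ofNat_lt_aleph0
  have hG : GSt A (GdD (K₀.map (e : M →ₐ[k] A)) (e z) (L₀.map (e : M →ₐ[k] A)))
      (F.map (e : M →ₐ[k] A)) := by
    refine gst_dih A htdA _ hc.al (e z) hc.z0 hc.zN B₁ B₂ (fun d hd => hbds d ?_) (e ζ)
      (hζ.map_of_injective e.injective) ⟨ζ, hζK, rfl⟩ (e.symm.trans (g₁.trans e)) ?_ ?_ _ _ ?_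
      (fun x => algK e L₀ _ (fun x => mem_map_iff e L₀ x) hL₀ x) (hD.congr e) ξ h h0 hR hpos
    · rwa [bds_congr e] at hd
    · rintro _ ⟨x, hx, rfl⟩
      show e (g₁ (e.symm (e x))) = e x
      rw [e.symm_apply_apply, hg₁ x hx]
    · show e (g₁ (e.symm (e z))) = e ζ * e z
      rw [e.symm_apply_apply, hg₁z, map_mul]
    · have h1 := IntermediateField.map_mono (e : M →ₐ[k] A) hFK
      rw [map_sup_adjoin] at h1
      exact h1
  obtain ⟨n, L₁, hL₁, hf⟩ := combineG (blockR k Ω) A (invSt_aux k A)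
    (GdD (K₀.map (e : M →ₐ[k] A)) (e z) (L₀.map (e : M →ₐ[k] A)))
    (fun L h => GdD.fg hc.fg (map_fg _ _ hL₀fg) L h) (F.map (e : M →ₐ[k] A))
    (map_fg _ _ hFfg) hFAal hc.trA htdA ⟨a', hc.aA⟩ hG
  have hL₁e : ∀ j x, x ∈ L₁ j ↔ e.symm x ∈ (L₁ j).map (e.symm : A →ₐ[k] M) := fun j x =>
    mem_map_iff e.symm (L₁ j) x
  refine ⟨n, fun j => (L₁ j).map (e.symm : A →ₐ[k] M), fun j => ⟨(hL₁ j).1.congr e, fun x =>
    algK e.symm (L₁ j) _ (hL₁e j) (hL₁ j).2 x⟩, fun ℓ hℓ hℓk => ?_⟩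
  obtain ⟨f, hf⟩ := hf ℓ hℓ hℓk
  have hKe : ∀ x : M, x ∈ F ↔ e x ∈ F.map (e : M →ₐ[k] A) := fun x => mem_map_iff e F x
  exact @pi_comp_aux _ _ _ _ _ _ _ _ _ (vlH e _ _ hKe hFal ℓ) (vlH_injective e _ _ hKe hFal ℓ)
    f hf (fun j => vlH e.symm (L₁ j) _ (hL₁e j) (hL₁ j).2 ℓ)
    (fun j => vlH_injective e.symm (L₁ j) _ (hL₁e j) (hL₁ j).2 ℓ)

/-- the theorem for a subfield, if the group `V_ℓ` of the other fields is known -/
theorem emt_6D {k M : Type u} [Field k] [Field M] [Algebra k M] [IsAlgClosed M]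
    (K₀ : IntermediateField k M) (hfg : K₀.FG) (htd : Algebra.trdeg k M = 2)
    (hal : ∀ x : M, IsAlgebraic K₀ x) (B₁ B₂ : k[X]) (hb : Bc k M 6 B₁ B₂)
    (hbds : ∀ e ∈ bds k M B₁ B₂, e = 1 ∨ e = 2 ∨ e = 3)
    (z : M) (z0 : z ≠ 0) (zN : z ^ 6 ∈ K₀)
    (irr : Irreducible (X ^ 6 - C (⟨z ^ 6, zN⟩ : K₀)))
    (ζ : M) (hζ : IsPrimitiveRoot ζ 3) (hζK : ζ ∈ K₀)
    (F L₀ : IntermediateField k M) (hFfg : F.FG) (hFal : ∀ x : M, IsAlgebraic F x)
    (hFK : F ≤ K₀ ⊔ IntermediateField.adjoin k {z}) (hL₀fg : L₀.FG)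
    (hL₀ : ∀ x : M, IsAlgebraic L₀ x) (hD : Dih K₀ z F L₀)
    (L : Type u) [Field L] [Algebra k L] [Algebra K₀ L] [IsScalarTower k K₀ L] (a w : L)
    (ha : Transcendental K₀ a)
    (hw : w ^ 6 * aeval a B₁ = algebraMap K₀ L ⟨z ^ 6, zN⟩ * aeval a B₂)
    (hgen : IntermediateField.adjoin K₀ {a, w} = ⊤) (hL : Uniruled k L)
    (e1 : Emt K₀) (e2 : Emt (K₀ ⊔ IntermediateField.adjoin k {z ^ 2})) (e3 : Emt L₀) : Emt F := by
  obtain ⟨n, L', h1, h2⟩ := final6 K₀ hfg htd hal B₁ B₂ hb hbds z z0 zN irr ζ hζ hζK F L₀ hFfg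
    hFal hFK hL₀fg hL₀ hD L a w ha hw hgen hL
  refine emt_of_inj (K' := F) (fun ℓ _ => ⟨MonoidHom.id _, Function.injective_id⟩) L' h2
    fun j => ?_
  rcases (h1 j).1 with h3 | h3 | h3 | h3
  · exact ADT.emt_two h3 (h1 j).2
  · rw [h3]
    exact e1
  · rw [h3]
    exact e2
  · rw [h3]
    exact e3

end Pool.Agent.ADH
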