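import Pool.Agent.ADH.V3
import Pool.Agent.NOC.Main

/-!
# Elliptic curves `y ^ 2 = ρ ^ 3 + B + c ^ 3 / ρ ^ 3`, `x = ρ + c / ρ`
-/

set_option autoImplicit false

namespace Pool.Agent.ADH

open Polynomial Pool.Agent.TBR Pool.Agent.TUQ Pool.Agent.UQ Pool.Agent.WLD Pool.Agent.ADT
  Pool.Agent.KTW Pool.Agent.NOC

universe u

variable {k M : Type u} [Field k] [Field M] [Algebra k M]

/-- `X ^ d - F` is irreducible if a prime divides `F` exactly once -/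
theorem irr_one (E : IntermediateField k M)
    (x : Fin 2 → M) (hx : AlgebraicIndependent E x) (π G' : MvPolynomial (Fin 2) E)
    (hp : Prime π) (hG' : ¬ π ∣ G') (d : ℕ) (hd : 0 < d) (K₀ : IntermediateField k M)
    (hK₀ : K₀ = E ⊔ IntermediateField.adjoin k (Set.range x)) (F : K₀)
    (hF : (F : M) = MvPolynomial.aeval x (π * G')) :
    Irreducible (X ^ d - C F : K₀[X]) := by
  have hinj : Function.Injective (MvPolynomial.aeval x : MvPolynomial (Fin 2) E →ₐ[E] M) := hx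
  obtain ⟨G, hG⟩ : ∃ G, G = π * G' := ⟨_, rfl⟩
  have hG0 : G ≠ 0 := by
    rw [hG]
    exact mul_ne_zero hp.ne_zero fun h => hG' (h ▸ dvd_zero _)
  have hF0 : (F : M) ≠ 0 := by
    rw [hF, ← hG]
    intro h
    exact hG0 (hinj (by rw [h, map_zero]))
  refine irr_of_pow d hd F fun n b hb => ?_
  have hbM : (b : M) ^ d = (F : M) ^ n := by
    have := congrArg (Subtype.val) hb
    push_cast at this
    exact this
  have hmem : (b : M) ∈ IntermediateField.adjoin E (Set.range x) := by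
    have h1 : K₀ ≤ (IntermediateField.adjoin E (Set.range x)).restrictScalars k := by
      rw [hK₀]
      refine sup_le (fun c hc => ?_) ?_
      · exact (IntermediateField.adjoin E (Set.range x)).algebraMap_mem ⟨c, hc⟩
      · rw [IntermediateField.adjoin_le_iff]
        exact IntermediateField.subset_adjoin E (Set.range x)
    exact h1 b.2
  obtain ⟨r, s, hrs⟩ := (IntermediateField.mem_adjoin_range_iff E x (b : M)).1 hmem
  have hb0 : (b : M) ^ d ≠ 0 := by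
    rw [hbM]
    exact pow_ne_zero _ hF0
  have hs0 : MvPolynomial.aeval x s ≠ 0 := by
    intro h
    rw [h, div_zero] at hrs
    rw [hrs, zero_pow hd.ne'] at hb0
    exact hb0 rfl
  have hr0 : MvPolynomial.aeval x r ≠ 0 := by
    intro h
    rw [h, zero_div] at hrs
    rw [hrs, zero_pow hd.ne'] at hb0
    exact hb0 rfl
  have hs : s ≠ 0 := fun h => hs0 (by rw [h, map_zero])
  have hr : r ≠ 0 := fun h => hr0 (by rw [h, map_zero])
  have key : r ^ d = G ^ n * s ^ d := by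
    apply hinj
    rw [map_pow, map_mul, map_pow, map_pow]
    have h1 : (MvPolynomial.aeval x r) ^ d = (b : M) ^ d * (MvPolynomial.aeval x s) ^ d := by
      rw [hrs, div_pow, div_mul_cancel₀ _ (pow_ne_zero _ hs0)]
    rw [h1, hbM, hF, ← hG]
  have h2 := congrArg (emultiplicity π) key
  have h4 : emultiplicity π G = 1 := by
    rw [hG, emultiplicity_mul hp, emultiplicity_eq_zero.2 hG', add_zero,
      FiniteMultiplicity.emultiplicity_self
        (FiniteMultiplicity.of_prime_left hp hp.ne_zero)]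
  rw [emultiplicity_pow hp, emultiplicity_mul hp, emultiplicity_pow hp, emultiplicity_pow hp, h4]
    at h2
  have hfr : FiniteMultiplicity π r := FiniteMultiplicity.of_prime_left hp hr
  have hfs : FiniteMultiplicity π s := FiniteMultiplicity.of_prime_left hp hs
  rw [hfr.emultiplicity_eq_multiplicity, hfs.emultiplicity_eq_multiplicity] at h2
  have h3 : d * multiplicity π r = n * 1 + d * multiplicity π s := by
    exact_mod_cast h2
  have h5 : d ∣ n * 1 + d * multiplicity π s := ⟨_, h3.symm⟩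
  have h6 := (Nat.dvd_add_left (Dvd.intro _ rfl)).1 h5
  rwa [mul_one] at h6

/-- the automorphism `ψ` with `ψ(z) = η z` -/
theorem psi_rho (K₀ : IntermediateField k M) (ρ y Q η : M) (hQK : Q ∈ K₀) (ρ0 : ρ ≠ 0)
    (Q0 : Q ≠ 0) (h2 : (y * ρ ^ 2) ^ 2 = ρ * Q) (ψ : M ≃ₐ[k] M) (hψ : ∀ x ∈ K₀, ψ x = x)
    (hη : η ^ 6 = 1) (hψz : ψ (y * ρ ^ 2) = η * (y * ρ ^ 2)) :
    ψ ρ = η ^ 2 * ρ ∧ ψ y = η ^ 3 * y := by
  have e1 : ψ ρ = η ^ 2 * ρ := by
    apply mul_right_cancel₀ Q0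
    have e2 : ψ (ρ * Q) = ψ ρ * Q := by rw [map_mul, hψ Q hQK]
    rw [← e2, ← h2, map_pow, hψz]
    linear_combination η ^ 2 * h2
  refine ⟨e1, ?_⟩
  have e3 : ψ y * (η ^ 4 * ρ ^ 2) = η * (y * ρ ^ 2) := by
    rw [← hψz, map_mul, map_pow, e1]
    ring
  apply mul_right_cancel₀ (pow_ne_zero 2 ρ0)
  linear_combination η ^ 2 * e3 - ψ y * ρ ^ 2 * hη

/-- the dihedral group -/
theorem dih_of (K₀ L₀ : IntermediateField k M) (S₀ : Set M) (hS₀K : S₀ ⊆ K₀) (hS₀L : S₀ ⊆ L₀)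
    (ζ ρ y c B Q : M) (hζ : IsPrimitiveRoot ζ 3) (hζL : ζ ∈ L₀) (hcL : c ∈ L₀) (hcK : c ∈ K₀)
    (hBL : B ∈ L₀) (hyL : y ∈ L₀) (hQK : Q ∈ K₀) (c0 : c ≠ 0) (ρ0 : ρ ≠ 0) (Q0 : Q ≠ 0)
    (h1 : y ^ 2 * ρ ^ 3 = ρ ^ 6 + B * ρ ^ 3 + c ^ 3) (h2 : (y * ρ ^ 2) ^ 2 = ρ * Q) :
    Dih K₀ (y * ρ ^ 2) (IntermediateField.adjoin k (S₀ ∪ {ρ + c / ρ, y})) L₀ := by
  have h3 : NeZero 3 := ⟨by norm_num⟩
  intro g hg
  have gy : g y = y := hg y hyL
  have gc : g c = c := hg c hcL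
  have gB : g B = B := hg B hBL
  have gρ0 : g ρ ≠ 0 := (map_ne_zero_iff g g.injective).2 ρ0
  have gη : ∀ η : M, η ^ 6 = 1 → g η = η := fun η hη => hg η (six_root L₀ ζ hζ hζL η hη)
  have h4 : y ^ 2 * g ρ ^ 3 = g ρ ^ 6 + B * g ρ ^ 3 + c ^ 3 := by
    have h5 := congrArg g h1
    rw [map_mul, map_add, map_add, map_mul, map_pow, map_pow, map_pow, map_pow, gy, gB, gc] at h5
    exact h5
  have h5 : (g ρ ^ 3 - ρ ^ 3) * (c ^ 3 - (g ρ * ρ) ^ 3) = 0 := by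
    linear_combination ρ ^ 3 * h4 - g ρ ^ 3 * h1
  have hη0 : ∀ η : M, η ^ 6 = 1 → η ≠ 0 := by
    rintro _ h rfl
    rw [zero_pow (by norm_num)] at h
    exact zero_ne_one h
  rcases mul_eq_zero.1 h5 with h6 | h6
  · -- `g ρ = ε ρ`
    obtain ⟨ε, hε⟩ : ∃ ε, ε = g ρ / ρ := ⟨_, rfl⟩
    have hε3 : ε ^ 3 = 1 := by
      rw [hε, div_pow, sub_eq_zero.1 h6, div_self (pow_ne_zero _ ρ0)]
    have hερ : g ρ = ε * ρ := by rw [hε, div_mul_cancel₀ _ ρ0]
    have hε0 : ε ≠ 0 := by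
      rintro rfl
      rw [zero_pow (by norm_num)] at hε3
      exact zero_ne_one hε3
    refine ⟨ε ^ 2, by rw [← pow_mul, mul_comm, pow_mul, hε3, one_pow], Or.inl ?_⟩
    intro ψ ψ' η hψ hψ' hη hψz hψ'z
    have hη' : (ε ^ 2 * η) ^ 6 = 1 := by
      rw [mul_pow, hη, ← pow_mul, show 2 * 6 = 3 * 4 by norm_num, pow_mul, hε3, one_pow, one_mul]
    obtain ⟨a1, a2⟩ := psi_rho K₀ ρ y Q η hQK ρ0 Q0 h2 ψ hψ hη hψz
    obtain ⟨b1, b2⟩ := psi_rho K₀ ρ y Q (ε ^ 2 * η) hQK ρ0 Q0 h2 ψ' hψ' hη' hψ'z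
    refine agree_adjoin ψ ψ' g _ ?_
    rintro x (hx | hx | hx)
    · rw [hψ x (hS₀K hx), hψ' x (hS₀K hx)]
      exact hg x (hS₀L hx)
    · rw [hx, map_add, map_div₀, map_add, map_div₀, map_add, map_div₀, a1, b1, hψ c hcK,
        hψ' c hcK, gc, map_mul, map_pow, gη η hη, hερ]
      have e1 : (ε ^ 2 * η) ^ 2 * ρ = η ^ 2 * (ε * ρ) := by
        linear_combination (ε * η ^ 2 * ρ) * hε3
      rw [e1]
    · rw [hx, a2, b2, map_mul, map_pow, gη η hη, gy]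
      linear_combination (-(η ^ 3 * y) * (ε ^ 3 + 1)) * hε3
  · -- `g ρ = ε c / ρ`
    obtain ⟨ε, hε⟩ : ∃ ε, ε = g ρ * ρ / c := ⟨_, rfl⟩
    have hε3 : ε ^ 3 = 1 := by
      rw [hε, div_pow, ← sub_eq_zero.1 h6, div_self (pow_ne_zero _ c0)]
    have hερ : g ρ = ε * c / ρ := by
      rw [hε]
      field_simp
    have hε0 : ε ≠ 0 := by
      rintro rfl
      rw [zero_pow (by norm_num)] at hε3
      exact zero_ne_one hε3
    refine ⟨ε, hε3, Or.inr ?_⟩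
    intro ψ ψ' η hψ hψ' hη hψz hψ'z
    have η0 := hη0 η hη
    have hη' : (ε * η⁻¹) ^ 6 = 1 := by
      rw [mul_pow, inv_pow, hη, show ε ^ 6 = (ε ^ 3) ^ 2 by ring, hε3, one_pow, inv_one, one_mul]
    obtain ⟨a1, a2⟩ := psi_rho K₀ ρ y Q η hQK ρ0 Q0 h2 ψ hψ hη hψz
    obtain ⟨b1, b2⟩ := psi_rho K₀ ρ y Q (ε * η⁻¹) hQK ρ0 Q0 h2 ψ' hψ' hη' hψ'z
    refine agree_adjoin ψ ψ' g _ ?_
    rintro x (hx | hx | hx)
    · rw [hψ x (hS₀K hx), hψ' x (hS₀K hx)]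
      exact hg x (hS₀L hx)
    · rw [hx, map_add, map_div₀, map_add, map_div₀, map_add, map_div₀, a1, b1, hψ c hcK,
        hψ' c hcK, gc, map_mul, map_pow, gη η hη, hερ]
      have e1 : (ε * η⁻¹) ^ 2 * ρ = ρ / (ε * η ^ 2) := by
        rw [eq_div_iff (mul_ne_zero hε0 (pow_ne_zero _ η0))]
        have e2 : (ε * η⁻¹) ^ 2 * ρ * (ε * η ^ 2) = ε ^ 3 * ρ * (η⁻¹ * η) ^ 2 := by ring
        rw [e2, inv_mul_cancel₀ η0, hε3]
        ring
      rw [e1]
      field_simp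
      ring
    · rw [hx, a2, b2, map_mul, map_pow, gη η hη, gy]
      have e1 : (ε * η⁻¹) ^ 3 = η ^ 3 := by
        rw [mul_pow, hε3, one_mul, inv_pow]
        rw [inv_eq_iff_eq_inv, eq_comm, inv_eq_of_mul_eq_one_left]
        linear_combination hη
      rw [e1]

end Pool.Agent.ADH
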