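import Pool.Agent.ADH.T9a

/-!
# Characteristic five: the threefold `Y ^ 2 = X ^ 3 + R Q ^ 3`, `Q = R ^ 2 + B R + 2 (G ^ 5 A) ^ 3`

It is dominated by `y ^ 2 = x ^ 3 + (v ^ 5 - A ^ 6 B) (v ^ 2 + 2 G ^ 3 A ^ 3)`.
-/

set_option autoImplicit false

namespace Pool.Agent.ADH

open Polynomial Pool.Agent.TUQ Pool.Agent.UQ Pool.Agent.WLD Pool.Agent.ADT Pool.Agent.KTW

universe u

/-- the point of the dominating threefold -/
theorem dom5 {Ω : Type u} [Field Ω] [IsAlgClosed Ω] [CharP Ω 5] (G A B R a w : Ω) (A0 : A ≠ 0)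
    (hc : B ^ 2 + 2 * (G ^ 5 * A) ^ 3 ≠ 0) (w0 : w ≠ 0) (a0 : a ≠ 0) (a1 : 1 + a ≠ 0)
    (hw : w ^ 6 * (1 + a) = R * (R ^ 2 + B * R + 2 * (G ^ 5 * A) ^ 3) ^ 3 * a ^ 3) :
    ∃ v x y t δ : Ω, t ≠ 0 ∧ δ ≠ 0 ∧ y ^ 2 = x ^ 3 + (v ^ 5 - A ^ 6 * B) * (v ^ 2 + 2 * G ^ 3 * A ^ 3) ∧
      t = v ^ 5 / A ^ 6 - B ∧ R = ((t + B) ^ 2 + 2 * (G ^ 5 * A) ^ 3) / t ∧
      δ = (t ^ 2 - (B ^ 2 + 2 * (G ^ 5 * A) ^ 3)) / t ∧
      w = (y ^ 5 / A ^ 21 * δ ^ 3 / t ^ 3) / (x ^ 5 / A ^ 14 * δ ^ 2 / t ^ 2) ∧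
      a = -w ^ 2 / (x ^ 5 / A ^ 14 * δ ^ 2 / t ^ 2) := by
  have h5 : (5 : Ω) = 0 := by exact_mod_cast CharP.cast_eq_zero Ω 5
  have hp : Fact (Nat.Prime 5) := ⟨Nat.prime_five⟩
  obtain ⟨c, hcc⟩ : ∃ c, c = B ^ 2 + 2 * (G ^ 5 * A) ^ 3 := ⟨_, rfl⟩
  rw [← hcc] at hc
  -- the function `t`
  obtain ⟨t, ht⟩ : ∃ t : Ω, t ^ 2 - (R - 2 * B) * t + c = 0 := by
    have hd : (X ^ 2 - C (R - 2 * B) * X + C c : Polynomial Ω).degree ≠ 0 := by
      have : (X ^ 2 - C (R - 2 * B) * X + C c : Polynomial Ω).degree = 2 := by compute_degree!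
      rw [this]
      decide
    obtain ⟨t, ht⟩ := IsAlgClosed.exists_root _ hd
    exact ⟨t, by simpa [IsRoot] using ht⟩
  have t0 : t ≠ 0 := by
    rintro rfl
    apply hc
    simpa using ht
  have e1 : R * t = t ^ 2 + 2 * B * t + c := by linear_combination -ht
  obtain ⟨Q, hQ⟩ : ∃ Q, Q = R ^ 2 + B * R + 2 * (G ^ 5 * A) ^ 3 := ⟨_, rfl⟩
  rw [← hQ] at hw
  have hRQ : R * Q ^ 3 ≠ 0 := by
    intro h
    rw [h, zero_mul] at hw
    exact mul_ne_zero (pow_ne_zero _ w0) a1 hw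
  have R0 : R ≠ 0 := left_ne_zero_of_mul hRQ
  have Q0 : Q ≠ 0 := fun h => hRQ (by rw [h, zero_pow (by norm_num), mul_zero])
  have e2 : (t ^ 2 - c) ^ 2 = Q * t ^ 2 := by
    rw [hQ]
    rw [hcc] at e1 ⊢
    generalize (G ^ 5 * A) ^ 3 = A3 at e1 ⊢
    linear_combination (-(t ^ 2 + 2 * B * t + (B ^ 2 + 2 * A3) + R * t + B * t)) * e1 +
      (- t ^ 3 * B - 2 * t ^ 2 * A3 - 2 * t ^ 2 * B ^ 2 - 2 * t * A3 * B - t * B ^ 3) * h5
  obtain ⟨δ, hδ⟩ : ∃ δ, δ = (t ^ 2 - c) / t := ⟨_, rfl⟩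
  have e3 : δ ^ 2 = Q := by
    rw [hδ, div_pow, e2, mul_div_assoc, div_self (pow_ne_zero _ t0), mul_one]
  have δ0 : δ ≠ 0 := by
    rintro rfl
    apply Q0
    rw [← e3, zero_pow (by norm_num)]
  -- the function `v`
  obtain ⟨v, hv⟩ := IsAlgClosed.exists_pow_nat_eq (A ^ 6 * (t + B)) (n := 5) (by norm_num)
  obtain ⟨X₀, hX₀⟩ : ∃ X₀, X₀ = -w ^ 2 / a := ⟨_, rfl⟩
  obtain ⟨Y₀, hY₀⟩ : ∃ Y₀, Y₀ = -w ^ 3 / a := ⟨_, rfl⟩
  have X0 : X₀ ≠ 0 := by
    rw [hX₀]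
    exact div_ne_zero (neg_ne_zero.2 (pow_ne_zero _ w0)) a0
  have e4 : Y₀ ^ 2 = X₀ ^ 3 + R * Q ^ 3 := by
    rw [hX₀, hY₀]
    field_simp
    linear_combination hw
  obtain ⟨x, hx⟩ := IsAlgClosed.exists_pow_nat_eq (A ^ 14 * (X₀ * t ^ 2 / δ ^ 2)) (n := 5)
    (by norm_num)
  obtain ⟨y, hy⟩ := IsAlgClosed.exists_pow_nat_eq (A ^ 21 * (Y₀ * t ^ 3 / δ ^ 3)) (n := 5)
    (by norm_num)
  have e5 : (y ^ 5) ^ 2 = (x ^ 5) ^ 3 + A ^ 42 * (t ^ 6 * R) := by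
    rw [hx, hy]
    have h1 : (A ^ 21 * (Y₀ * t ^ 3 / δ ^ 3)) ^ 2 = A ^ 42 * (t ^ 6 / δ ^ 6) * Y₀ ^ 2 := by
      field_simp
    have h2 : (A ^ 14 * (X₀ * t ^ 2 / δ ^ 2)) ^ 3 = A ^ 42 * (t ^ 6 / δ ^ 6) * X₀ ^ 3 := by
      field_simp
    rw [h1, h2, e4, ← e3]
    field_simp
  have e6 : ((v ^ 5 - A ^ 6 * B) * (v ^ 2 + 2 * G ^ 3 * A ^ 3)) ^ 5 = A ^ 42 * (t ^ 6 * R) := by
    have h1 : (v ^ 2 + 2 * G ^ 3 * A ^ 3) ^ 5 =
        A ^ 12 * ((t + B) ^ 2 + 2 * (G ^ 5 * A) ^ 3) := by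
      rw [add_pow_char]
      have h2 : (v ^ 2) ^ 5 = (v ^ 5) ^ 2 := by ring
      rw [h2, hv]
      linear_combination (6 * G ^ 15 * A ^ 15) * h5
    have h3 : v ^ 5 - A ^ 6 * B = A ^ 6 * t := by rw [hv]; ring
    rw [mul_pow, h1, h3]
    have h4 : (t + B) ^ 2 + 2 * (G ^ 5 * A) ^ 3 = R * t := by rw [e1, hcc]; ring
    rw [h4]
    ring
  have e7 : y ^ 2 = x ^ 3 + (v ^ 5 - A ^ 6 * B) * (v ^ 2 + 2 * G ^ 3 * A ^ 3) := by
    have h1 : (y ^ 2 - (x ^ 3 + (v ^ 5 - A ^ 6 * B) * (v ^ 2 + 2 * G ^ 3 * A ^ 3))) ^ 5 = 0 := by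
      rw [sub_pow_char, add_pow_char, e6]
      linear_combination e5
    exact sub_eq_zero.1 (pow_eq_zero_iff (n := 5) (by norm_num) |>.1 h1)
  have e8 : x ^ 5 / A ^ 14 * δ ^ 2 / t ^ 2 = X₀ := by
    rw [hx]
    field_simp
  have e9 : y ^ 5 / A ^ 21 * δ ^ 3 / t ^ 3 = Y₀ := by
    rw [hy]
    field_simp
  refine ⟨v, x, y, t, δ, t0, δ0, e7, ?_, ?_, ?_, ?_, ?_⟩
  · rw [hv]
    field_simp
    ring
  · rw [eq_div_iff t0, e1, hcc]
    ring
  · rw [hδ, hcc]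
  · rw [e8, e9, hX₀, hY₀]
    field_simp
  · rw [e8, hX₀]
    field_simp

/-- the weights -/
abbrev w5 : Fin 4 → ℕ := ![6, 1, 14, 21]

/-- the threefold is uniruled -/
theorem uni5 {κ : Type u} [Field κ] [CharP κ 5] (γ α β : κ[X]) (hα : α ≠ 0)
    (hΔ : β ^ 2 + 2 * (γ ^ 5 * α) ^ 3 ≠ 0) (dα : γ.natDegree + α.natDegree ≤ 4)
    (dβ : 6 * α.natDegree + β.natDegree ≤ 30) {K₀ L : Type u} [Field K₀] [Field L]
    [Algebra κ K₀] [Algebra κ L] [Algebra K₀ L] [IsScalarTower κ K₀ L] (s R : K₀)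
    (hs : Transcendental κ s) (hK₀ : IntermediateField.adjoin κ {s, R} = ⊤)
    (htd : Algebra.trdeg κ K₀ = 2) (a w : L) (ha : Transcendental K₀ a) (hw0 : w ≠ 0)
    (hw : w ^ 6 * (1 + a) = algebraMap K₀ L (R * (R ^ 2 + aeval s β * R +
      2 * (aeval s γ ^ 5 * aeval s α) ^ 3) ^ 3) * a ^ 3)
    (hgen : IntermediateField.adjoin K₀ {a, w} = ⊤) : Uniruled κ L := by
  classical
  obtain ⟨hfin, htr⟩ := trdeg_of_gen htd a w ha hgen
  have h2 : (2 : κ) ≠ 0 := by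
    intro h
    have h3 : ((2 : ℕ) : κ) = 0 := by exact_mod_cast h
    have h4 := (CharP.cast_eq_zero_iff κ 5 2).1 h3
    omega
  let Ω := AlgebraicClosure L
  have hCΩ : CharP Ω 5 := charP_of_injective_algebraMap (algebraMap κ Ω).injective 5
  obtain ⟨s', hs'⟩ : ∃ s' : Ω, s' = algebraMap L Ω (algebraMap K₀ L s) := ⟨_, rfl⟩
  obtain ⟨R', hR'⟩ : ∃ R' : Ω, R' = algebraMap L Ω (algebraMap K₀ L R) := ⟨_, rfl⟩
  obtain ⟨a', ha'⟩ : ∃ a' : Ω, a' = algebraMap L Ω a := ⟨_, rfl⟩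
  obtain ⟨w', hw'⟩ : ∃ w' : Ω, w' = algebraMap L Ω w := ⟨_, rfl⟩
  have hval : ∀ q : κ[X], algebraMap L Ω (algebraMap K₀ L (aeval s q)) = aeval s' q := by
    intro q
    rw [hs', Polynomial.aeval_algebraMap_apply, Polynomial.aeval_algebraMap_apply]
  have hinj : Function.Injective (fun b : K₀ => algebraMap L Ω (algebraMap K₀ L b)) :=
    (algebraMap L Ω).injective.comp (algebraMap K₀ L).injective
  have hne : ∀ q : κ[X], q ≠ 0 → aeval s' q ≠ 0 := by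
    intro q hq h
    rw [← hval, map_eq_zero, map_eq_zero] at h
    exact hs ⟨q, hq, h⟩
  have A0 := hne α hα
  have hc0 : aeval s' β ^ 2 + 2 * (aeval s' γ ^ 5 * aeval s' α) ^ 3 ≠ 0 := by
    have h3 := hne _ hΔ
    rwa [map_add, map_mul, map_pow, map_pow, map_mul, map_pow, map_ofNat] at h3
  have a0 : a ≠ 0 := by
    rintro rfl
    exact ha isAlgebraic_zero
  have a1 : 1 + a ≠ 0 := by
    intro h
    apply ha
    refine ⟨1 + X, ?_, ?_⟩
    · intro h3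
      have h4 := congrArg (fun p => p.coeff 1) h3
      simp [coeff_one] at h4
    · rw [map_add, map_one, aeval_X, h]
  have hw1 : w' ^ 6 * (1 + a') = R' * (R' ^ 2 + aeval s' β * R' +
      2 * (aeval s' γ ^ 5 * aeval s' α) ^ 3) ^ 3 * a' ^ 3 := by
    have h3 := congrArg (algebraMap L Ω) hw
    simp only [map_mul, map_add, map_pow, map_one, map_ofNat, hval, ← hR', ← ha', ← hw'] at h3
    exact h3
  obtain ⟨v, x, y, t, δ, t0, δ0, e1, e2, e3, e4, e5, e6⟩ := dom5 (aeval s' γ) (aeval s' α)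
    (aeval s' β) R' a' w' A0 hc0 (by rw [hw']; exact (_root_.map_ne_zero _).2 hw0)
    (by rw [ha']; exact (_root_.map_ne_zero _).2 a0)
    (by
      rw [ha', ← map_one (algebraMap L Ω), ← map_add]
      exact (_root_.map_ne_zero _).2 a1) hw1
  obtain ⟨η, hη⟩ : ∃ η : Fin 4 → Ω, η = ![v, s', x, y] := ⟨_, rfl⟩
  obtain ⟨L', hL'⟩ : ∃ L' : IntermediateField κ Ω, L' = IntermediateField.adjoin κ (Set.range η) :=
    ⟨_, rfl⟩
  have hηL : ∀ i, η i ∈ L' := fun i => by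
    rw [hL']
    exact IntermediateField.subset_adjoin _ _ ⟨i, rfl⟩
  have hvL : v ∈ L' := by
    have h3 := hηL 0
    rwa [hη] at h3
  have hsL : s' ∈ L' := by
    have h3 := hηL 1
    rwa [hη] at h3
  have hxL : x ∈ L' := by
    have h3 := hηL 2
    rwa [hη] at h3
  have hyL : y ∈ L' := by
    have h3 := hηL 3
    rwa [hη] at h3
  have hpL : ∀ q : κ[X], aeval s' q ∈ L' := by
    intro q
    have h3 : aeval s' q ∈ Algebra.adjoin κ ({s'} : Set Ω) :=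
      Polynomial.aeval_mem_adjoin_singleton κ s'
    have h4 : Algebra.adjoin κ ({s'} : Set Ω) ≤ L'.toSubalgebra :=
      Algebra.adjoin_le (by simpa using hsL)
    exact h4 h3
  have h2L : (2 : Ω) ∈ L' := by exact_mod_cast natCast_mem L' 2
  have htL : t ∈ L' := by
    rw [e2]
    exact sub_mem (div_mem (pow_mem hvL _) (pow_mem (hpL α) _)) (hpL β)
  have hRL : R' ∈ L' := by
    rw [e3]
    exact div_mem (add_mem (pow_mem (add_mem htL (hpL β)) _)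
      (mul_mem h2L (pow_mem (mul_mem (pow_mem (hpL γ) _) (hpL α)) _))) htL
  have hδL : δ ∈ L' := by
    rw [e4]
    exact div_mem (sub_mem (pow_mem htL _) (add_mem (pow_mem (hpL β) _)
      (mul_mem h2L (pow_mem (mul_mem (pow_mem (hpL γ) _) (hpL α)) _)))) htL
  have hXL : x ^ 5 / aeval s' α ^ 14 * δ ^ 2 / t ^ 2 ∈ L' :=
    div_mem (mul_mem (div_mem (pow_mem hxL _) (pow_mem (hpL α) _)) (pow_mem hδL _))
      (pow_mem htL _)
  have hYL : y ^ 5 / aeval s' α ^ 21 * δ ^ 3 / t ^ 3 ∈ L' :=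
    div_mem (mul_mem (div_mem (pow_mem hyL _) (pow_mem (hpL α) _)) (pow_mem hδL _))
      (pow_mem htL _)
  have hwL : w' ∈ L' := by
    rw [e5]
    exact div_mem hYL hXL
  have haL : a' ∈ L' := by
    rw [e6]
    exact div_mem (neg_mem (pow_mem hwL _)) hXL
  have hKL : ∀ b : K₀, algebraMap L Ω (algebraMap K₀ L b) ∈ L' := by
    intro b
    have h3 : (⊤ : IntermediateField κ K₀) ≤ L'.comap
        ((IsScalarTower.toAlgHom κ L Ω).comp (IsScalarTower.toAlgHom κ K₀ L)) := by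
      rw [← hK₀, IntermediateField.adjoin_le_iff]
      rintro c (rfl | rfl)
      · show algebraMap L Ω (algebraMap K₀ L _) ∈ L'
        rw [← hs']
        exact hsL
      · show algebraMap L Ω (algebraMap K₀ L _) ∈ L'
        rw [← hR']
        exact hRL
    exact h3 (IntermediateField.mem_top (x := b))
  have hLL : ∀ b : L, algebraMap L Ω b ∈ L' := by
    let E' : IntermediateField K₀ L :=
      { (L'.comap (IsScalarTower.toAlgHom κ L Ω)).toSubfield with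
        algebraMap_mem' := hKL }
    have h3 : (⊤ : IntermediateField K₀ L) ≤ E' := by
      rw [← hgen, IntermediateField.adjoin_le_iff]
      rintro c (rfl | rfl)
      · show algebraMap L Ω _ ∈ L'
        rw [← ha']
        exact haL
      · show algebraMap L Ω _ ∈ L'
        rw [← hw']
        exact hwL
    intro b
    exact h3 (IntermediateField.mem_top (x := b))
  refine uniruled_of_sub (Ω := Ω) L' hLL ?_
  have htrd := trdeg_of_sub (Ω := Ω) L' hLL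
  let ξ : Fin 4 → L' := fun i => ⟨η i, hηL i⟩
  have hgen' : IntermediateField.adjoin κ (Set.range ξ) = ⊤ := by
    apply IntermediateField.lift_injective L'
    rw [IntermediateField.lift_adjoin, IntermediateField.lift_top, ← Set.range_comp]
    exact hL'.symm
  let H₃ : MvPolynomial (Fin 3) κ := MvPolynomial.X 2 ^ 3 +
    (MvPolynomial.X 0 ^ 5 - aeval (MvPolynomial.X 1) α ^ 6 * aeval (MvPolynomial.X 1) β) *
      (MvPolynomial.X 0 ^ 2 + MvPolynomial.C 2 * aeval (MvPolynomial.X 1) γ ^ 3 *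
        aeval (MvPolynomial.X 1) α ^ 3)
  have hev : ∀ P : MvPolynomial (Fin 3) κ,
      ((MvPolynomial.aeval ξ (MvPolynomial.rename (Fin.castSucc : Fin 3 → Fin 4) P) : L') : Ω) =
        MvPolynomial.aeval ![v, s', x] P := by
    intro P
    have h3 := MvPolynomial.aeval_algebraMap_apply (A := L') (B := Ω) ξ
      (MvPolynomial.rename (Fin.castSucc : Fin 3 → Fin 4) P)
    have h4 : ((MvPolynomial.aeval ξ (MvPolynomial.rename (Fin.castSucc : Fin 3 → Fin 4) P) :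
        L') : Ω) = MvPolynomial.aeval (algebraMap L' Ω ∘ ξ)
          (MvPolynomial.rename (Fin.castSucc : Fin 3 → Fin 4) P) := h3.symm
    rw [h4, MvPolynomial.aeval_rename]
    congr 2
    funext i
    show η i.castSucc = ![v, s', x] i
    rw [hη]
    fin_cases i <;> rfl
  refine uniruled_square h2 ξ hgen' (by rw [htrd]; exact hfin) (by rw [htrd]; exact htr) 3
    (MvPolynomial.rename (Fin.castSucc : Fin 3 → Fin 4) H₃) ?_ ?_ w5 (by decide) ?_ (by decide)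
  · intro h
    have h3 := MvPolynomial.vars_rename (Fin.castSucc : Fin 3 → Fin 4) H₃ h
    rw [Finset.mem_image] at h3
    obtain ⟨j, -, hj⟩ := h3
    fin_cases j <;> simp at hj
  · apply Subtype.ext
    show (η 3) ^ 2 = _
    rw [hev, hη]
    have e0 : MvPolynomial.aeval ![v, s', x] (MvPolynomial.X 0 : MvPolynomial (Fin 3) κ) = v := by
      rw [MvPolynomial.aeval_X]
      rfl
    have e1' : ∀ q : κ[X], MvPolynomial.aeval ![v, s', x]
        (aeval (MvPolynomial.X 1 : MvPolynomial (Fin 3) κ) q) = aeval s' q := by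
      intro q
      rw [← Polynomial.aeval_algHom_apply, MvPolynomial.aeval_X]
      rfl
    have e2' : MvPolynomial.aeval ![v, s', x] (MvPolynomial.X 2 : MvPolynomial (Fin 3) κ) = x := by
      rw [MvPolynomial.aeval_X]
      rfl
    have e3' : MvPolynomial.aeval ![v, s', x] (MvPolynomial.C 2 : MvPolynomial (Fin 3) κ) = 2 := by
      rw [MvPolynomial.aeval_C, map_ofNat]
    simp only [H₃, map_add, map_sub, map_mul, map_pow, e0, e1', e2', e3']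
    exact e1
  · refine wle_rename _ _ (Fin.castSucc_injective 3) _ _ ?_
    have hw5 : (fun i : Fin 3 => w5 (Fin.castSucc i)) = ![6, 1, 14] := by
      funext i
      fin_cases i <;> rfl
    rw [hw5]
    show MvPolynomial.weightedTotalDegree ![6, 1, 14] H₃ ≤ 2 * 21
    refine wle_add _ _ _ _ ((wle_X_pow _ 2 3).trans (le_of_eq rfl)) ?_
    refine (wle_mul _ _ _ 30 12 (wle_sub _ _ _ _ ((wle_X_pow _ 0 5).trans (le_of_eq rfl)) ?_)
      (wle_add _ _ _ _ ((wle_X_pow _ 0 2).trans (le_of_eq rfl)) ?_)).trans (le_of_eq rfl)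
    · have h3 := wle_aeval_X ![6, 1, 14] 1 α
      have h4 := wle_aeval_X ![6, 1, 14] 1 β
      have h5 := wle_pow ![6, 1, 14] (aeval (MvPolynomial.X 1 : MvPolynomial (Fin 3) κ) α) 6
      have h6 : (![6, 1, 14] : Fin 3 → ℕ) 1 = 1 := rfl
      rw [h6, mul_one] at h3 h4
      exact (wle_mul _ _ _ _ _ h5 h4).trans (by omega)
    · have h3 := wle_aeval_X ![6, 1, 14] 1 α
      have h4 := wle_aeval_X ![6, 1, 14] 1 γ
      have h5 := wle_pow ![6, 1, 14] (aeval (MvPolynomial.X 1 : MvPolynomial (Fin 3) κ) α) 3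
      have h7 := wle_pow ![6, 1, 14] (aeval (MvPolynomial.X 1 : MvPolynomial (Fin 3) κ) γ) 3
      have h6 : (![6, 1, 14] : Fin 3 → ℕ) 1 = 1 := rfl
      rw [h6, mul_one] at h3 h4
      exact (wle_mul _ _ _ _ _ (wle_mul _ _ _ _ _ (wle_C _ 2) h7) h5).trans (by omega)

end Pool.Agent.ADH
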