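import Pool.Agent.ADH.V4
import Pool.Agent.ADH.V5
import Pool.Agent.KTW.E4
import Pool.Agent.ADT.T1

/-!
# Characteristic five: the function field of the surface `y ^ 2 = x ^ 3 + G(s) ^ 5 A(s) x + B(s)`
-/

set_option autoImplicit false

namespace Pool.Agent.ADH

open Polynomial Pool.Agent.TBR Pool.Agent.TUQ Pool.Agent.UQ Pool.Agent.WLD Pool.Agent.ADT
  Pool.Agent.KTW

universe u

variable {k M : Type u} [Field k] [Field M] [Algebra k M]

/-- the threefold over an extension of the field of constants -/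
theorem uni_5 [CharP k 5] (K₀ : IntermediateField k M) (htd : Algebra.trdeg k M = 2)
    (hal : ∀ y : M, IsAlgebraic K₀ y) (E : IntermediateField k M) (hEfg : E.FG)
    (hEtd : Algebra.trdeg k E = 0) (x : Fin 2 → M) (hx : AlgebraicIndependent E x)
    (hK₀ : K₀ = E ⊔ IntermediateField.adjoin k (Set.range x)) (γ α β : k[X]) (hα : α ≠ 0)
    (hΔ : β ^ 2 + 2 * (γ ^ 5 * α) ^ 3 ≠ 0) (dα : γ.natDegree + α.natDegree ≤ 4)
    (dβ : 6 * α.natDegree + β.natDegree ≤ 30) (F : K₀)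
    (hF : (F : M) = x 1 * (x 1 ^ 2 + aeval (x 0) β * x 1 +
      2 * (aeval (x 0) γ ^ 5 * aeval (x 0) α) ^ 3) ^ 3)
    (L : Type u) [Field L] [Algebra k L] [Algebra K₀ L] [IsScalarTower k K₀ L] (a w : L)
    (ha : Transcendental K₀ a) (hw0 : w ≠ 0) (hgen : IntermediateField.adjoin K₀ {a, w} = ⊤)
    (hw : w ^ 6 * (1 + a) = algebraMap K₀ L F * a ^ 3) : Uniruled k L := by
  have hle : E ≤ K₀ := by
    rw [hK₀]
    exact le_sup_left
  have hxK : ∀ i, x i ∈ K₀ := fun i => by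
    rw [hK₀]
    exact (le_sup_right : IntermediateField.adjoin k (Set.range x) ≤ _)
      (IntermediateField.subset_adjoin _ _ ⟨i, rfl⟩)
  let ι : E →ₐ[k] K₀ := IntermediateField.inclusion hle
  let algE : Algebra E K₀ := ι.toRingHom.toAlgebra
  let algL : Algebra E L := ((algebraMap K₀ L).comp ι.toRingHom).toAlgebra
  have tow1 : IsScalarTower E K₀ L := IsScalarTower.of_algebraMap_eq (fun _ => rfl)
  have tow2 : IsScalarTower k E K₀ := IsScalarTower.of_algebraMap_eq (fun b => (ι.commutes b).symm)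
  have tow3 : IsScalarTower k E L := IsScalarTower.of_algebraMap_eq (fun b => by
    rw [IsScalarTower.algebraMap_apply k K₀ L, ← ι.commutes b]
    rfl)
  have tow4 : IsScalarTower E K₀ M := IsScalarTower.of_algebraMap_eq (fun _ => rfl)
  obtain ⟨h3, h4⟩ := base_facts K₀ htd hal E hEtd x hK₀ hle hxK (fun _ => rfl)
  have hCE : CharP E 5 := charP_of_injective_algebraMap (algebraMap k E).injective 5
  have hEfg' : (⊤ : IntermediateField k E).FG := by
    rw [IntermediateField.fg_top_iff]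
    exact IntermediateField.essFiniteType_iff.2 hEfg
  have hmap0 : ∀ q : k[X], q ≠ 0 → q.map (algebraMap k E) ≠ 0 := fun q hq =>
    (Polynomial.map_ne_zero_iff (algebraMap k E).injective).2 hq
  have hae : ∀ q : k[X], ((aeval (⟨x 0, hxK 0⟩ : K₀) (q.map (algebraMap k E)) : K₀) : M) =
      aeval (x 0) q := by
    intro q
    rw [aeval_map_algebraMap]
    exact (Polynomial.aeval_algebraMap_apply (A := K₀) M (⟨x 0, hxK 0⟩ : K₀) q).symm
  have hts : Transcendental E (⟨x 0, hxK 0⟩ : K₀) := by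
    have h5 : Transcendental E (x 0) := hx.transcendental 0
    have h6 := (transcendental_algebraMap_iff (R := E) (S := K₀) (A := M)
      (a := (⟨x 0, hxK 0⟩ : K₀)) (algebraMap K₀ M).injective).1 h5
    exact h6
  refine Uniruled.tower (E := E) hEfg' (uni5 (κ := E) (γ.map (algebraMap k E))
    (α.map (algebraMap k E)) (β.map (algebraMap k E)) (hmap0 α hα) ?_
    (by rw [natDegree_map, natDegree_map]; exact dα)
    (by rw [natDegree_map, natDegree_map]; exact dβ) (⟨x 0, hxK 0⟩ : K₀) (⟨x 1, hxK 1⟩ : K₀) hts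
    h4 h3 a w ha hw0 ?_ hgen)
  · have h5 := hmap0 _ hΔ
    rwa [Polynomial.map_add, Polynomial.map_mul, Polynomial.map_pow, Polynomial.map_pow,
      Polynomial.map_mul, Polynomial.map_pow, Polynomial.map_ofNat] at h5
  · rw [hw]
    congr 2
    apply Subtype.ext
    rw [hF]
    show _ = x 1 * (x 1 ^ 2 + ((aeval (⟨x 0, hxK 0⟩ : K₀) (β.map (algebraMap k E)) : K₀) : M) *
      x 1 + 2 * (((aeval (⟨x 0, hxK 0⟩ : K₀) (γ.map (algebraMap k E)) : K₀) : M) ^ 5 *
        ((aeval (⟨x 0, hxK 0⟩ : K₀) (α.map (algebraMap k E)) : K₀) : M)) ^ 3) ^ 3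
    rw [hae, hae, hae]

/-- a primitive cube root of unity -/
theorem exists_zeta [IsAlgClosed M] (h3 : (3 : M) ≠ 0) :
    ∃ ζ : M, IsPrimitiveRoot ζ 3 ∧ ζ ^ 3 = 1 := by
  obtain ⟨ζ, hζ⟩ : ∃ ζ : M, ζ ^ 2 + ζ + 1 = 0 := by
    have hd : (X ^ 2 + X + 1 : M[X]).degree ≠ 0 := by
      have : (X ^ 2 + X + 1 : M[X]).degree = 2 := by compute_degree!
      rw [this]
      decide
    obtain ⟨t, ht⟩ := IsAlgClosed.exists_root _ hd
    exact ⟨t, by simpa [IsRoot] using ht⟩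
  have h1 : ζ ^ 3 = 1 := by linear_combination (ζ - 1) * hζ
  have h2 : ζ ≠ 1 := by
    rintro rfl
    apply h3
    linear_combination hζ
  refine ⟨ζ, ?_, h1⟩
  have hp : Fact (Nat.Prime 3) := ⟨Nat.prime_three⟩
  have h4 : orderOf ζ = 3 := orderOf_eq_prime h1 h2
  rw [← h4]
  exact IsPrimitiveRoot.orderOf ζ

theorem emt_V [IsAlgClosed M] [CharP k 5] (htd : Algebra.trdeg k M = 2) (γ α₁ β : k[X])
    (hγ : γ ≠ 0) (hα₁ : α₁ ≠ 0) (hΔ : β ^ 2 + 2 * (γ ^ 5 * α₁) ^ 3 ≠ 0)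
    (dα : γ.natDegree + α₁.natDegree ≤ 4) (dβ : 6 * α₁.natDegree + β.natDegree ≤ 30)
    (s x y : M) (hs : Transcendental k s)
    (hy : y ^ 2 = x ^ 3 + aeval s (γ ^ 5 * α₁) * x + aeval s β)
    (hal : ∀ b : M, IsAlgebraic (IntermediateField.adjoin k {s, x, y}) b) :
    ∃ F : IntermediateField k M, F.FG ∧ s ∈ F ∧ x ∈ F ∧ y ∈ F ∧ Emt F := by
  classical
  obtain ⟨α, hαd⟩ : ∃ α, α = γ ^ 5 * α₁ := ⟨_, rfl⟩
  have hα : α ≠ 0 := by
    rw [hαd]
    exact mul_ne_zero (pow_ne_zero _ hγ) hα₁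
  rw [← hαd] at hy
  have hCM : CharP M 5 := charP_of_injective_algebraMap (algebraMap k M).injective 5
  have h5 : (5 : M) = 0 := by exact_mod_cast CharP.cast_eq_zero M 5
  have hcast : ∀ n : ℕ, ¬ 5 ∣ n → (n : k) ≠ 0 := fun n hn h => hn ((CharP.cast_eq_zero_iff k 5 n).1 h)
  have h2k : (2 : k) ≠ 0 := by exact_mod_cast hcast 2 (by norm_num)
  have h3k : (3 : k) ≠ 0 := by exact_mod_cast hcast 3 (by norm_num)
  have h3M : (3 : M) ≠ 0 := by
    intro h
    apply h3k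
    apply (algebraMap k M).injective
    rw [map_ofNat, map_zero, h]
  have h2M : (2 : M) ≠ 0 := by
    intro h
    apply h2k
    apply (algebraMap k M).injective
    rw [map_ofNat, map_zero, h]
  have hne : ∀ q : k[X], q ≠ 0 → aeval s q ≠ 0 := fun q hq h => hs ⟨q, hq, h⟩
  obtain ⟨A, hA⟩ : ∃ A, A = aeval s α := ⟨_, rfl⟩
  obtain ⟨B, hB⟩ : ∃ B, B = aeval s β := ⟨_, rfl⟩
  have A0 : A ≠ 0 := by
    rw [hA]
    exact hne α hα
  rw [← hA, ← hB] at hy
  obtain ⟨c, hc⟩ : ∃ c, c = 3 * A := ⟨_, rfl⟩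
  have c0 : c ≠ 0 := by
    rw [hc]
    exact mul_ne_zero h3M A0
  obtain ⟨ρ, hρ⟩ : ∃ ρ : M, ρ ^ 2 - x * ρ + c = 0 := by
    have hd : (X ^ 2 - C x * X + C c : M[X]).degree ≠ 0 := by
      have : (X ^ 2 - C x * X + C c : M[X]).degree = 2 := by compute_degree!
      rw [this]
      decide
    obtain ⟨t, ht⟩ := IsAlgClosed.exists_root _ hd
    exact ⟨t, by simpa [IsRoot] using ht⟩
  have ρ0 : ρ ≠ 0 := by
    rintro rfl
    apply c0
    simpa using hρ
  have hxρ : x = ρ + c / ρ := by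
    field_simp
    linear_combination -hρ
  have h1 : y ^ 2 * ρ ^ 3 = ρ ^ 6 + B * ρ ^ 3 + c ^ 3 := by
    have e1 : x * ρ = ρ ^ 2 + c := by linear_combination -hρ
    have e2 : y ^ 2 * ρ ^ 3 = (x * ρ) ^ 3 + A * ρ ^ 2 * (x * ρ) + B * ρ ^ 3 := by
      rw [hy]
      ring
    rw [e2, e1, hc]
    linear_combination (2 * A * ρ ^ 4 + 6 * A ^ 2 * ρ ^ 2) * h5
  obtain ⟨ζ, hζ, hζ3⟩ := exists_zeta (M := M) h3M
  obtain ⟨R, hR⟩ : ∃ R, R = ρ ^ 3 := ⟨_, rfl⟩
  obtain ⟨Q, hQ⟩ : ∃ Q, Q = R ^ 2 + B * R + 2 * A ^ 3 := ⟨_, rfl⟩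
  have h2 : (y * ρ ^ 2) ^ 2 = ρ * Q := by
    rw [hQ, hR]
    have e1 : (y * ρ ^ 2) ^ 2 = ρ * (y ^ 2 * ρ ^ 3) := by ring
    rw [e1, h1, hc]
    linear_combination (5 * ρ * A ^ 3) * h5
  -- the constants
  obtain ⟨E, hE⟩ : ∃ E : IntermediateField k M, E = IntermediateField.adjoin k {ζ} := ⟨_, rfl⟩
  have hEfg : E.FG := ⟨{ζ}, by rw [hE, Finset.coe_singleton]⟩
  have hζE : ζ ∈ E := by
    rw [hE]
    exact IntermediateField.subset_adjoin _ _ rfl
  have hζalg : IsAlgebraic k ζ := by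
    refine ⟨X ^ 3 - C 1, X_pow_sub_C_ne_zero (by norm_num) _, ?_⟩
    rw [map_sub, map_pow, aeval_X, aeval_C, map_one, hζ3, sub_self]
  have hEalg : Algebra.IsAlgebraic k E := by
    rw [hE]
    refine IntermediateField.isAlgebraic_adjoin fun c hc => ?_
    rw [Set.mem_singleton_iff.1 hc]
    exact hζalg.isIntegral
  have hEtd : Algebra.trdeg k E = 0 := trdeg_eq_zero_iff.2 hEalg
  -- algebraic elements
  have hpol : ∀ (F : IntermediateField k M), s ∈ F → ∀ q : k[X], aeval s q ∈ F := by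
    intro F hF q
    have e1 : aeval s q ∈ Algebra.adjoin k ({s} : Set M) :=
      Polynomial.aeval_mem_adjoin_singleton k s
    have e2 : Algebra.adjoin k ({s} : Set M) ≤ F.toSubalgebra :=
      Algebra.adjoin_le (by simpa using hF)
    exact e2 e1
  have halg : ∀ F : IntermediateField k M, s ∈ F → IsAlgebraic F x → IsAlgebraic F y →
      ∀ b : M, IsAlgebraic F b := by
    intro F hsF hxF hyF b
    refine algTrans (K := IntermediateField.adjoin k {s, x, y}) F (fun b => ?_) b (hal b)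
    refine alg_adjoin F _ ?_ (b : M) b.2
    rintro _ (rfl | rfl | rfl)
    · exact isAlgebraic_algebraMap (⟨_, hsF⟩ : F)
    · exact hxF
    · exact hyF
  obtain ⟨K₀, hK₀⟩ : ∃ K₀ : IntermediateField k M, K₀ = E ⊔
    IntermediateField.adjoin k (Set.range ![s, R]) := ⟨_, rfl⟩
  obtain ⟨L₀, hL₀⟩ : ∃ L₀ : IntermediateField k M, L₀ = E ⊔
    IntermediateField.adjoin k (Set.range ![s, y]) := ⟨_, rfl⟩
  obtain ⟨K₂, hK₂⟩ : ∃ K₂ : IntermediateField k M, K₂ = E ⊔
    IntermediateField.adjoin k (Set.range ![s, ρ]) := ⟨_, rfl⟩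
  have hfgE : ∀ v : Fin 2 → M, (E ⊔ IntermediateField.adjoin k (Set.range v) :
      IntermediateField k M).FG := fun v => IntermediateField.fg_sup hEfg
    ⟨Finset.univ.image v, by rw [Finset.coe_image, Finset.coe_univ, Set.image_univ]⟩
  have hmem : ∀ (v : Fin 2 → M) (i : Fin 2), v i ∈ (E ⊔ IntermediateField.adjoin k (Set.range v) :
      IntermediateField k M) := fun v i =>
    (le_sup_right : IntermediateField.adjoin k (Set.range v) ≤ _)
      (IntermediateField.subset_adjoin _ _ ⟨i, rfl⟩)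
  have hsK : s ∈ K₀ := by
    rw [hK₀]
    exact hmem ![s, R] 0
  have hRK : R ∈ K₀ := by
    rw [hK₀]
    exact hmem ![s, R] 1
  have hEK : E ≤ K₀ := by
    rw [hK₀]
    exact le_sup_left
  have hsL : s ∈ L₀ := by
    rw [hL₀]
    exact hmem ![s, y] 0
  have hyL : y ∈ L₀ := by
    rw [hL₀]
    exact hmem ![s, y] 1
  have hEL : E ≤ L₀ := by
    rw [hL₀]
    exact le_sup_left
  have hAK : A ∈ K₀ := by
    rw [hA]
    exact hpol K₀ hsK α
  have hBK : B ∈ K₀ := by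
    rw [hB]
    exact hpol K₀ hsK β
  have hAL : A ∈ L₀ := by
    rw [hA]
    exact hpol L₀ hsL α
  have hBL : B ∈ L₀ := by
    rw [hB]
    exact hpol L₀ hsL β
  have h3mem : ∀ F : IntermediateField k M, (3 : M) ∈ F := fun F => by
    exact_mod_cast natCast_mem F 3
  have h2mem : ∀ F : IntermediateField k M, (2 : M) ∈ F := fun F => by
    exact_mod_cast natCast_mem F 2
  have hcK : c ∈ K₀ := by
    rw [hc]
    exact mul_mem (h3mem K₀) hAK
  have hcL : c ∈ L₀ := by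
    rw [hc]
    exact mul_mem (h3mem L₀) hAL
  have hQK : Q ∈ K₀ := by
    rw [hQ]
    exact add_mem (add_mem (pow_mem hRK _) (mul_mem hBK hRK))
      (mul_mem (h2mem K₀) (pow_mem hAK _))
  -- `M` is algebraic over `K₀` and over `L₀`
  have hK₀al : ∀ b : M, IsAlgebraic K₀ b := by
    have hρal : IsAlgebraic K₀ ρ := by
      refine ⟨X ^ 3 - C (⟨R, hRK⟩ : K₀), X_pow_sub_C_ne_zero (by norm_num) _, ?_⟩
      rw [map_sub, map_pow, aeval_X, aeval_C]
      show ρ ^ 3 - R = 0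
      rw [hR, sub_self]
    have hxal : IsAlgebraic K₀ x := by
      rw [hxρ, div_eq_mul_inv]
      exact hρal.add ((isAlgebraic_algebraMap (⟨c, hcK⟩ : K₀)).mul hρal.inv)
    refine halg K₀ hsK hxal ?_
    have hy2 : IsAlgebraic K₀ (y ^ 2) := by
      rw [hy]
      exact ((hxal.pow 3).add ((isAlgebraic_algebraMap (⟨A, hAK⟩ : K₀)).mul hxal)).add
        (isAlgebraic_algebraMap (⟨B, hBK⟩ : K₀))
    exact IsAlgebraic.of_pow (by norm_num) hy2
  have hL₀al : ∀ b : M, IsAlgebraic L₀ b := by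
    refine halg L₀ hsL ?_ (isAlgebraic_algebraMap (⟨y, hyL⟩ : L₀))
    refine ⟨X ^ 3 + C (⟨A, hAL⟩ : L₀) * X + C (⟨B - y ^ 2, sub_mem hBL (pow_mem hyL _)⟩ : L₀),
      ?_, ?_⟩
    · intro h
      have e1 := congrArg (fun p => p.coeff 3) h
      simp [coeff_X, coeff_C] at e1
    · rw [map_add, map_add, map_pow, map_mul, aeval_X, aeval_C, aeval_C]
      show x ^ 3 + A * x + (B - y ^ 2) = 0
      rw [hy]
      ring
  have hindK : AlgebraicIndependent E ![s, R] := indep_plane htd E hEtd ![s, R] (by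
    rw [← hK₀]
    exact hK₀al)
  have hindL : AlgebraicIndependent E ![s, y] := indep_plane htd E hEtd ![s, y] (by
    rw [← hL₀]
    exact hL₀al)
  have y0 : y ≠ 0 := hindL.ne_zero 1
  have z0 : y * ρ ^ 2 ≠ 0 := mul_ne_zero y0 (pow_ne_zero _ ρ0)
  have Q0 : Q ≠ 0 := by
    intro h
    rw [h, mul_zero] at h2
    exact z0 (pow_eq_zero_iff (n := 2) (by norm_num) |>.1 h2)
  have z6 : (y * ρ ^ 2) ^ 6 = R * Q ^ 3 := by
    have e1 : (y * ρ ^ 2) ^ 6 = ((y * ρ ^ 2) ^ 2) ^ 3 := by ring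
    rw [e1, h2, hR]
    ring
  have z6K : (y * ρ ^ 2) ^ 6 ∈ K₀ := by
    rw [z6]
    exact mul_mem hRK (pow_mem hQK _)
  -- irreducibility
  have irr : Irreducible (X ^ 6 - C (⟨(y * ρ ^ 2) ^ 6, z6K⟩ : K₀)) := by
    have hXp : Prime (MvPolynomial.X 1 : MvPolynomial (Fin 2) E) := MvPolynomial.X_prime
    refine irr_one E ![s, R] hindK (MvPolynomial.X 1)
      ((MvPolynomial.X 1 ^ 2 + aeval (MvPolynomial.X 0) (β.map (algebraMap k E)) *
        MvPolynomial.X 1 + 2 * aeval (MvPolynomial.X 0) (α.map (algebraMap k E)) ^ 3) ^ 3)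
      hXp ?_ 6 (by norm_num) K₀ hK₀ _ ?_
    · intro h
      obtain ⟨H, hH⟩ := hXp.dvd_of_dvd_pow h
      have e1 := congrArg (MvPolynomial.aeval (![X, 0] : Fin 2 → Polynomial E)) hH
      have e2 : ∀ q : Polynomial E, MvPolynomial.aeval (![X, 0] : Fin 2 → Polynomial E)
          (aeval (MvPolynomial.X 0 : MvPolynomial (Fin 2) E) q) = q := by
        intro q
        rw [← Polynomial.aeval_algHom_apply, MvPolynomial.aeval_X]
        exact aeval_X_left_apply q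
      have e3 : MvPolynomial.aeval (![X, 0] : Fin 2 → Polynomial E)
          (MvPolynomial.X 1 : MvPolynomial (Fin 2) E) = 0 := by
        rw [MvPolynomial.aeval_X]
        rfl
      rw [map_add, map_add, map_mul, map_mul, map_pow, map_pow, map_mul, e2, e2, e3, map_ofNat]
        at e1
      have e4 : (2 : Polynomial E) * (α.map (algebraMap k E)) ^ 3 = 0 := by
        linear_combination e1
      rcases mul_eq_zero.1 e4 with e5 | e5
      · have e6 : ((2 : E) : E) = 0 := by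
          have e7 : (C (2 : E) : Polynomial E) = 0 := e5
          exact C_eq_zero.1 e7
        apply h2k
        apply (algebraMap k E).injective
        rw [map_ofNat, map_zero, e6]
      · exact (Polynomial.map_ne_zero_iff (algebraMap k E).injective).2 hα
          (pow_eq_zero_iff (n := 3) (by norm_num) |>.1 e5)
    · show (y * ρ ^ 2) ^ 6 = _
      have e2 : ∀ q : k[X], MvPolynomial.aeval ![s, R]
          (aeval (MvPolynomial.X 0 : MvPolynomial (Fin 2) E) (q.map (algebraMap k E))) =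
            aeval s q := by
        intro q
        rw [← Polynomial.aeval_algHom_apply, MvPolynomial.aeval_X, aeval_map_algebraMap]
        rfl
      have e3 : MvPolynomial.aeval ![s, R] (MvPolynomial.X 1 : MvPolynomial (Fin 2) E) = R := by
        rw [MvPolynomial.aeval_X]
        rfl
      rw [map_mul, map_pow, map_add, map_add, map_mul, map_mul, map_pow, map_pow, e2, e2, e3,
        map_ofNat, ← hA, ← hB, z6, hQ]
  -- the dihedral group
  obtain ⟨F, hF⟩ : ∃ F : IntermediateField k M, F = IntermediateField.adjoin k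
    (({s, ζ} : Set M) ∪ {ρ + c / ρ, y}) := ⟨_, rfl⟩
  have hsub : ∀ b ∈ (({s, ζ} : Set M) ∪ {ρ + c / ρ, y}), b ∈ F := fun b hb => by
    rw [hF]
    exact IntermediateField.subset_adjoin _ _ hb
  have hsF : s ∈ F := hsub s (Or.inl (Or.inl rfl))
  have hxF : x ∈ F := by
    rw [hxρ]
    exact hsub _ (Or.inr (Or.inl rfl))
  have hyF : y ∈ F := hsub y (Or.inr (Or.inr rfl))
  have hFfg : F.FG := by
    rw [hF]
    exact IntermediateField.fg_adjoin_of_finite (Set.toFinite _)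
  have hD : Dih K₀ (y * ρ ^ 2) F L₀ := by
    rw [hF]
    refine dih_of K₀ L₀ {s, ζ} ?_ ?_ ζ ρ y c B Q hζ (hEL hζE) hcL hcK hBL hyL hQK c0 ρ0 Q0 h1 h2
    · rintro b (rfl | rfl)
      · exact hsK
      · exact hEK hζE
    · rintro b (rfl | rfl)
      · exact hsL
      · exact hEL hζE
  have hzK : y * ρ ^ 2 ∈ K₀ ⊔ IntermediateField.adjoin k {y * ρ ^ 2} :=
    (le_sup_right : IntermediateField.adjoin k {y * ρ ^ 2} ≤ _)
      (IntermediateField.subset_adjoin _ _ rfl)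
  have hKK : K₀ ≤ K₀ ⊔ IntermediateField.adjoin k {y * ρ ^ 2} := le_sup_left
  have hρK : ρ ∈ K₀ ⊔ IntermediateField.adjoin k {y * ρ ^ 2} := by
    have e1 : ρ = (y * ρ ^ 2) ^ 2 / Q := by rw [h2, mul_div_cancel_right₀ _ Q0]
    have e2 := div_mem (pow_mem hzK 2) (hKK hQK)
    rwa [← e1] at e2
  have hyK : y ∈ K₀ ⊔ IntermediateField.adjoin k {y * ρ ^ 2} := by
    have e1 : y = y * ρ ^ 2 / ρ ^ 2 := by rw [mul_div_cancel_right₀ _ (pow_ne_zero _ ρ0)]
    have e2 := div_mem hzK (pow_mem hρK 2)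
    rwa [← e1] at e2
  have hFK : F ≤ K₀ ⊔ IntermediateField.adjoin k {y * ρ ^ 2} := by
    rw [hF, IntermediateField.adjoin_le_iff]
    rintro b ((rfl | rfl) | (rfl | rfl))
    · exact hKK hsK
    · exact hKK (hEK hζE)
    · exact add_mem hρK (div_mem (hKK hcK) hρK)
    · exact hyK
  -- the fields
  have hF0 : (⟨(y * ρ ^ 2) ^ 6, z6K⟩ : K₀) ≠ 0 := fun h =>
    pow_ne_zero 6 z0 (congrArg Subtype.val h)
  obtain ⟨hb, hbds⟩ := bc_6 (k := k) (M := M) h2k h3k
  obtain ⟨L, i1, i2, i3, i4, a, w, ha, hw0, hw, hgen⟩ := six_exists (κ := k)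
    (⟨(y * ρ ^ 2) ^ 6, z6K⟩ : K₀) hF0
  have huni : Uniruled k L := by
    refine uni_5 K₀ htd hK₀al E hEfg hEtd ![s, R] hindK hK₀ γ α₁ β hα₁ hΔ dα dβ
      ⟨(y * ρ ^ 2) ^ 6, z6K⟩ ?_ L a w ha hw0 hgen hw
    show (y * ρ ^ 2) ^ 6 = R * (R ^ 2 + aeval s β * R + 2 * (aeval s γ ^ 5 * aeval s α₁) ^ 3) ^ 3
    rw [z6, hQ, hA, hB, hαd, map_mul, map_pow]
  have hK₂eq : K₀ ⊔ IntermediateField.adjoin k {(y * ρ ^ 2) ^ 2} = K₂ := by
    have hsK₂ : s ∈ K₂ := by
      rw [hK₂]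
      exact hmem ![s, ρ] 0
    have hρK₂ : ρ ∈ K₂ := by
      rw [hK₂]
      exact hmem ![s, ρ] 1
    have hEK₂ : E ≤ K₂ := by
      rw [hK₂]
      exact le_sup_left
    have hK₀K₂ : K₀ ≤ K₂ := by
      rw [hK₀]
      refine sup_le hEK₂ ?_
      rw [IntermediateField.adjoin_le_iff]
      rintro _ ⟨i, rfl⟩
      fin_cases i
      · exact hsK₂
      · show R ∈ K₂
        rw [hR]
        exact pow_mem hρK₂ _
    apply le_antisymm
    · refine sup_le hK₀K₂ ?_
      rw [IntermediateField.adjoin_le_iff]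
      rintro _ rfl
      show (y * ρ ^ 2) ^ 2 ∈ K₂
      rw [h2]
      exact mul_mem hρK₂ (hK₀K₂ hQK)
    · have hle : K₀ ≤ K₀ ⊔ IntermediateField.adjoin k {(y * ρ ^ 2) ^ 2} := le_sup_left
      rw [hK₂]
      refine sup_le (hEK.trans hle) ?_
      rw [IntermediateField.adjoin_le_iff]
      rintro _ ⟨i, rfl⟩
      fin_cases i
      · exact hle hsK
      · show ρ ∈ K₀ ⊔ IntermediateField.adjoin k {(y * ρ ^ 2) ^ 2}
        have e1 : ρ = (y * ρ ^ 2) ^ 2 / Q := by rw [h2, mul_div_cancel_right₀ _ Q0]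
        have e2 : (y * ρ ^ 2) ^ 2 / Q ∈ K₀ ⊔ IntermediateField.adjoin k {(y * ρ ^ 2) ^ 2} :=
          div_mem ((le_sup_right : IntermediateField.adjoin k {(y * ρ ^ 2) ^ 2} ≤ _)
            (IntermediateField.subset_adjoin _ _ rfl)) (hle hQK)
        rwa [← e1] at e2
  refine ⟨F, hFfg, hsF, hxF, hyF, ?_⟩
  refine emt_6D K₀ (by rw [hK₀]; exact hfgE _) htd hK₀al (1 + X) (X ^ 3) hb hbds (y * ρ ^ 2) z0
    z6K irr ζ hζ (hEK hζE) F L₀ hFfg (halg F hsF (isAlgebraic_algebraMap (⟨x, hxF⟩ : F))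
      (isAlgebraic_algebraMap (⟨y, hyF⟩ : F))) hFK (by rw [hL₀]; exact hfgE _) hL₀al hD L a w ha
    ?_ hgen huni ?_ ?_ ?_
  · rw [map_add, map_one, map_pow, aeval_X]
    exact hw
  · refine ADT.emt_two ?_ hK₀al
    rw [hK₀]
    exact two_plane E hEfg hEtd ![s, R]
  · refine ADT.emt_two ?_ fun b => alg_mono le_sup_left (hK₀al b)
    rw [hK₂eq, hK₂]
    exact two_plane E hEfg hEtd ![s, ρ]
  · refine ADT.emt_two ?_ hL₀al
    rw [hL₀]
    exact two_plane E hEfg hEtd ![s, y]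

end Pool.Agent.ADH
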