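import Pool.Agent.ADT.T3
import Pool.Agent.ADH.V6

/-!
# Elliptic curves `y ^ 2 = x ^ 3 + G(s) ^ 5 A(s) x + B(s)` of characteristic five
-/

set_option autoImplicit false

namespace Pool.Agent.ADH

open Polynomial Pool.Agent.TUQ Pool.Agent.WLD Pool.Agent.ADT Pool.Agent.UQ WeierstrassCurve
  WeierstrassCurve.Affine Pool.Agent.EFF

open scoped Classical

/-- the curves `y ^ 2 = x ^ 3 + G(s) ^ 5 A(s) x + B(s)` of characteristic five over `k(s)` -/
theorem sha_V5 {k K Kb : Type} [Field k] [Finite k] [Field K] [Field Kb] [Algebra k K]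
    [Algebra k Kb] [Algebra K Kb] [IsScalarTower k K Kb] [IsAlgClosed Kb]
    [Algebra.IsAlgebraic K Kb] [CharP k 5] (s : K)
    (hs : Transcendental k s) (W : WeierstrassCurve k[X]) (hΔ : W.Δ ≠ 0)
    (w1 : W.a₁ = 0) (w2 : W.a₂ = 0) (w3 : W.a₃ = 0) (γ α : k[X]) (hγ : γ ≠ 0) (hα : α ≠ 0)
    (w4 : W.a₄ = γ ^ 5 * α) (dα : γ.natDegree + α.natDegree ≤ 4)
    (dβ : 6 * α.natDegree + W.a₆.natDegree ≤ 30)
    (hK : IntermediateField.adjoin k {s} = ⊤)
    (ℓ : ℕ) (hℓ : ℓ.Prime) (hℓk : (ℓ : k) ≠ 0)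
    (c : ℕ → (Kb ≃ₐ[K] Kb) → Pts (Ws W s) Kb) (hc : ShaSys (Ws W s) k ℓ c) (n : ℕ) :
    Principal (Ws W s) (T1B.geo k K Kb) (c n) := by
  have hS : ∀ z ∈ (∅ : Finset Kb), ∃ φ F : k[X], φ.natDegree ≠ 0 ∧
      aeval z φ = aeval (algebraMap K Kb s) F := fun z hz => absurd hz (Finset.notMem_empty z)
  have hK' : ∀ b : K, algebraMap K Kb b ∈ IntermediateField.adjoin k
      (insert (algebraMap K Kb s) ((∅ : Finset Kb) : Set Kb)) := by
    intro b
    let ι : K →ₐ[k] Kb := IsScalarTower.toAlgHom k K Kb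
    have h1 : (IntermediateField.adjoin k {s}).map ι ≤ IntermediateField.adjoin k
        (insert (algebraMap K Kb s) ((∅ : Finset Kb) : Set Kb)) := by
      rw [IntermediateField.adjoin_map, Set.image_singleton, IntermediateField.adjoin_le_iff,
        Set.singleton_subset_iff]
      exact IntermediateField.subset_adjoin _ _ (Or.inl rfl)
    exact h1 ⟨b, by rw [hK]; exact IntermediateField.mem_top, rfl⟩
  obtain ⟨M, _, _, _, _, x, y, t1, t2, t3, hM, htd, hx, hy, hal⟩ := setup s hs ∅ hS hK' W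
  have hsM : Transcendental k (algebraMap K M s) :=
    (transcendental_algebraMap_iff (algebraMap K M).injective).2 hs
  obtain ⟨t, ht⟩ : ∃ t, t = algebraMap K M s := ⟨_, rfl⟩
  rw [← ht] at hsM
  have heq : y ^ 2 = x ^ 3 + aeval t W.a₄ * x + aeval t W.a₆ := by
    have h1 := hy
    rw [aeval_wpoly, w1, w2, w3] at h1
    simp only [Matrix.cons_val_zero, Matrix.cons_val_one, Matrix.cons_val, map_zero, ← ht] at h1
    linear_combination h1
  have h5 : (5 : k[X]) = 0 := by exact_mod_cast CharP.cast_eq_zero k[X] 5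
  have hΔ' : W.a₆ ^ 2 + 2 * W.a₄ ^ 3 ≠ 0 := by
    intro h
    apply hΔ
    rw [WeierstrassCurve.Δ, WeierstrassCurve.b₂, WeierstrassCurve.b₄, WeierstrassCurve.b₆,
      WeierstrassCurve.b₈, w1, w2, w3]
    linear_combination 3 * h - (14 * W.a₄ ^ 3 + 87 * W.a₆ ^ 2) * h5
  have hset : IntermediateField.adjoin k (Set.range ![x, y, algebraMap K M s]) ≤
      IntermediateField.adjoin k {t, x, y} := by
    rw [IntermediateField.adjoin_le_iff]
    rintro _ ⟨i, rfl⟩
    apply IntermediateField.subset_adjoin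
    fin_cases i
    · exact Or.inr (Or.inl rfl)
    · exact Or.inr (Or.inr rfl)
    · exact Or.inl ht.symm
  have hal' : ∀ b : M, IsAlgebraic (IntermediateField.adjoin k {t, x, y}) b := by
    intro b
    refine algTrans (K := IntermediateField.adjoin k (Set.range ![x, y, algebraMap K M s])) _
      (fun a => ?_) b (hal b)
    exact isAlgebraic_algebraMap (⟨a, hset a.2⟩ : IntermediateField.adjoin k {t, x, y})
  rw [w4] at hΔ' heq
  obtain ⟨B, hBfg, htB, hxB, hyB, hE⟩ := emt_V htd γ α W.a₆ hγ hα hΔ' dα dβ t x y hsM heq hal'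
  obtain ⟨F, hF⟩ : ∃ F : IntermediateField K M, F = IntermediateField.adjoin K {x, y} := ⟨_, rfl⟩
  have hxF : x ∈ F := by
    rw [hF]
    exact IntermediateField.subset_adjoin _ _ (by simp)
  have hyF : y ∈ F := by
    rw [hF]
    exact IntermediateField.subset_adjoin _ _ (by simp)
  have hsub : IntermediateField.adjoin k (Set.range ![x, y, algebraMap K M s]) ≤
      F.restrictScalars k := by
    rw [IntermediateField.adjoin_le_iff]
    rintro _ ⟨i, rfl⟩
    fin_cases i
    · exact hxF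
    · exact hyF
    · exact F.algebraMap_mem s
  have hFal : ∀ b : M, IsAlgebraic (F.restrictScalars k) b := fun b => by
    refine algTrans (K := IntermediateField.adjoin k (Set.range ![x, y, algebraMap K M s])) _
      (fun a => ?_) b (hal b)
    exact isAlgebraic_algebraMap (⟨a, hsub a.2⟩ : F.restrictScalars k)
  have hKM : ∀ b : K, algebraMap K M b ∈ B := by
    intro b
    let ι : K →ₐ[k] M := IsScalarTower.toAlgHom k K M
    have h1 : (IntermediateField.adjoin k {s}).map ι ≤ B := by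
      rw [IntermediateField.adjoin_map, Set.image_singleton, IntermediateField.adjoin_le_iff,
        Set.singleton_subset_iff]
      show algebraMap K M s ∈ B
      rw [← ht]
      exact htB
    exact h1 ⟨b, by rw [hK]; exact IntermediateField.mem_top, rfl⟩
  have hle : F.restrictScalars k ≤ B := by
    let B' : IntermediateField K M := B.toSubfield.toIntermediateField hKM
    have hFB : F ≤ B' := by
      rw [hF, IntermediateField.adjoin_le_iff]
      rintro b (rfl | hb)
      · exact hxB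
      · rw [Set.mem_singleton_iff.1 hb]
        exact hyB
    exact fun b hb => hFB hb
  have hemt : Emt (F.restrictScalars k) :=
    emt_of_inj (K' := B) (ι := Unit) (fun ℓ hℓ => vl_res _ _ hle hBfg hFal hℓ)
      (fun _ => B) (fun ℓ _ _ => ⟨MonoidHom.pi fun _ => MonoidHom.id _,
        fun _ _ h => congrFun h ()⟩) fun _ => hE
  have hT1 : T1B.T1 k F ℓ := t1_of_emt (F.restrictScalars k) hFal hemt ℓ hℓ hℓk
  exact bridge s hs (alg_K' s ∅ hS hK') W hΔ x y hx hy F hF ℓ hℓ hℓk hT1 c hc n

end Pool.Agent.ADH
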