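import Pool.Agent.ADT.T3
import Pool.Agent.ADH.V8

/-!
# Elliptic curves `y ^ 2 = x ^ 3 + A x + B(s)`, `deg B ≤ 6`, of characteristic five in towers
-/

set_option autoImplicit false

namespace Pool.Agent.ADH

open Polynomial Pool.Agent.TBR Pool.Agent.TUQ Pool.Agent.UQ Pool.Agent.WLD Pool.Agent.ADT
  WeierstrassCurve WeierstrassCurve.Affine Pool.Agent.EFF

universe u

section

/-- polynomials of degree at most one -/
theorem mv_one {E M : Type u} [Field E] [Field M] [Algebra E M] (t : M)
    (f : MvPolynomial (Fin 1) E) (hf : MvPolynomial.weightedTotalDegree ![1] f ≤ 1) :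
    ∃ a b : E, MvPolynomial.aeval ![t] f = algebraMap E M a * t + algebraMap E M b := by
  classical
  refine ⟨f.coeff (Finsupp.single 0 1), f.coeff 0, ?_⟩
  rw [wle_iff] at hf
  rw [MvPolynomial.aeval_def, MvPolynomial.eval₂_eq']
  have hsub : f.support ⊆ {Finsupp.single 0 1, 0} := by
    intro m hm
    have h1 := hf m hm
    have h2 : m 0 ≤ 1 := by
      refine le_trans ?_ h1
      rw [Finsupp.weight_apply, Finsupp.sum_fintype _ _ (fun i => by simp)]
      simp
    have h3 : m = Finsupp.single 0 (m 0) := by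
      ext
      simp
    rw [Finset.mem_insert, Finset.mem_singleton]
    rcases Nat.le_one_iff_eq_zero_or_eq_one.1 h2 with h4 | h4
    · right
      rw [h3, h4, Finsupp.single_zero]
    · left
      rw [h3, h4]
  rw [Finset.sum_subset hsub fun m _ hm => by
    rw [MvPolynomial.notMem_support_iff.1 hm, map_zero, zero_mul]]
  rw [Finset.sum_pair (by
    intro h
    have := DFunLike.congr_fun h 0
    simp at this)]
  simp

end

section

variable {k M : Type u} [Field k] [Field M] [Algebra k M]

/-- **Towers, characteristic five.** -/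
theorem tower_V [IsAlgClosed M] [CharP k 5] (htd : Algebra.trdeg k M = 2) (A : k) (hA : A ≠ 0)
    (β : k[X]) (dβ : β.natDegree ≤ 6) (hΔ : β ^ 2 + 2 * C A ^ 3 ≠ 0)
    (s x y : M) (hs : Transcendental k s)
    (hy : y ^ 2 = x ^ 3 + algebraMap k M A * x + aeval s β)
    (hal : ∀ b : M, IsAlgebraic (IntermediateField.adjoin k {s, x, y}) b)
    (S : Finset M)
    (hS : ∀ z ∈ S, ∃ φ F : k[X], AddPoly φ ∧ derivative φ ≠ 0 ∧ F.natDegree ≤ 1 ∧
        aeval z φ = aeval s F)
    (F : IntermediateField k M)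
    (hF : F ≤ IntermediateField.adjoin k ({s, x, y} ∪ (S : Set M)))
    (hFal : ∀ b : M, IsAlgebraic F b) : Emt F := by
  classical
  have hp5 : Fact (Nat.Prime 5) := ⟨Nat.prime_five⟩
  have hCM : CharP M 5 := charP_of_injective_algebraMap (algebraMap k M).injective 5
  have h3M : (3 : M) ≠ 0 := by
    have h1 : ((3 : ℕ) : M) ≠ 0 := fun h => by
      have h2 := (CharP.cast_eq_zero_iff M 5 3).1 h
      revert h2
      decide
    exact_mod_cast h1
  obtain ⟨ζ, hζ, hζ3⟩ := exists_zeta (M := M) h3M
  have hζalg : IsAlgebraic k ζ := by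
    refine ⟨X ^ 3 - C 1, X_pow_sub_C_ne_zero (by norm_num) _, ?_⟩
    rw [map_sub, map_pow, aeval_X, aeval_C, map_one, hζ3, sub_self]
  have hq1 : MvPolynomial.aeval ![s] (1 : MvPolynomial (Fin 1) k) ≠ 0 := by
    rw [map_one]
    exact one_ne_zero
  obtain ⟨C₀, r, v, hC₀, hv, hz⟩ := exists_span 5 ![s] 1 hq1 ![1] 1 1 S (fun z hz => by
    obtain ⟨φ, G, a1, a2, a3, a4⟩ := hS z hz
    refine ⟨φ, aeval (MvPolynomial.X 0) G, a1, a2, ?_, ?_⟩
    · refine (wle_aeval_X _ 0 G).trans ?_
      simpa using a3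
    · rw [map_one, one_pow, mul_one, ← Polynomial.aeval_algHom_apply, MvPolynomial.aeval_X, a4]
      rfl)
  have hv' : ∀ i, ∃ a b : IntermediateField.adjoin k (C₀ : Set M),
      v i ^ 5 - v i = (a : M) * s + (b : M) := by
    intro i
    obtain ⟨f, hf, hfv⟩ := hv i
    rw [map_one, one_pow, mul_one] at hfv
    obtain ⟨a, b, hab⟩ := mv_one s f hf
    exact ⟨a, b, hfv.trans hab⟩
  choose ca cb hab using hv'
  obtain ⟨E, hE⟩ : ∃ E, E = IntermediateField.adjoin k (C₀ : Set M) := ⟨_, rfl⟩
  obtain ⟨T, hT⟩ : ∃ T : Set M, T = {s, x, y} := ⟨_, rfl⟩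
  rw [← hT] at hal hF
  have hTfin : T.Finite := by
    rw [hT]
    exact Set.toFinite _
  have hTfg : (IntermediateField.adjoin k T : IntermediateField k M).FG :=
    IntermediateField.fg_adjoin_of_finite hTfin
  have hvfg : (IntermediateField.adjoin k (Set.range v) : IntermediateField k M).FG :=
    IntermediateField.fg_adjoin_of_finite (Set.finite_range v)
  have hEfg : E.FG := by
    rw [hE]
    exact ⟨C₀, rfl⟩
  have hEalg : Algebra.IsAlgebraic k E := by
    rw [hE]
    exact IntermediateField.isAlgebraic_adjoin fun c hc => (hC₀ c hc).isIntegral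
  obtain ⟨K₀, hK₀⟩ : ∃ K₀, K₀ = E ⊔ IntermediateField.adjoin k T := ⟨_, rfl⟩
  have hK₀fg : K₀.FG := by
    rw [hK₀]
    exact IntermediateField.fg_sup hEfg hTfg
  have hTK₀ : IntermediateField.adjoin k T ≤ K₀ := by
    rw [hK₀]
    exact le_sup_right
  have hEK₀ : E ≤ K₀ := by
    rw [hK₀]
    exact le_sup_left
  have hsT : s ∈ IntermediateField.adjoin k T := IntermediateField.subset_adjoin _ _ (by
    rw [hT]
    exact Or.inl rfl)
  have hxT : x ∈ IntermediateField.adjoin k T := IntermediateField.subset_adjoin _ _ (by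
    rw [hT]
    exact Or.inr (Or.inl rfl))
  have hyT : y ∈ IntermediateField.adjoin k T := IntermediateField.subset_adjoin _ _ (by
    rw [hT]
    exact Or.inr (Or.inr rfl))
  have hK₀al : ∀ b : M, IsAlgebraic K₀ b := fun b => alg_mono hTK₀ (hal b)
  have hvK₀ : ∀ i, v i ^ 5 - v i ∈ K₀ := by
    intro i
    rw [hab i]
    have h1 : ∀ c : IntermediateField.adjoin k (C₀ : Set M), (c : M) ∈ K₀ := fun c => by
      apply hEK₀
      rw [hE]
      exact c.2
    exact add_mem (mul_mem (h1 _) (hTK₀ hsT)) (h1 _)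
  -- the big field
  have hK'fg : (K₀ ⊔ IntermediateField.adjoin k (Set.range v) : IntermediateField k M).FG :=
    IntermediateField.fg_sup hK₀fg hvfg
  have hFK' : F ≤ K₀ ⊔ IntermediateField.adjoin k (Set.range v) := by
    refine hF.trans ?_
    rw [IntermediateField.adjoin_le_iff]
    rintro u (hu | hu)
    · exact (le_sup_left : K₀ ≤ _) (hTK₀ (IntermediateField.subset_adjoin _ _ hu))
    · have h1 := hz u hu
      refine (sup_le_sup_right (sup_le ?_ ?_) _ : _ ≤ K₀ ⊔ IntermediateField.adjoin k (Set.range v))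
        h1
      · rw [← hE]
        exact hEK₀
      · rw [IntermediateField.adjoin_le_iff]
        rintro _ ⟨i, rfl⟩
        fin_cases i
        exact hTK₀ hsT
  refine emt_of_inj (K' := K₀ ⊔ IntermediateField.adjoin k (Set.range v)) (ι := Fin r → ZMod 5)
    (fun ℓ hℓ => vl_res F _ hFK' hK'fg hFal hℓ) _
    (fun ℓ hℓ _ => ea_inj K₀ hK₀fg hK₀al 5 v hvK₀ hℓ) fun c => ?_
  -- the cyclic case
  show Emt (K₀ ⊔ IntermediateField.adjoin k {∑ i, ((c i).val : M) * v i})
  have hY := comb_eq 5 (fun i => (c i).val) v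
  obtain ⟨Y, hYd⟩ : ∃ Y, Y = ∑ i, ((c i).val : M) * v i := ⟨_, rfl⟩
  rw [← hYd] at hY ⊢
  obtain ⟨a, b, hY'⟩ : ∃ a b : E, Y ^ 5 - Y = (a : M) * s + (b : M) := by
    have h1 : ∑ i, ((c i).val : M) * (v i ^ 5 - v i) =
        ((∑ i, ((c i).val : IntermediateField.adjoin k (C₀ : Set M)) * ca i :
          IntermediateField.adjoin k (C₀ : Set M)) : M) * s +
        ((∑ i, ((c i).val : IntermediateField.adjoin k (C₀ : Set M)) * cb i :
          IntermediateField.adjoin k (C₀ : Set M)) : M) := by
      push_cast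
      rw [Finset.sum_mul, ← Finset.sum_add_distrib]
      refine Finset.sum_congr rfl fun i _ => ?_
      rw [hab i]
      ring
    subst hE
    exact ⟨_, _, hY.trans h1⟩
  have hYK : Y ∈ K₀ ⊔ IntermediateField.adjoin k {Y} :=
    (le_sup_right : IntermediateField.adjoin k {Y} ≤ _) (IntermediateField.subset_adjoin _ _ rfl)
  -- it is enough to find a larger field
  have red : ∀ B : IntermediateField k M, B.FG → E ≤ B → Y ∈ B → s ∈ B → x ∈ B → y ∈ B →
      Emt B → Emt (K₀ ⊔ IntermediateField.adjoin k {Y}) := by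
    intro B hB h1 h2 h3 h4 h5 h6
    have hle : K₀ ⊔ IntermediateField.adjoin k {Y} ≤ B := by
      rw [hK₀]
      refine sup_le (sup_le h1 ?_) ?_
      · rw [IntermediateField.adjoin_le_iff, hT]
        rintro _ (rfl | rfl | rfl)
        · exact h3
        · exact h4
        · exact h5
      · rw [IntermediateField.adjoin_le_iff]
        rintro _ rfl
        exact h2
    exact emt_of_inj (K' := B) (ι := Unit)
      (fun ℓ hℓ => vl_res _ _ hle hB (fun b => alg_mono le_sup_left (hK₀al b)) hℓ)
      (fun _ => B) (fun ℓ _ _ => ⟨MonoidHom.pi fun _ => MonoidHom.id _,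
        fun _ _ h => congrFun h ()⟩) fun _ => h6
  have h2k : ∀ E' : IntermediateField k M, algebraMap k E' A ≠ 0 := fun E' h =>
    hA ((algebraMap k E').injective (h.trans (map_zero _).symm))
  by_cases ha : a = 0
  · -- `Y` is algebraic over `k`
    have hYE : IsAlgebraic k Y := by
      have h1 : IsAlgebraic E Y := by
        refine ⟨X ^ 5 - X - C b, ?_, ?_⟩
        · intro h
          have h2 := congrArg (fun q => q.coeff 5) h
          simp [coeff_X] at h2
        · rw [map_sub, map_sub, map_pow, aeval_X, aeval_C]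
          show Y ^ 5 - Y - (b : M) = 0
          rw [hY', ha]
          simp
      exact h1.restrictScalars k
    obtain ⟨E', hE'⟩ : ∃ E' : IntermediateField k M,
      E' = IntermediateField.adjoin k (insert Y (insert ζ (C₀ : Set M))) := ⟨_, rfl⟩
    have hsub : ∀ b ∈ insert Y (insert ζ (C₀ : Set M)), b ∈ E' := fun b hb => by
      rw [hE']
      exact IntermediateField.subset_adjoin _ _ hb
    have hEE' : E ≤ E' := by
      rw [hE, IntermediateField.adjoin_le_iff]
      exact fun b hb => hsub b (Or.inr (Or.inr hb))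
    have ha1 : aeval s (((1 : Polynomial E') ^ 5 * C (algebraMap k E' A)) : Polynomial E') =
        algebraMap k M A := by
      rw [one_pow, one_mul, aeval_C, ← IsScalarTower.algebraMap_apply]
    obtain ⟨B, b1, b2, b3, b4, b5, b6⟩ := emt_VE htd (insert Y (insert ζ (C₀ : Set M)))
      ((C₀.finite_toSet.insert ζ).insert Y) (by
        rintro c (rfl | rfl | hc)
        · exact hYE
        · exact hζalg
        · exact hC₀ c hc) E' hE' ζ hζ (hsub ζ (Or.inr (Or.inl rfl)))
      1 (C (algebraMap k E' A)) (β.map (algebraMap k E')) one_ne_zero (C_ne_zero.2 (h2k E'))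
      (by
        intro h
        apply hΔ
        apply Polynomial.map_injective _ (algebraMap k E').injective
        rw [Polynomial.map_zero, ← h]
        simp) (by simp) (by rw [natDegree_map]; simp; omega) s x y hs (by
        rw [ha1, aeval_map_algebraMap]
        exact hy) (by rw [← hT]; exact hal)
    exact red B b1 (hEE'.trans b2) (b2 (hsub Y (Or.inl rfl))) b3 b4 b5 b6
  · -- `K₀(Y)` is the function field of a surface of the same kind
    obtain ⟨E', hE'⟩ : ∃ E' : IntermediateField k M,
      E' = IntermediateField.adjoin k (insert ζ (C₀ : Set M)) := ⟨_, rfl⟩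
    have hsub : ∀ b ∈ insert ζ (C₀ : Set M), b ∈ E' := fun b hb => by
      rw [hE']
      exact IntermediateField.subset_adjoin _ _ hb
    have hEE' : E ≤ E' := by
      rw [hE, IntermediateField.adjoin_le_iff]
      exact fun b hb => hsub b (Or.inr hb)
    obtain ⟨a', ha'⟩ : ∃ a' : E', (a' : M) = a := ⟨⟨a, hEE' a.2⟩, rfl⟩
    obtain ⟨b', hb'⟩ : ∃ b' : E', (b' : M) = b := ⟨⟨b, hEE' b.2⟩, rfl⟩
    have ha0 : (a : M) ≠ 0 := fun h => ha (Subtype.ext h)
    have ha0' : a' ≠ 0 := fun h => ha0 (by rw [← ha', h]; rfl)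
    obtain ⟨σ, hσ⟩ : ∃ σ : Polynomial E', σ = C a'⁻¹ * (X ^ 5 - X - C b') := ⟨_, rfl⟩
    have hσs : aeval Y σ = s := by
      rw [hσ, map_mul, map_sub, map_sub, map_pow, aeval_X, aeval_C, aeval_C]
      show ((a'⁻¹ : E') : M) * (Y ^ 5 - Y - (b' : M)) = s
      rw [hY', hb', IntermediateField.coe_inv, ha']
      field_simp
      ring
    have hσd : σ.natDegree ≤ 5 := by
      rw [hσ]
      refine (natDegree_C_mul_le _ _).trans ?_
      compute_degree
    have hcomp : ∀ q : k[X], aeval Y ((q.map (algebraMap k E')).comp σ) = aeval s q := by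
      intro q
      rw [aeval_comp, hσs, aeval_map_algebraMap]
    have hEa : ∀ (A' : IntermediateField k M) (c : E), IsAlgebraic A' (c : M) := fun A' c =>
      alg_mono (bot_le : (⊥ : IntermediateField k M) ≤ A')
        (((hEalg.isAlgebraic c).algebraMap (A := M)).extendScalars
          (FaithfulSMul.algebraMap_injective k (⊥ : IntermediateField k M)))
    have hsA : ∀ A' : IntermediateField k M, IsAlgebraic A' Y → IsAlgebraic A' s := by
      intro A' hYA
      have h1 : s = (Y ^ 5 - Y - b) * (a : M)⁻¹ := by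
        rw [hY']
        field_simp
        ring
      rw [h1]
      exact (((hYA.pow 5).sub hYA).sub (hEa A' b)).mul (hEa A' a).inv
    have hYt : Transcendental k Y := by
      intro h
      apply hs
      have h1 : IsAlgebraic (⊥ : IntermediateField k M) s := hsA ⊥
        (h.extendScalars (FaithfulSMul.algebraMap_injective k (⊥ : IntermediateField k M)))
      exact h1.restrictScalars k
    have hal' : ∀ u : M, IsAlgebraic (IntermediateField.adjoin k {Y, x, y}) u := by
      intro u
      refine algTrans (K := IntermediateField.adjoin k T) _ (fun u => ?_) u (hal u)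
      refine alg_adjoin _ T ?_ u u.2
      have hm : ∀ w ∈ ({Y, x, y} : Set M), IsAlgebraic (IntermediateField.adjoin k {Y, x, y}) w :=
        fun w hw => isAlgebraic_algebraMap (⟨w, IntermediateField.subset_adjoin _ _ hw⟩ :
          IntermediateField.adjoin k {Y, x, y})
      rw [hT]
      rintro _ (rfl | rfl | rfl)
      · exact hsA _ (hm Y (Or.inl rfl))
      · exact hm _ (Or.inr (Or.inl rfl))
      · exact hm _ (Or.inr (Or.inr rfl))
    have ha1 : aeval Y (((1 : Polynomial E') ^ 5 * C (algebraMap k E' A)) : Polynomial E') =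
        algebraMap k M A := by
      rw [one_pow, one_mul, aeval_C, ← IsScalarTower.algebraMap_apply]
    obtain ⟨B, b1, b2, b3, b4, b5, b6⟩ := emt_VE htd (insert ζ (C₀ : Set M))
      (C₀.finite_toSet.insert ζ) (by
        rintro c (rfl | hc)
        · exact hζalg
        · exact hC₀ c hc) E' hE' ζ hζ (hsub ζ (Or.inl rfl))
      1 (C (algebraMap k E' A)) ((β.map (algebraMap k E')).comp σ) one_ne_zero
      (C_ne_zero.2 (h2k E'))
      (by
        intro h
        have h1 := congrArg (fun q => aeval Y q) h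
        simp only [map_add, map_mul, map_pow, hcomp, map_zero, map_ofNat, one_pow,
          one_mul, aeval_C, ← IsScalarTower.algebraMap_apply] at h1
        apply hs
        refine ⟨_, hΔ, ?_⟩
        rw [map_add, map_mul, map_pow, map_pow, aeval_C, map_ofNat]
        exact h1) (by simp) (by
        have h1 : ((β.map (algebraMap k E')).comp σ).natDegree ≤ 6 * 5 := by
          refine (natDegree_comp_le).trans ?_
          rw [natDegree_map]
          exact Nat.mul_le_mul dβ hσd
        rw [natDegree_C]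
        omega) Y x y hYt (by
        rw [ha1, hcomp]
        exact hy) hal'
    refine red B b1 (hEE'.trans b2) b3 ?_ b4 b5 b6
    have h1 : (aeval Y σ : M) ∈ B := aeval_mem_of E' B b2 Y b3 σ
    rwa [hσs] at h1

end

open scoped Classical

/-- the curves `y ^ 2 = x ^ 3 + A x + B(s)`, `A ≠ 0` in `k`, `deg B ≤ 6`, of characteristic five in
the layers of towers -/
theorem sha_V5T {k K Kb : Type} [Field k] [Finite k] [Field K] [Field Kb] [Algebra k K]
    [Algebra k Kb] [Algebra K Kb] [IsScalarTower k K Kb] [IsAlgClosed Kb]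
    [Algebra.IsAlgebraic K Kb] [CharP k 5] (s : K)
    (hs : Transcendental k s) (W : WeierstrassCurve k[X]) (hΔ : W.Δ ≠ 0)
    (w1 : W.a₁ = 0) (w2 : W.a₂ = 0) (w3 : W.a₃ = 0) (A : k) (hA : A ≠ 0) (w4 : W.a₄ = C A)
    (d6 : W.a₆.natDegree ≤ 6) (S : Finset Kb)
    (hS : ∀ z ∈ S, ∃ φ F : k[X], AddPoly φ ∧ derivative φ ≠ 0 ∧ F.natDegree ≤ 1 ∧
      aeval z φ = aeval (algebraMap K Kb s) F)
    (hK : ∀ a : K, algebraMap K Kb a ∈
      IntermediateField.adjoin k (insert (algebraMap K Kb s) (S : Set Kb)))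
    (ℓ : ℕ) (hℓ : ℓ.Prime) (hℓk : (ℓ : k) ≠ 0)
    (c : ℕ → (Kb ≃ₐ[K] Kb) → Pts (Ws W s) Kb) (hc : ShaSys (Ws W s) k ℓ c) (n : ℕ) :
    Principal (Ws W s) (T1B.geo k K Kb) (c n) := by
  have hS' : ∀ z ∈ S, ∃ φ F : k[X], φ.natDegree ≠ 0 ∧
      aeval z φ = aeval (algebraMap K Kb s) F := fun z hz => by
    obtain ⟨φ, F, -, a2, -, a4⟩ := hS z hz
    refine ⟨φ, F, fun h => a2 ?_, a4⟩
    rw [eq_C_of_natDegree_eq_zero h, derivative_C]
  obtain ⟨M, _, _, _, _, x, y, t1, t2, t3, hM, htd, hx, hy, hal⟩ := setup s hs S hS' hK W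
  have hsM : Transcendental k (algebraMap K M s) :=
    (transcendental_algebraMap_iff (algebraMap K M).injective).2 hs
  obtain ⟨t, ht⟩ : ∃ t, t = algebraMap K M s := ⟨_, rfl⟩
  have heq : y ^ 2 = x ^ 3 + algebraMap k M A * x + aeval t W.a₆ := by
    have h1 := hy
    rw [aeval_wpoly, w1, w2, w3, w4] at h1
    simp only [Matrix.cons_val_zero, Matrix.cons_val_one, Matrix.cons_val, map_zero, ← ht,
      aeval_C] at h1
    linear_combination h1
  have h5 : (5 : k[X]) = 0 := by exact_mod_cast CharP.cast_eq_zero k[X] 5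
  have hΔ' : W.a₆ ^ 2 + 2 * C A ^ 3 ≠ 0 := by
    intro h
    apply hΔ
    rw [WeierstrassCurve.Δ, WeierstrassCurve.b₂, WeierstrassCurve.b₄, WeierstrassCurve.b₆,
      WeierstrassCurve.b₈, w1, w2, w3, w4]
    linear_combination 3 * h - (14 * C A ^ 3 + 87 * W.a₆ ^ 2) * h5
  obtain ⟨F, hF⟩ : ∃ F : IntermediateField K M, F = IntermediateField.adjoin K {x, y} := ⟨_, rfl⟩
  have hxF : x ∈ F := by
    rw [hF]
    exact IntermediateField.subset_adjoin _ _ (by simp)
  have hyF : y ∈ F := by
    rw [hF]
    exact IntermediateField.subset_adjoin _ _ (by simp)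
  have hset : ∀ A' : IntermediateField k M, x ∈ A' → y ∈ A' → t ∈ A' →
      IntermediateField.adjoin k (Set.range ![x, y, algebraMap K M s]) ≤ A' := by
    intro A' h1 h2 h3
    rw [IntermediateField.adjoin_le_iff]
    rintro _ ⟨i, rfl⟩
    fin_cases i
    · exact h1
    · exact h2
    · exact ht ▸ h3
  have hsub := hset (F.restrictScalars k) hxF hyF (by
    rw [ht]
    exact F.algebraMap_mem s)
  have hFal : ∀ b : M, IsAlgebraic (F.restrictScalars k) b := fun b => alg_mono hsub (hal b)
  have hal' : ∀ b : M, IsAlgebraic (IntermediateField.adjoin k {t, x, y}) b := fun b =>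
    alg_mono (hset _ (IntermediateField.subset_adjoin _ _ (Or.inr (Or.inl rfl)))
      (IntermediateField.subset_adjoin _ _ (Or.inr (Or.inr rfl)))
      (IntermediateField.subset_adjoin _ _ (Or.inl rfl))) (hal b)
  -- the field is contained in the tower
  let ι : Kb →ₐ[k] M := IsScalarTower.toAlgHom k Kb M
  obtain ⟨B, hB⟩ : ∃ B : IntermediateField k M, B = IntermediateField.adjoin k
    ({t, x, y} ∪ ((S.image ι : Finset M) : Set M)) := ⟨_, rfl⟩
  have hBs : ∀ b ∈ ({t, x, y} ∪ ((S.image ι : Finset M) : Set M) : Set M), b ∈ B := fun b hb => by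
    rw [hB]
    exact IntermediateField.subset_adjoin _ _ hb
  have hle : F.restrictScalars k ≤ B := by
    have hKM : ∀ a : K, algebraMap K M a ∈ B := by
      intro a
      have a1 : (IntermediateField.adjoin k (insert (algebraMap K Kb s) (S : Set Kb))).map ι ≤
          B := by
        rw [IntermediateField.adjoin_map, IntermediateField.adjoin_le_iff]
        rintro _ ⟨b, hb, rfl⟩
        apply hBs
        rcases hb with rfl | hb
        · left
          left
          show algebraMap Kb M (algebraMap K Kb s) = t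
          rw [ht]
          exact (IsScalarTower.algebraMap_apply K Kb M s).symm
        · right
          rw [Finset.coe_image]
          exact ⟨b, hb, rfl⟩
      refine a1 ⟨algebraMap K Kb a, hK a, ?_⟩
      show algebraMap Kb M (algebraMap K Kb a) = algebraMap K M a
      exact (IsScalarTower.algebraMap_apply K Kb M a).symm
    let B' : IntermediateField K M := B.toSubfield.toIntermediateField hKM
    have hFB : F ≤ B' := by
      rw [hF, IntermediateField.adjoin_le_iff]
      rintro b (rfl | hb)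
      · exact hBs _ (Or.inl (Or.inr (Or.inl rfl)))
      · rw [Set.mem_singleton_iff.1 hb]
        exact hBs _ (Or.inl (Or.inr (Or.inr rfl)))
    exact fun b hb => hFB hb
  have hemt : Emt (F.restrictScalars k) := by
    refine tower_V htd A hA W.a₆ d6 hΔ' t x y (ht ▸ hsM) heq hal' (S.image ι) ?_ _
      (by rw [← hB]; exact hle) hFal
    intro z hz
    obtain ⟨z', hz', rfl⟩ := Finset.mem_image.1 hz
    obtain ⟨φ, G, a1, a2, a3, a4⟩ := hS z' hz'
    refine ⟨φ, G, a1, a2, a3, ?_⟩
    rw [Polynomial.aeval_algHom_apply, a4, ht]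
    show algebraMap Kb M (aeval (algebraMap K Kb s) G) = aeval (algebraMap K M s) G
    rw [← Polynomial.aeval_algebraMap_apply, ← IsScalarTower.algebraMap_apply K Kb M]
  have hT : T1B.T1 k F ℓ := t1_of_emt (F.restrictScalars k) hFal hemt ℓ hℓ hℓk
  exact bridge s hs (alg_K' s S hS' hK) W hΔ x y hx hy F hF ℓ hℓ hℓk hT c hc n

end Pool.Agent.ADH
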