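import Pool.Agent.ADH.A1
import Pool.Agent.ADT.A2
import Pool.Agent.WLD.W11b

/-!
# The varieties `P = 0`, `G (Y ^ p - Q ^ (p - 1) Y) = H` of low weighted degree are uniruled
-/

set_option autoImplicit false

namespace Pool.Agent.ADH

open Polynomial Pool.Agent.UQ Pool.Agent.WLD Pool.Agent.ADT

universe u

section

variable {k : Type*} [Field k] {m : ℕ}

/-- values in a domain: `G (Y ^ p - Q ^ (p - 1) Y) = H` makes `Y` algebraic over the other
coordinates -/
theorem alg_homX {A : Type*} [CommRing A] [IsDomain A] [Algebra k A] (p : ℕ) (hp : 2 ≤ p)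
    (𝒳 : Fin m → A) (i₀ : Fin m) (G Q H : MvPolynomial (Fin m) k) (hGv : i₀ ∉ G.vars)
    (hQ : i₀ ∉ Q.vars) (hH : i₀ ∉ H.vars) (hG0 : MvPolynomial.aeval 𝒳 G ≠ 0)
    (h : MvPolynomial.aeval 𝒳 G * (𝒳 i₀ ^ p - MvPolynomial.aeval 𝒳 Q ^ (p - 1) * 𝒳 i₀) =
      MvPolynomial.aeval 𝒳 H) :
    IsAlgebraic (Algebra.adjoin k (Set.range fun i : {i // i ≠ i₀} => 𝒳 i)) (𝒳 i₀) := by
  classical
  let B := Algebra.adjoin k (Set.range fun i : {i // i ≠ i₀} => 𝒳 i)
  have hmem : ∀ P : MvPolynomial (Fin m) k, i₀ ∉ P.vars → MvPolynomial.aeval 𝒳 P ∈ B := by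
    intro P hP
    obtain ⟨P', rfl⟩ := MvPolynomial.exists_rename_eq_of_vars_subset_range P
      (Subtype.val : {i : Fin m // i ≠ i₀} → Fin m) Subtype.val_injective (by
        intro i hi
        exact ⟨⟨i, fun h => hP (h ▸ hi)⟩, rfl⟩)
    rw [MvPolynomial.aeval_rename]
    show _ ∈ Algebra.adjoin k (Set.range fun i : {i // i ≠ i₀} => 𝒳 i)
    rw [Algebra.adjoin_range_eq_range_aeval]
    exact ⟨P', rfl⟩
  let b : B := ⟨MvPolynomial.aeval 𝒳 G, hmem G hGv⟩
  let g : B := ⟨MvPolynomial.aeval 𝒳 Q, hmem Q hQ⟩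
  let c : B := ⟨MvPolynomial.aeval 𝒳 H, hmem H hH⟩
  have hb0 : b ≠ 0 := fun h => hG0 (congrArg Subtype.val h)
  have hm : (C b * (X ^ p - C (g ^ (p - 1)) * X) - C c : B[X]).natDegree = p := by
    have h1 : (C (g ^ (p - 1)) * X : B[X]).natDegree < (X ^ p : B[X]).natDegree := by
      rw [natDegree_X_pow]
      exact lt_of_le_of_lt ((natDegree_C_mul_le _ _).trans natDegree_X_le) (by omega)
    rw [natDegree_sub_C, natDegree_C_mul hb0, natDegree_sub_eq_left_of_natDegree_lt h1,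
      natDegree_X_pow]
  refine ⟨C b * (X ^ p - C (g ^ (p - 1)) * X) - C c, ?_, ?_⟩
  · intro h0
    rw [h0, natDegree_zero] at hm
    omega
  · simp only [map_sub, map_mul, map_pow, aeval_X, aeval_C]
    show MvPolynomial.aeval 𝒳 G * (𝒳 i₀ ^ p - MvPolynomial.aeval 𝒳 Q ^ (p - 1) * 𝒳 i₀) -
      MvPolynomial.aeval 𝒳 H = 0
    rw [h, sub_self]

end

section

variable {k : Type u} {L : Type u} [Field k] [Field L] [Algebra k L] {m : ℕ}

theorem uniruled_of_arc_homX (p : ℕ) (hp : 2 ≤ p)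
    (ξ : Fin m → L) (hgen : IntermediateField.adjoin k (Set.range ξ) = ⊤)
    (hfin : Algebra.trdeg k L < Cardinal.aleph0)
    (htr : (m : Cardinal) ≤ Algebra.trdeg k L + 2) (i₀ : Fin m) (P : MvPolynomial (Fin m) k)
    (hP0 : P ≠ 0) (hPv : i₀ ∉ P.vars) (hP : MvPolynomial.aeval ξ P = 0)
    (G Q H : MvPolynomial (Fin m) k) (hGv : i₀ ∉ G.vars) (hQ : i₀ ∉ Q.vars) (hH : i₀ ∉ H.vars)
    (hG0 : MvPolynomial.aeval ξ G ≠ 0)
    (h0 : MvPolynomial.aeval ξ G * (ξ i₀ ^ p - MvPolynomial.aeval ξ Q ^ (p - 1) * ξ i₀) =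
      MvPolynomial.aeval ξ H)
    (𝒳 : Fin m → (AlgebraicClosure L)[X])
    (h1 : ∀ i, (𝒳 i).eval 0 = algebraMap L (AlgebraicClosure L) (ξ i))
    (h2 : MvPolynomial.aeval 𝒳 P = 0)
    (h3 : MvPolynomial.aeval 𝒳 G * (𝒳 i₀ ^ p - MvPolynomial.aeval 𝒳 Q ^ (p - 1) * 𝒳 i₀) =
      MvPolynomial.aeval 𝒳 H)
    (i : Fin m) (hi : (𝒳 i).natDegree ≠ 0) : Uniruled k L := by
  let j : L →ₐ[k] AlgebraicClosure L := IsScalarTower.toAlgHom k L (AlgebraicClosure L)
  let π : (AlgebraicClosure L)[X] →ₐ[k] AlgebraicClosure L :=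
    (Polynomial.aeval (0 : AlgebraicClosure L)).restrictScalars k
  have hπ : ∀ i, π (𝒳 i) = j (ξ i) := by
    intro n
    have : π (𝒳 n) = (𝒳 n).eval 0 := by
      change Polynomial.aeval (0 : AlgebraicClosure L) (𝒳 n) = _
      rw [Polynomial.coe_aeval_eq_eval]
    rw [this, h1]
    rfl
  have hG1 : MvPolynomial.aeval 𝒳 G ≠ 0 := by
    intro h
    have h4 : j (MvPolynomial.aeval ξ G) = π (MvPolynomial.aeval 𝒳 G) := by
      rw [MvPolynomial.comp_aeval_apply, MvPolynomial.comp_aeval_apply]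
      congr 2
      ext n
      exact (hπ n).symm
    rw [h, map_zero] at h4
    exact hG0 ((map_eq_zero_iff j j.injective).1 h4)
  exact uniruled_of_arc' ξ hgen hfin 𝒳 h1 (fun R hR => ker2 ξ hgen htr i₀ P hP0 hPv hP
    (alg_homX p hp ξ i₀ G Q H hGv hQ hH hG0 h0) j π 𝒳 hπ h2
    (alg_homX p hp 𝒳 i₀ G Q H hGv hQ hH hG1 h3) R hR) i hi

/-- **The varieties `P = 0`, `G (Y ^ p - Q ^ (p - 1) Y) = H` of low weighted degree are
uniruled.** -/
theorem uniruled_homX (p : ℕ) [Fact p.Prime] [CharP k p]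
    (ξ : Fin m → L) (hgen : IntermediateField.adjoin k (Set.range ξ) = ⊤)
    (hfin : Algebra.trdeg k L < Cardinal.aleph0)
    (htr : (m : Cardinal) ≤ Algebra.trdeg k L + 2) (i₀ : Fin m) (P : MvPolynomial (Fin m) k)
    (hP0 : P ≠ 0) (hPv : i₀ ∉ P.vars) (hP : MvPolynomial.aeval ξ P = 0)
    (G Q H : MvPolynomial (Fin m) k) (hGv : i₀ ∉ G.vars) (hQ : i₀ ∉ Q.vars) (hH : i₀ ∉ H.vars)
    (hG0 : MvPolynomial.aeval ξ G ≠ 0) (hQ0 : MvPolynomial.aeval ξ Q ≠ 0)
    (h0 : MvPolynomial.aeval ξ G * (ξ i₀ ^ p - MvPolynomial.aeval ξ Q ^ (p - 1) * ξ i₀) =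
      MvPolynomial.aeval ξ H)
    (w : Fin m → ℕ) (d D τ κ : ℕ)
    (hdP : MvPolynomial.weightedTotalDegree w P ≤ d)
    (hdH : MvPolynomial.weightedTotalDegree w H ≤ D)
    (hdG : MvPolynomial.weightedTotalDegree w G ≤ τ)
    (hdQ : MvPolynomial.weightedTotalDegree w Q ≤ κ) (hd0 : τ + p * w i₀ ≤ D)
    (hd1 : τ + (p - 1) * κ + w i₀ ≤ D) (hd2 : τ + p * κ + 1 ≤ D) (hsum : d + D ≤ ∑ i, w i) :
    Uniruled k L := by
  classical
  have hp : 2 ≤ p := (Fact.out : p.Prime).two_le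
  let K := AlgebraicClosure L
  have hCK : CharP K p := charP_of_injective_algebraMap (algebraMap k K).injective p
  let j : L →ₐ[k] K := IsScalarTower.toAlgHom k L K
  let R : MvPolynomial (Fin m) k :=
    G * (MvPolynomial.X i₀ ^ p - Q ^ (p - 1) * MvPolynomial.X i₀) - H
  have hRv : ∀ {A : Type u} [CommRing A] [Algebra k A] (η : Fin m → A),
      MvPolynomial.aeval η R = MvPolynomial.aeval η G *
        (η i₀ ^ p - MvPolynomial.aeval η Q ^ (p - 1) * η i₀) - MvPolynomial.aeval η H := by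
    intro A _ _ η
    simp only [R, map_sub, map_mul, map_pow, MvPolynomial.aeval_X]
  have hR0 : MvPolynomial.aeval ξ R = 0 := by rw [hRv, h0, sub_self]
  have hR' : R = G * MvPolynomial.X i₀ ^ p - G * (Q ^ (p - 1) * MvPolynomial.X i₀) - H := by
    simp only [R]
    ring
  have hdR : MvPolynomial.weightedTotalDegree w R ≤ D := by
    rw [hR']
    refine wle_sub _ _ _ _ (wle_sub _ _ _ _
      ((wle_mul w _ _ _ _ hdG (wle_X_pow w i₀ p)).trans hd0) ?_) hdH
    refine (wle_mul w _ _ τ ((p - 1) * κ + w i₀) hdG (wle_mul w _ _ _ _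
      ((wle_pow w Q (p - 1)).trans (Nat.mul_le_mul_left _ hdQ)) ?_)).trans
      ((Nat.add_assoc _ _ _).symm.le.trans hd1)
    have := wle_X_pow (k := k) w i₀ 1
    rwa [pow_one, one_mul] at this
  have hdG' : MvPolynomial.weightedTotalDegree w (G * Q ^ p) + 1 ≤ D :=
    (Nat.add_le_add_right (wle_mul w _ _ _ _ hdG ((wle_pow w Q p).trans
      (Nat.mul_le_mul_left _ hdQ))) 1).trans hd2
  obtain ⟨𝒳, c, h1, hX, h2, h3⟩ := arc_gen (K := K) P R (G * Q ^ p) w d D hdP hdR hdG' hsum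
    (fun i => j (ξ i)) (by rw [← MvPolynomial.comp_aeval_apply, hP, map_zero])
    (by rw [← MvPolynomial.comp_aeval_apply, hR0, map_zero])
  rw [hRv, map_mul, map_pow] at h2
  by_cases hc : c = 0
  · subst hc
    obtain ⟨i, hi⟩ := h3.resolve_left (fun h => h rfl)
    refine uniruled_of_arc_homX p hp ξ hgen hfin htr i₀ P hP0 hPv hP G Q H hGv hQ hH hG0 h0 𝒳 h1
      hX ?_ i hi
    rw [C_0, zero_mul, zero_mul, add_zero, sub_eq_zero] at h2
    exact h2
  · -- the substitution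
    let f : K[X] := X ^ p - X
    let s : K[X] := C c⁻¹ * f
    have hf0 : f.eval 0 = 0 := by
      simp only [f, eval_sub, eval_pow, eval_X]
      rw [zero_pow (by omega), sub_zero]
    have hfd : f.natDegree = p := by
      simp only [f]
      rw [natDegree_sub_eq_left_of_natDegree_lt] <;> simp
      omega
    have hs0 : s.eval 0 = 0 := by simp [s, hf0]
    have hsd : s.natDegree = p := by
      simp only [s]
      rw [natDegree_C_mul (inv_ne_zero hc), hfd]
    have hcs : C c * s = f := by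
      simp only [s]
      rw [← mul_assoc, ← C_mul, mul_inv_cancel₀ hc, C_1, one_mul]
    let σ : K[X] →ₐ[K] K[X] := aeval s
    let σk : K[X] →ₐ[k] K[X] := σ.restrictScalars k
    have hσ : ∀ q, σk q = q.comp s := fun q => rfl
    have he : ∀ q : K[X], (σk q).eval 0 = q.eval 0 := by
      intro q
      rw [hσ, eval_comp, hs0]
    obtain ⟨q', hq'⟩ : ∃ q', q' = σk (MvPolynomial.aeval 𝒳 Q) := ⟨_, rfl⟩
    let 𝒵 : Fin m → K[X] := fun i => if i = i₀ then σk (𝒳 i) + X * q' else σk (𝒳 i)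
    have h𝒵₀ : 𝒵 i₀ = σk (𝒳 i₀) + X * q' := by simp only [𝒵, if_true]
    have h𝒵i : ∀ i, i ≠ i₀ → 𝒵 i = σk (𝒳 i) := fun i hi => by simp only [𝒵, if_neg hi]
    have hvz : ∀ P : MvPolynomial (Fin m) k, i₀ ∉ P.vars →
        MvPolynomial.aeval 𝒵 P = σk (MvPolynomial.aeval 𝒳 P) := by
      intro P hP
      rw [aeval_congr_vars P i₀ hP 𝒵 (fun i => σk (𝒳 i)) (fun i hi => by simp [𝒵, hi])]
      exact (MvPolynomial.comp_aeval_apply 𝒳 σk P).symm
    have hCKX : CharP K[X] p := inferInstance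
    have hE : ∃ i, (𝒵 i).natDegree ≠ 0 := by
      by_contra hcon
      push Not at hcon
      -- the other coordinates are constant
      have a1 : ∀ i, i ≠ i₀ → 𝒳 i = C (j (ξ i)) := by
        intro i hi
        have b1 := hcon i
        rw [h𝒵i i hi, hσ, natDegree_comp, hsd] at b1
        have b2 : (𝒳 i).natDegree = 0 := by
          rcases Nat.mul_eq_zero.1 b1 with h | h
          · exact h
          · omega
        have b3 := eq_C_of_natDegree_eq_zero b2
        rw [coeff_zero_eq_eval_zero, h1 i] at b3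
        exact b3
      have a2 : q' = C (j (MvPolynomial.aeval ξ Q)) := by
        rw [hq', aeval_congr_vars Q i₀ hQ 𝒳 (fun i => C (j (ξ i))) a1]
        have b1 : MvPolynomial.aeval (fun i => (C (j (ξ i)) : K[X])) Q =
            C (MvPolynomial.aeval (fun i => j (ξ i)) Q) :=
          MvPolynomial.aeval_algebraMap_apply (R := k) (A := K) K[X] (fun i => j (ξ i)) Q
        rw [b1, hσ, C_comp, ← MvPolynomial.comp_aeval_apply]
      have a3 : j (MvPolynomial.aeval ξ Q) ≠ 0 := fun h =>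
        hQ0 ((map_eq_zero_iff j j.injective).1 h)
      have a4 := hcon i₀
      rw [h𝒵₀, a2] at a4
      have a5 := eq_C_of_natDegree_eq_zero a4
      have a6 : σk (𝒳 i₀) = C ((σk (𝒳 i₀) + X * C (j (MvPolynomial.aeval ξ Q))).coeff 0) -
          C (j (MvPolynomial.aeval ξ Q)) * X := by
        rw [← a5]
        ring
      have a7 : (σk (𝒳 i₀)).natDegree = 1 := by
        rw [a6]
        have b1 : ∀ a b : K, (C a - C b * X : K[X]) = -(C b * X - C a) := fun a b => by ring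
        rw [b1, natDegree_neg, natDegree_sub_C, natDegree_C_mul_X _ a3]
      rw [hσ, natDegree_comp, hsd] at a7
      have a8 := Nat.eq_one_of_mul_eq_one_left a7
      omega
    obtain ⟨i, hi⟩ := hE
    refine uniruled_of_arc_homX p hp ξ hgen hfin htr i₀ P hP0 hPv hP G Q H hGv hQ hH hG0 h0 𝒵
      (fun i => ?_) ?_ ?_ i hi
    · by_cases hii : i = i₀
      · subst hii
        rw [h𝒵₀, eval_add, eval_mul, eval_X, zero_mul, add_zero, he]
        exact h1 i
      · rw [h𝒵i i hii, he]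
        exact h1 i
    · rw [hvz P hPv, hX, map_zero]
    · have h4 : σk (MvPolynomial.aeval 𝒳 G) * (σk (𝒳 i₀) ^ p -
          σk (MvPolynomial.aeval 𝒳 Q) ^ (p - 1) * σk (𝒳 i₀)) - σk (MvPolynomial.aeval 𝒳 H) +
          σk (C c * X) * (σk (MvPolynomial.aeval 𝒳 G) * σk (MvPolynomial.aeval 𝒳 Q) ^ p) = 0 := by
        rw [← map_zero σk, ← h2]
        simp only [map_add, map_sub, map_mul, map_pow]
      rw [← hvz H hH, ← hvz G hGv] at h4
      have h5 : σk (C c * X) = X ^ p - X := by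
        rw [hσ, mul_comp, C_comp, X_comp, hcs]
      rw [h5, ← hq'] at h4
      rw [hvz Q hQ, ← hq', h𝒵₀, add_pow_char, mul_pow]
      have h6 : q' ^ (p - 1) * q' = q' ^ p := by
        rw [← pow_succ]
        congr 1
        omega
      linear_combination h4 - MvPolynomial.aeval 𝒵 G * X * h6

end

end Pool.Agent.ADH
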